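import Pool.Agent.TH477.RB.Defs

/-!
Symmetrisation (written by helper925 as TH925/J7, one step changed here).
-/

set_option autoImplicit false

namespace Pool.Agent.TH477.RB.Sym

open Finset Pool.Agent.TH477.RB

section Dec

variable {V : Type}

/-- `G` is the graph `H` (which does not meet `a`, `b`) with `a` joined to `A` and `b` joined to
`B`. -/
structure Dec (G H : SimpleGraph V) (a b : V) (A B : Set V) : Prop where
  hab : a ≠ b
  adj : ∀ x y, G.Adj x y ↔
    H.Adj x y ∨ (x = a ∧ y ∈ A) ∨ (y = a ∧ x ∈ A) ∨ (x = b ∧ y ∈ B) ∨ (y = b ∧ x ∈ B)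
  ha : ∀ x, ¬ H.Adj a x
  hb : ∀ x, ¬ H.Adj b x
  aA : a ∉ A
  bA : b ∉ A
  aB : a ∉ B
  bB : b ∉ B

/-- the colouring of `H` has no rainbow `k`-clique -/
def ok0 (r k : ℕ) (H : SimpleGraph V) (c : H.edgeSet → Fin r) : Prop :=
  ∀ S : Finset V, H.IsNClique k S →
    ∃ e f : H.edgeSet, e ≠ f ∧ (∀ v ∈ (e : Sym2 V), v ∈ S) ∧ (∀ v ∈ (f : Sym2 V), v ∈ S) ∧
      c e = c f

/-- the colouring `x` of the star at a vertex joined to `A` creates no rainbow clique. -/
def ok1 (r k : ℕ) (H : SimpleGraph V) (A : Set V) (c : H.edgeSet → Fin r) (x : A → Fin r) :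
    Prop :=
  ∀ T : Finset V, H.IsNClique (k - 1) T → (∀ t ∈ T, t ∈ A) →
    (∃ e f : H.edgeSet, e ≠ f ∧ (∀ v ∈ (e : Sym2 V), v ∈ T) ∧ (∀ v ∈ (f : Sym2 V), v ∈ T) ∧
      c e = c f) ∨
    (∃ s t : A, s ≠ t ∧ (s : V) ∈ T ∧ (t : V) ∈ T ∧ x s = x t) ∨
    (∃ (e : H.edgeSet) (t : A), (∀ v ∈ (e : Sym2 V), v ∈ T) ∧ (t : V) ∈ T ∧ c e = x t)

/-- number of good colourings of the star -/
noncomputable def f1 (r k : ℕ) (H : SimpleGraph V) (A : Set V) (c : H.edgeSet → Fin r) : ℕ :=
  Nat.card {x : A → Fin r // ok1 r k H A c x}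

variable {G H : SimpleGraph V} {a b : V} {A B : Set V}


theorem Dec.symm (h : Dec G H a b A B) : Dec G H b a B A where
  hab := h.hab.symm
  adj x y := by
    rw [h.adj]
    tauto
  ha := h.hb
  hb := h.ha
  aA := h.bB
  bA := h.aB
  aB := h.bA
  bB := h.aA

/-- edges of `H` are edges of `G` -/
def Dec.eH (h : Dec G H a b A B) (e : H.edgeSet) : G.edgeSet := ⟨e.1, by
      obtain ⟨e, he⟩ := e
      induction e using Sym2.ind with
      | _ x y =>
        rw [SimpleGraph.mem_edgeSet] at *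
        exact (h.adj x y).2 (Or.inl he)⟩

/-- edges at `a` -/
def Dec.eA (h : Dec G H a b A B) (z : A) : G.edgeSet := ⟨s(a, z.1), by
      rw [SimpleGraph.mem_edgeSet, h.adj]
      exact Or.inr (Or.inl ⟨rfl, z.2⟩)⟩

/-- the map on edges -/
def Dec.toEdge (h : Dec G H a b A B) : H.edgeSet ⊕ (A ⊕ B) → G.edgeSet
  | Sum.inl e => h.eH e
  | Sum.inr (Sum.inl z) => h.eA z
  | Sum.inr (Sum.inr z) => h.symm.eA z

theorem Dec.not_mem_a (h : Dec G H a b A B) (e : H.edgeSet) : a ∉ (e : Sym2 V) := by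
  obtain ⟨e, he⟩ := e
  induction e using Sym2.ind with
  | _ x y =>
    intro hm
    rw [SimpleGraph.mem_edgeSet] at he
    rcases Sym2.mem_iff.1 hm with rfl | rfl
    · exact h.ha _ he
    · exact h.ha _ he.symm

theorem Dec.not_mem_b (h : Dec G H a b A B) (e : H.edgeSet) : b ∉ (e : Sym2 V) :=
  h.symm.not_mem_a e

theorem Dec.eA_inj (h : Dec G H a b A B) {z z' : A} (hh : h.eA z = h.eA z') : z = z' := by
  have : s(a, z.1) = s(a, z'.1) := congrArg Subtype.val hh
  exact Subtype.ext (Sym2.congr_right.1 this)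

theorem Dec.eH_inj (h : Dec G H a b A B) {z z' : H.edgeSet} (hh : h.eH z = h.eH z') : z = z' := by
  have : (z : Sym2 V) = z' := congrArg (fun e : G.edgeSet => (e : Sym2 V)) hh
  exact Subtype.ext this

theorem Dec.eH_ne_eA (h : Dec G H a b A B) (e : H.edgeSet) (z : A) : h.eH e ≠ h.eA z := by
  intro hh
  have : (e : Sym2 V) = s(a, z.1) := congrArg Subtype.val hh
  exact absurd (this ▸ Sym2.mem_mk_left a z.1) (h.not_mem_a e)

theorem Dec.eA_ne_eB (h : Dec G H a b A B) (z : A) (z' : B) : h.eA z ≠ h.symm.eA z' := by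
  intro hh
  have : s(a, z.1) = s(b, z'.1) := congrArg Subtype.val hh
  have h3 : a ∈ s(b, z'.1) := this ▸ Sym2.mem_mk_left a z.1
  rcases Sym2.mem_iff.1 h3 with h4 | h4
  · exact absurd h4 h.hab
  · exact absurd (h4 ▸ z'.2) h.aB

theorem Dec.bijective (h : Dec G H a b A B) : Function.Bijective h.toEdge := by
  constructor
  · rintro (e | z | z) (e' | z' | z') hh
    · rw [h.eH_inj hh]
    · exact absurd hh (h.eH_ne_eA _ _)
    · exact absurd hh (h.symm.eH_ne_eA _ _)
    · exact absurd hh.symm (h.eH_ne_eA _ _)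
    · rw [h.eA_inj hh]
    · exact absurd hh (h.eA_ne_eB _ _)
    · exact absurd hh.symm (h.symm.eH_ne_eA _ _)
    · exact absurd hh.symm (h.eA_ne_eB _ _)
    · rw [h.symm.eA_inj hh]
  · rintro ⟨e, he⟩
    induction e using Sym2.ind with
    | _ x y =>
      rw [SimpleGraph.mem_edgeSet] at he
      rcases (h.adj x y).1 he with h1 | ⟨h1, h2⟩ | ⟨h1, h2⟩ | ⟨h1, h2⟩ | ⟨h1, h2⟩
      · exact ⟨Sum.inl ⟨s(x, y), h1⟩, rfl⟩
      · subst h1
        exact ⟨Sum.inr (Sum.inl ⟨y, h2⟩), rfl⟩
      · subst h1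
        exact ⟨Sum.inr (Sum.inl ⟨x, h2⟩), Subtype.ext Sym2.eq_swap⟩
      · subst h1
        exact ⟨Sum.inr (Sum.inr ⟨y, h2⟩), rfl⟩
      · subst h1
        exact ⟨Sum.inr (Sum.inr ⟨x, h2⟩), Subtype.ext Sym2.eq_swap⟩

/-- the equivalence of edge sets -/
noncomputable def Dec.equiv (h : Dec G H a b A B) : H.edgeSet ⊕ (A ⊕ B) ≃ G.edgeSet :=
  Equiv.ofBijective h.toEdge h.bijective

theorem Dec.adj_a (h : Dec G H a b A B) {t : V} : G.Adj a t ↔ t ∈ A := by
  rw [h.adj]
  constructor
  · rintro (h1 | ⟨h1, h2⟩ | ⟨h1, h2⟩ | ⟨h1, h2⟩ | ⟨h1, h2⟩)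
    · exact absurd h1 (h.ha _)
    · exact h2
    · exact absurd h2 h.aA
    · exact absurd h1 h.hab
    · exact absurd h2 h.aB
  · intro h1
    exact Or.inr (Or.inl ⟨rfl, h1⟩)

theorem Dec.adj_of_ne (h : Dec G H a b A B) {x y : V} (hx : x ≠ a) (hx' : x ≠ b) (hy : y ≠ a)
    (hy' : y ≠ b) : G.Adj x y ↔ H.Adj x y := by
  rw [h.adj]
  tauto

/-- the colouring `c` of `G` is not rainbow on `S` -/
def Bad {V : Type} (r : ℕ) (G : SimpleGraph V) (c : G.edgeSet → Fin r) (S : Finset V) : Prop :=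
  ∃ e f : G.edgeSet, e ≠ f ∧ (∀ v ∈ (e : Sym2 V), v ∈ S) ∧ (∀ v ∈ (f : Sym2 V), v ∈ S) ∧ c e = c f

theorem Dec.edge_cases (h : Dec G H a b A B) [DecidableEq V] {T : Finset V} {m : ℕ}
    (hT : H.IsNClique m T) (hTA : ∀ t ∈ T, t ∈ A) (e : G.edgeSet)
    (he : ∀ v ∈ (e : Sym2 V), v ∈ insert a T) :
    (∃ e' : H.edgeSet, e = h.eH e' ∧ ∀ v ∈ (e' : Sym2 V), v ∈ T) ∨
    (∃ t : A, e = h.eA t ∧ (t : V) ∈ T) := by
  obtain ⟨e, hG⟩ := e
  induction e using Sym2.ind with
  | _ x y =>
    have hx := he x (Sym2.mem_mk_left x y)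
    have hy := he y (Sym2.mem_mk_right x y)
    have hxy : G.Adj x y := hG
    rw [Finset.mem_insert] at hx hy
    rcases hx with hx | hx
    · subst hx
      rcases hy with hy | hy
      · exact absurd (hy ▸ hxy) (G.irrefl)
      · exact Or.inr ⟨⟨y, hTA y hy⟩, rfl, hy⟩
    · rcases hy with hy | hy
      · subst hy
        exact Or.inr ⟨⟨x, hTA x hx⟩, Subtype.ext Sym2.eq_swap, hx⟩
      · left
        have hH : H.Adj x y := hT.1 hx hy hxy.ne
        refine ⟨⟨s(x, y), hH⟩, rfl, ?_⟩
        intro v hv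
        rcases Sym2.mem_iff.1 hv with rfl | rfl
        · exact hx
        · exact hy

theorem Dec.insert_clique (h : Dec G H a b A B) [DecidableEq V] {k : ℕ} (hk : 1 ≤ k)
    {T : Finset V} (hT : H.IsNClique (k - 1) T) (hTA : ∀ t ∈ T, t ∈ A) :
    G.IsNClique k (insert a T) := by
  have haT : a ∉ T := fun hh => h.aA (hTA a hh)
  rw [SimpleGraph.isNClique_iff]
  constructor
  · rw [Finset.coe_insert, SimpleGraph.isClique_insert]
    constructor
    · intro x hx y hy hxy
      exact (h.adj x y).2 (Or.inl (hT.1 hx hy hxy))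
    · intro x hx _
      exact h.adj_a.2 (hTA x hx)
  · rw [Finset.card_insert_of_notMem haT, hT.2]
    omega

theorem Dec.erase_clique (h : Dec G H a b A B) [DecidableEq V] {k : ℕ}
    {S : Finset V} (hS : G.IsNClique k S) (haS : a ∈ S) :
    H.IsNClique (k - 1) (S.erase a) ∧ ∀ t ∈ S.erase a, t ∈ A := by
  have hmem : ∀ t ∈ S.erase a, t ∈ A := by
    intro t ht
    rw [Finset.mem_erase] at ht
    exact h.adj_a.1 (hS.1 haS ht.2 ht.1.symm)
  refine ⟨?_, hmem⟩
  rw [SimpleGraph.isNClique_iff]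
  constructor
  · intro x hx y hy hxy
    have hx' := Finset.mem_erase.1 (Finset.mem_coe.1 hx)
    have hy' := Finset.mem_erase.1 (Finset.mem_coe.1 hy)
    refine (h.adj_of_ne hx'.1 ?_ hy'.1 ?_).1 (hS.1 hx'.2 hy'.2 hxy)
    · rintro rfl
      exact h.bA (hmem _ hx)
    · rintro rfl
      exact h.bA (hmem _ hy)
  · rw [Finset.card_erase_of_mem haS, hS.2]

theorem Dec.avoid_clique (h : Dec G H a b A B) {k : ℕ}
    {S : Finset V} (hS : G.IsNClique k S) (ha : a ∉ S) (hb : b ∉ S) : H.IsNClique k S := by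
  refine ⟨fun x hx y hy hxy => (h.adj_of_ne ?_ ?_ ?_ ?_).1 (hS.1 hx hy hxy), hS.2⟩
  · rintro rfl; exact ha hx
  · rintro rfl; exact hb hx
  · rintro rfl; exact ha hy
  · rintro rfl; exact hb hy

theorem Dec.clique_of (h : Dec G H a b A B) {k : ℕ}
    {S : Finset V} (hS : H.IsNClique k S) : G.IsNClique k S :=
  ⟨fun x hx y hy hxy => (h.adj x y).2 (Or.inl (hS.1 hx hy hxy)), hS.2⟩

/-- the condition for the cliques through `a` -/
theorem Dec.one_side (h : Dec G H a b A B) (r k : ℕ) (hk : 1 ≤ k) (c : G.edgeSet → Fin r) :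
    (∀ S : Finset V, G.IsNClique k S → a ∈ S → Bad r G c S) ↔
    ok1 r k H A (fun e => c (h.eH e)) (fun z => c (h.eA z)) := by
  classical
  constructor
  · intro hS T hT hTA
    have haT : a ∉ T := fun hh => h.aA (hTA a hh)
    have hc : G.IsNClique k (insert a T) := by
      rw [SimpleGraph.isNClique_iff]
      constructor
      · rw [Finset.coe_insert, SimpleGraph.isClique_insert]
        constructor
        · intro x hx y hy hxy
          exact (h.adj x y).2 (Or.inl (hT.1 hx hy hxy))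
        · intro x hx _
          exact h.adj_a.2 (hTA x hx)
      · rw [Finset.card_insert_of_notMem haT, hT.2]
        omega
    obtain ⟨e, f, hef, he, hf, hcc⟩ := hS _ hc (Finset.mem_insert_self a T)
    rcases h.edge_cases hT hTA e he with ⟨e', rfl, he'⟩ | ⟨s, rfl, hs⟩
    · rcases h.edge_cases hT hTA f hf with ⟨f', rfl, hf'⟩ | ⟨t, rfl, ht⟩
      · exact Or.inl ⟨e', f', fun hh => hef (by rw [hh]), he', hf', hcc⟩
      · exact Or.inr (Or.inr ⟨e', t, he', ht, hcc⟩)
    · rcases h.edge_cases hT hTA f hf with ⟨f', rfl, hf'⟩ | ⟨t, rfl, ht⟩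
      · exact Or.inr (Or.inr ⟨f', s, hf', hs, hcc.symm⟩)
      · exact Or.inr (Or.inl ⟨s, t, fun hh => hef (by rw [hh]), hs, ht, hcc⟩)
  · intro hok S hS haS
    have hmem : ∀ t ∈ S.erase a, t ∈ A := by
      intro t ht
      rw [Finset.mem_erase] at ht
      exact h.adj_a.1 (hS.1 haS ht.2 ht.1.symm)
    have hT : H.IsNClique (k - 1) (S.erase a) := by
      rw [SimpleGraph.isNClique_iff]
      constructor
      · intro x hx y hy hxy
        have hx' := Finset.mem_erase.1 (Finset.mem_coe.1 hx)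
        have hy' := Finset.mem_erase.1 (Finset.mem_coe.1 hy)
        refine (h.adj_of_ne hx'.1 ?_ hy'.1 ?_).1 (hS.1 hx'.2 hy'.2 hxy)
        · rintro rfl
          exact h.bA (hmem _ hx)
        · rintro rfl
          exact h.bA (hmem _ hy)
      · rw [Finset.card_erase_of_mem haS, hS.2]
    have hsub : S.erase a ⊆ S := Finset.erase_subset _ _
    have hA : ∀ t : A, (t : V) ∈ S.erase a → ∀ v ∈ (h.eA t : Sym2 V), v ∈ S := by
      intro t ht v hv
      rcases Sym2.mem_iff.1 hv with rfl | rfl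
      · exact haS
      · exact hsub ht
    rcases hok _ hT hmem with ⟨e, f, hef, he, hf, hcc⟩ | ⟨s, t, hst, hs, ht, hcc⟩ |
      ⟨e, t, he, ht, hcc⟩
    · exact ⟨h.eH e, h.eH f, fun hh => hef (h.eH_inj hh), fun v hv => hsub (he v hv),
        fun v hv => hsub (hf v hv), hcc⟩
    · exact ⟨h.eA s, h.eA t, fun hh => hst (h.eA_inj hh), hA s hs, hA t ht, hcc⟩
    · exact ⟨h.eH e, h.eA t, h.eH_ne_eA e t, fun v hv => hsub (he v hv), hA t ht, hcc⟩

/-- the good condition splits -/
theorem Dec.good_iff (h : Dec G H a b A B) (r k : ℕ) (hk : 1 ≤ k) (c : G.edgeSet → Fin r) :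
    (∀ S : Finset V, G.IsNClique k S → Bad r G c S) ↔
    ok0 r k H (fun e => c (h.eH e)) ∧
    ok1 r k H A (fun e => c (h.eH e)) (fun z => c (h.eA z)) ∧
    ok1 r k H B (fun e => c (h.eH e)) (fun z => c (h.symm.eA z)) := by
  rw [← h.one_side r k hk c]
  have h2 := h.symm.one_side r k hk c
  rw [show ok1 r k H B (fun e => c (h.eH e)) (fun z => c (h.symm.eA z)) ↔ _ from h2.symm]
  constructor
  · intro hS
    refine ⟨?_, fun S h1 _ => hS S h1, fun S h1 _ => hS S h1⟩
    intro S hSH
    have hSG : G.IsNClique k S := by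
      refine ⟨fun x hx y hy hxy => (h.adj x y).2 (Or.inl (hSH.1 hx hy hxy)), hSH.2⟩
    obtain ⟨⟨e, he0⟩, ⟨f, hf0⟩, hef, he, hf, hcc⟩ := hS S hSG
    have key : ∀ e : Sym2 V, e ∈ G.edgeSet → (∀ v ∈ e, v ∈ S) → e ∈ H.edgeSet := by
      intro e
      induction e using Sym2.ind with
      | _ x y =>
        intro hG hv
        have hxy : G.Adj x y := hG
        exact hSH.1 (hv x (Sym2.mem_mk_left x y)) (hv y (Sym2.mem_mk_right x y)) hxy.ne
    exact ⟨⟨e, key e he0 he⟩, ⟨f, key f hf0 hf⟩, fun hh => hef (Subtype.ext (by simpa using hh)),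
      he, hf, hcc⟩
  · rintro ⟨h0, hA, hB⟩ S hS
    by_cases ha : a ∈ S
    · exact hA S hS ha
    by_cases hb : b ∈ S
    · exact hB S hS hb
    have hSH : H.IsNClique k S := by
      refine ⟨fun x hx y hy hxy => (h.adj_of_ne ?_ ?_ ?_ ?_).1 (hS.1 hx hy hxy), hS.2⟩
      · rintro rfl; exact ha hx
      · rintro rfl; exact hb hx
      · rintro rfl; exact ha hy
      · rintro rfl; exact hb hy
    obtain ⟨e, f, hef, he, hf, hcc⟩ := h0 S hSH
    exact ⟨h.eH e, h.eH f, fun hh => hef (h.eH_inj hh), he, hf, hcc⟩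

open Classical in
/-- the number of good colourings as a sum -/
theorem Dec.cc_eq [Fintype V] (h : Dec G H a b A B) (r k : ℕ) (hk : 1 ≤ k) :
    cc r k G = ∑ c : H.edgeSet → Fin r,
      if ok0 r k H c then f1 r k H A c * f1 r k H B c else 0 := by
  have e1 : {c : G.edgeSet → Fin r // ∀ S : Finset V, G.IsNClique k S → Bad r G c S} ≃
      (Σ c : H.edgeSet → Fin r, {xy : (A → Fin r) × (B → Fin r) //
        ok0 r k H c ∧ ok1 r k H A c xy.1 ∧ ok1 r k H B c xy.2}) := by
    refine ((Equiv.arrowCongr h.equiv.symm (Equiv.refl (Fin r))).trans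
      ((Equiv.sumArrowEquivProdArrow _ _ _).trans
      (Equiv.prodCongr (Equiv.refl _) (Equiv.sumArrowEquivProdArrow _ _ _)))).subtypeEquiv
      (q := fun p => ok0 r k H p.1 ∧ ok1 r k H A p.1 p.2.1 ∧ ok1 r k H B p.1 p.2.2) ?_ |>.trans ?_
    · intro c
      exact h.good_iff r k hk c
    · exact
      { toFun := fun p => ⟨p.1.1, ⟨p.1.2, p.2⟩⟩
        invFun := fun p => ⟨(p.1, p.2.1), p.2.2⟩
        left_inv := fun _ => rfl
        right_inv := fun _ => rfl }
  have e2 : cc r k G = Nat.card (Σ c : H.edgeSet → Fin r, {xy : (A → Fin r) × (B → Fin r) //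
        ok0 r k H c ∧ ok1 r k H A c xy.1 ∧ ok1 r k H B c xy.2}) := Nat.card_congr e1
  rw [e2, Nat.card_eq_fintype_card, Fintype.card_sigma]
  refine Finset.sum_congr rfl fun c _ => ?_
  rw [← Nat.card_eq_fintype_card]
  split_ifs with hc
  · unfold f1
    rw [← Nat.card_prod]
    refine Nat.card_congr ?_
    refine (Equiv.subtypeEquivRight (q := fun xy : (A → Fin r) × (B → Fin r) =>
      ok1 r k H A c xy.1 ∧ ok1 r k H B c xy.2) ?_).trans ?_
    · intro xy
      simp [hc]
    · exact Equiv.subtypeProdEquivProd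
  · have : IsEmpty {xy : (A → Fin r) × (B → Fin r) //
        ok0 r k H c ∧ ok1 r k H A c xy.1 ∧ ok1 r k H B c xy.2} := ⟨fun p => hc p.2.1⟩
    exact Nat.card_of_isEmpty


theorem f1_le [Fintype V] (r k : ℕ) (c : H.edgeSet → Fin r) :
    f1 r k H A c ≤ r ^ Nat.card A := by
  classical
  unfold f1
  calc Nat.card {x : A → Fin r // ok1 r k H A c x} ≤ Nat.card (A → Fin r) :=
        Nat.card_le_card_of_injective Subtype.val Subtype.val_injective
    _ = r ^ Nat.card A := by simp [Nat.card_eq_fintype_card]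

theorem f1_eq_of_all (r k : ℕ) (c : H.edgeSet → Fin r) [Finite A]
    (hall : ∀ x, ok1 r k H A c x) : f1 r k H A c = r ^ Nat.card A := by
  classical
  have : Fintype A := Fintype.ofFinite A
  unfold f1
  rw [Nat.card_congr (Equiv.subtypeUnivEquiv hall)]
  simp [Nat.card_eq_fintype_card]

theorem all_of_f1_eq (r k : ℕ) (c : H.edgeSet → Fin r) [Finite A]
    (heq : f1 r k H A c = r ^ Nat.card A) (x : A → Fin r) : ok1 r k H A c x := by
  classical
  have : Fintype A := Fintype.ofFinite A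
  by_contra hx
  have hlt : f1 r k H A c < Nat.card (A → Fin r) := by
    unfold f1
    rw [Nat.card_eq_fintype_card, Nat.card_eq_fintype_card]
    exact Fintype.card_subtype_lt hx
  rw [heq] at hlt
  simp [Nat.card_eq_fintype_card] at hlt

end Dec

section Main

variable {n : ℕ}

/-- the part of `G` away from `a` and `b` -/
def core (G : SimpleGraph (Fin n)) (a b : Fin n) : SimpleGraph (Fin n) where
  Adj x y := G.Adj x y ∧ x ≠ a ∧ x ≠ b ∧ y ≠ a ∧ y ≠ b
  symm := ⟨fun _ _ h => ⟨h.1.symm, h.2.2.2.1, h.2.2.2.2, h.2.1, h.2.2.1⟩⟩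
  loopless := ⟨fun _ h => G.irrefl h.1⟩

theorem dec_self (G : SimpleGraph (Fin n)) {a b : Fin n} (hab : a ≠ b) (hn : ¬ G.Adj a b) :
    Dec G (core G a b) a b {z | G.Adj a z} {z | G.Adj b z} where
  hab := hab
  adj x y := by
    simp only [core, Set.mem_ofPred_eq]
    constructor
    · intro h
      by_cases h1 : x = a
      · subst h1; tauto
      by_cases h2 : x = b
      · subst h2; tauto
      by_cases h3 : y = a
      · subst h3; have := h.symm; tauto
      by_cases h4 : y = b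
      · subst h4; have := h.symm; tauto
      tauto
    · rintro (h | ⟨rfl, h⟩ | ⟨rfl, h⟩ | ⟨rfl, h⟩ | ⟨rfl, h⟩)
      · exact h.1
      · exact h
      · exact h.symm
      · exact h
      · exact h.symm
  ha x h := h.2.1 rfl
  hb x h := h.2.2.1 rfl
  aA := G.irrefl
  bA := hn
  aB h := hn h.symm
  bB := G.irrefl

theorem dec_replace (G : SimpleGraph (Fin n)) {a b : Fin n} (hab : a ≠ b) (hn : ¬ G.Adj a b) :
    Dec (G.replaceVertex a b) (core G a b) a b {z | G.Adj a z} {z | G.Adj a z} where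
  hab := hab
  adj x y := by
    have hirr : ∀ z, ¬ G.Adj z z := fun z => G.irrefl
    simp only [core, Set.mem_ofPred_eq, SimpleGraph.replaceVertex]
    by_cases h2 : x = b
    · subst h2
      by_cases h4 : y = x
      · subst h4
        simp [hn]
      · have h5 : y = a → ¬ G.Adj a y := by
          rintro rfl; exact hirr _
        have h6 : y = a → ¬ G.Adj a x := fun _ => hn
        simp only [if_true, if_neg h4]
        tauto
    · by_cases h4 : y = b
      · subst h4
        have h5 : x = a → ¬ G.Adj a x := by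
          rintro rfl; exact hirr _
        simp only [if_true, if_neg h2]
        rw [G.adj_comm x a]
        tauto
      · simp only [if_neg h2, if_neg h4]
        by_cases h1 : x = a
        · subst h1
          have := hirr x
          tauto
        · by_cases h3 : y = a
          · subst h3
            rw [G.adj_comm x y]
            tauto
          · tauto
  ha x h := h.2.1 rfl
  hb x h := h.2.2.1 rfl
  aA := G.irrefl
  bA := hn
  aB := G.irrefl
  bB := hn

theorem core_comm (G : SimpleGraph (Fin n)) (a b : Fin n) : core G b a = core G a b := by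
  ext x y
  simp only [core]
  tauto


/-- an injective colouring of the pairs of a small set -/
theorem exists_inj {r k : ℕ} (hr0 : 0 < r) (hr : k.choose 2 ≤ r) (S : Finset (Fin n))
    (hS : S.card = k) : ∃ g : Sym2 (Fin n) → Fin r, ∀ x y z w, x ∈ S → y ∈ S → z ∈ S → w ∈ S →
      x ≠ y → z ≠ w → g s(x, y) = g s(z, w) → s(x, y) = s(z, w) := by
  classical
  set E : Finset (Sym2 (Fin n)) := S.offDiag.image (fun p => s(p.1, p.2)) with hE
  have hcard : E.card = k.choose 2 := by
    have := Sym2.card_image_offDiag S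
    rw [hS] at this
    exact this
  have hcard2 : Fintype.card E ≤ Fintype.card (Fin r) := by
    rw [Fintype.card_coe, Fintype.card_fin, hcard]
    exact hr
  obtain ⟨g⟩ := Function.Embedding.nonempty_of_card_le hcard2
  refine ⟨fun e => if h : e ∈ E then g ⟨e, h⟩ else ⟨0, hr0⟩, ?_⟩
  intro x y z w hx hy hz hw hxy hzw hg
  have h1 : s(x, y) ∈ E := Finset.mem_image.2 ⟨(x, y), by simp [hx, hy, hxy], rfl⟩
  have h2 : s(z, w) ∈ E := Finset.mem_image.2 ⟨(z, w), by simp [hz, hw, hzw], rfl⟩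
  simp only [dif_pos h1, dif_pos h2] at hg
  have := g.injective hg
  exact congrArg Subtype.val this

open Classical in
theorem cs_eq {ι : Type} [Fintype ι] (P : ι → Prop) (f g : ι → ℕ)
    (m1 : ∑ c, (if P c then f c * f c else 0) ≤ ∑ c, (if P c then f c * g c else 0))
    (m2 : ∑ c, (if P c then g c * g c else 0) ≤ ∑ c, (if P c then f c * g c else 0)) :
    ∀ c, P c → f c = g c := by
  have e : ∑ c, (if P c then ((f c : ℤ) - g c) ^ 2 else 0) =
      ((∑ c, (if P c then f c * f c else 0) : ℕ) : ℤ) - 2 * ((∑ c, (if P c then f c * g c else 0) : ℕ) : ℤ)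
        + ((∑ c, (if P c then g c * g c else 0) : ℕ) : ℤ) := by
    push_cast
    rw [Finset.mul_sum, ← Finset.sum_sub_distrib, ← Finset.sum_add_distrib]
    refine Finset.sum_congr rfl fun c _ => ?_
    split_ifs <;> ring
  have key : ∑ c, (if P c then ((f c : ℤ) - g c) ^ 2 else 0) ≤ 0 := by
    rw [e]
    have m1' : ((∑ c, (if P c then f c * f c else 0) : ℕ) : ℤ) ≤
      ((∑ c, (if P c then f c * g c else 0) : ℕ) : ℤ) := by exact_mod_cast m1
    have m2' : ((∑ c, (if P c then g c * g c else 0) : ℕ) : ℤ) ≤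
      ((∑ c, (if P c then f c * g c else 0) : ℕ) : ℤ) := by exact_mod_cast m2
    linarith
  have hnonneg : ∀ c ∈ (univ : Finset ι),
      0 ≤ (if P c then ((f c : ℤ) - g c) ^ 2 else 0) := by
    intro c _
    split_ifs
    · positivity
    · exact le_rfl
  have hzero := (Finset.sum_eq_zero_iff_of_nonneg hnonneg).1 (le_antisymm key
    (Finset.sum_nonneg hnonneg))
  intro c hc
  have := hzero c (Finset.mem_univ c)
  rw [if_pos hc] at this
  have h3 : ((f c : ℤ) - g c) = 0 := pow_eq_zero_iff (two_ne_zero) |>.1 this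
  omega

theorem sym_part1 {r k : ℕ} (hk1 : 1 ≤ k) {G G1 G2 H : SimpleGraph (Fin n)} {a b : Fin n}
    {A B : Set (Fin n)} (d : Dec G H a b A B) (d1 : Dec G1 H a b A A) (d2 : Dec G2 H b a B B)
    (m1 : cc r k G1 ≤ cc r k G) (m2 : cc r k G2 ≤ cc r k G) :
    ∀ c, ok0 r k H c → f1 r k H A c = f1 r k H B c := by
  classical
  have e0 := d.cc_eq r k hk1
  have e1 := d1.cc_eq r k hk1
  have e2 := d2.cc_eq r k hk1
  have m1' := m1
  have m2' := m2
  rw [e0, e1] at m1'
  rw [e0, e2] at m2'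
  have hF : ∀ (i1 i2 : Fintype (H.edgeSet → Fin r)) (g : (H.edgeSet → Fin r) → ℕ),
      (@Finset.univ _ i1).sum g = (@Finset.univ _ i2).sum g :=
    fun i1 i2 g => by rw [Subsingleton.elim i1 i2]
  refine cs_eq (ok0 r k H) (f1 r k H A) (f1 r k H B) ?_ ?_
  · exact (hF _ _ _).trans_le (m1'.trans_eq (hF _ _ _))
  · exact (hF _ _ _).trans_le (m2'.trans_eq (hF _ _ _))

theorem sym_part2 {r k : ℕ} (hk1 : 1 ≤ k) {G G1 H : SimpleGraph (Fin n)} {a b : Fin n}
    {A B : Set (Fin n)} (d : Dec G H a b A B) (d1 : Dec G1 H a b A A)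
    (heq : ∀ c, ok0 r k H c → f1 r k H A c = f1 r k H B c) : cc r k G1 = cc r k G := by
  classical
  rw [d.cc_eq r k hk1, d1.cc_eq r k hk1]
  refine Finset.sum_congr rfl fun c _ => ?_
  split_ifs with hc
  · rw [heq c hc]
  · rfl

theorem const_ok {r k : ℕ} (hk : 4 ≤ k) (c0 : Fin r) (H : SimpleGraph (Fin n)) {B : Set (Fin n)}
    (y : B → Fin r) : ok1 r k H B (fun _ => c0) y := by
  intro T hT hTB
  left
  have h3 : 2 < T.card := by
    rw [hT.2]; omega
  obtain ⟨p, q, s, hp, hq, hs, hpq, hps, hqs⟩ := Finset.two_lt_card_iff.1 h3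
  refine ⟨⟨s(p, q), hT.1 hp hq hpq⟩, ⟨s(p, s), hT.1 hp hs hps⟩, ?_, ?_, ?_, rfl⟩
  · intro hh
    have : s(p, q) = s(p, s) := congrArg (fun e : H.edgeSet => (e : Sym2 (Fin n))) hh
    exact hqs (Sym2.congr_right.1 this)
  · intro v hv
    rcases Sym2.mem_iff.1 hv with rfl | rfl <;> assumption
  · intro v hv
    rcases Sym2.mem_iff.1 hv with rfl | rfl <;> assumption

theorem no_clique_b {r k : ℕ} (hr0 : 0 < r) (hr : k.choose 2 ≤ r) {G H : SimpleGraph (Fin n)}
    {a b : Fin n} {A B : Set (Fin n)} (d : Dec G H a b A B)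
    (hallB : ∀ (c : H.edgeSet → Fin r) (y : B → Fin r), ok1 r k H B c y)
    (S : Finset (Fin n)) (hS : G.IsNClique k S) (hbS : b ∈ S) : False := by
  classical
  obtain ⟨hT, hTB⟩ := d.symm.erase_clique hS hbS
  obtain ⟨g, hg⟩ := exists_inj hr0 hr S hS.2
  have hsub : ∀ x ∈ S.erase b, x ∈ S := fun x hx => Finset.mem_of_mem_erase hx
  have hne : ∀ x ∈ S.erase b, b ≠ x := fun x hx => (Finset.ne_of_mem_erase hx).symm
  rcases hallB (fun e => g e.1) (fun t => g s(b, t.1)) (S.erase b) hT hTB with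
    ⟨⟨e, he0⟩, ⟨f, hf0⟩, hef, he, hf, hcc⟩ | ⟨s, t, hst, hs, ht, hcc⟩ |
    ⟨⟨e, he0⟩, t, he, ht, hcc⟩
  · induction e using Sym2.ind with
    | _ x y =>
      induction f using Sym2.ind with
      | _ z w =>
        have h1 : H.Adj x y := he0
        have h2 : H.Adj z w := hf0
        have := hg x y z w (hsub _ (he x (Sym2.mem_mk_left x y)))
          (hsub _ (he y (Sym2.mem_mk_right x y))) (hsub _ (hf z (Sym2.mem_mk_left z w)))
          (hsub _ (hf w (Sym2.mem_mk_right z w))) h1.ne h2.ne hcc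
        exact hef (Subtype.ext this)
  · have := hg b s b t hbS (hsub _ hs) hbS (hsub _ ht) (hne _ hs) (hne _ ht) hcc
    exact hst (Subtype.ext (Sym2.congr_right.1 this))
  · induction e using Sym2.ind with
    | _ x y =>
      have h1 : H.Adj x y := he0
      have := hg x y b t (hsub _ (he x (Sym2.mem_mk_left x y)))
          (hsub _ (he y (Sym2.mem_mk_right x y))) hbS (hsub _ ht) h1.ne (hne _ ht) hcc
      have hb : b ∈ s(x, y) := this ▸ Sym2.mem_mk_left b t.1
      exact d.not_mem_b ⟨s(x, y), he0⟩ hb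

theorem sym_part3 {r k : ℕ} (hk : 4 ≤ k) (hr0 : 0 < r) (hr : k.choose 2 ≤ r)
    {G G1 H : SimpleGraph (Fin n)} {a b : Fin n}
    {A B : Set (Fin n)} (d : Dec G H a b A B) (d1 : Dec G1 H a b A A)
    (heq : ∀ c, ok0 r k H c → f1 r k H A c = f1 r k H B c) (hfree : G1.CliqueFree k) :
    G.CliqueFree k := by
  classical
  have hk1 : 1 ≤ k := by omega
  have hok0 : ∀ c : H.edgeSet → Fin r, ok0 r k H c := by
    intro c S hS
    exact absurd (d1.clique_of hS) (hfree S)
  have hok1 : ∀ (c : H.edgeSet → Fin r) (x : A → Fin r), ok1 r k H A c x := by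
    intro c x T hT hTA
    exact absurd (d1.insert_clique hk1 hT hTA) (hfree _)
  have hfA : ∀ c, f1 r k H A c = r ^ Nat.card A := fun c => f1_eq_of_all r k c (hok1 c)
  have hAB : r ^ Nat.card A = r ^ Nat.card B := by
    rw [← hfA (fun _ => ⟨0, hr0⟩), heq _ (hok0 _)]
    exact f1_eq_of_all r k _ (const_ok hk _ H)
  have hallB : ∀ (c : H.edgeSet → Fin r) (y : B → Fin r), ok1 r k H B c y := by
    intro c
    apply all_of_f1_eq
    rw [← heq c (hok0 c), hfA c, hAB]
  intro S hS
  by_cases haS : a ∈ S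
  · obtain ⟨hT, hTA⟩ := d.erase_clique hS haS
    exact hfree _ (d1.insert_clique hk1 hT hTA)
  by_cases hbS : b ∈ S
  · exact no_clique_b hr0 hr d hallB S hS hbS
  · exact hfree S (d1.clique_of (d.avoid_clique hS haS hbS))

open Classical in
/-- Symmetrisation for the rainbow Erdős–Rothschild problem: in an extremal graph a vertex `b` may
be replaced by a copy of a non-adjacent vertex `a`. -/
theorem sym_main {n : ℕ} (r k : ℕ) (hk : 4 ≤ k) (hr : k.choose 2 ≤ r) (G : SimpleGraph (Fin n))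
    (a b : Fin n) (hab : a ≠ b) (hnadj : ¬ G.Adj a b)
    (hmax : ∀ H : SimpleGraph (Fin n), cc r k H ≤ cc r k G) :
    cc r k (G.replaceVertex a b) = cc r k G ∧
      ((G.replaceVertex a b).CliqueFree k → G.CliqueFree k) := by
  have hk1 : 1 ≤ k := by omega
  have hr6 : 6 ≤ r := by
    refine le_trans ?_ hr
    calc 6 = Nat.choose 4 2 := by decide
      _ ≤ k.choose 2 := Nat.choose_le_choose 2 hk
  have hr0 : 0 < r := by omega
  have d := dec_self G hab hnadj
  have d1 := dec_replace G hab hnadj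
  have d2 := dec_replace G hab.symm (fun h => hnadj h.symm)
  rw [core_comm] at d2
  have heq := sym_part1 hk1 d d1 d2 (hmax _) (hmax _)
  exact ⟨sym_part2 hk1 d d1 heq, sym_part3 hk hr0 hr d d1 heq⟩

open Classical in
/-- ordered pairs of vertices with the same neighbours -/
noncomputable def tw (G : SimpleGraph (Fin n)) : Finset (Fin n × Fin n) :=
  univ.filter (fun p => ∀ z, G.Adj p.1 z ↔ G.Adj p.2 z)

open Classical in
/-- the class of a vertex -/
noncomputable def cl (G : SimpleGraph (Fin n)) (v : Fin n) : Finset (Fin n) :=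
  univ.filter (fun w => ∀ z, G.Adj v z ↔ G.Adj w z)

theorem mem_tw {G : SimpleGraph (Fin n)} {p : Fin n × Fin n} :
    p ∈ tw G ↔ ∀ z, G.Adj p.1 z ↔ G.Adj p.2 z := by
  classical
  simp [tw]

theorem mem_cl {G : SimpleGraph (Fin n)} {v w : Fin n} :
    w ∈ cl G v ↔ ∀ z, G.Adj v z ↔ G.Adj w z := by
  classical
  simp [cl]

theorem tw_lt (G : SimpleGraph (Fin n)) {a b : Fin n} (hn : ¬ G.Adj a b)
    (hne : ¬ ∀ z, G.Adj a z ↔ G.Adj b z) (hcl : (cl G b).card ≤ (cl G a).card) :
    (tw G).card < (tw (G.replaceVertex a b)).card := by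
  classical
  have hba : b ∉ cl G a := fun h => hne (mem_cl.1 h)
  set Q := (tw G).filter (fun p => p.1 ≠ b ∧ p.2 ≠ b) with hQ
  have hup : (tw G).card ≤ Q.card + 2 * (cl G b).card := by
    have hsub : tw G ⊆ Q ∪ ((cl G b).image (fun v => (b, v)) ∪ (cl G b).image (fun v => (v, b))) := by
      rintro ⟨x, y⟩ hp
      have hp' := mem_tw.1 hp
      by_cases hx : x = b
      · subst hx
        exact Finset.mem_union_right _ (Finset.mem_union_left _
          (Finset.mem_image.2 ⟨y, mem_cl.2 hp', rfl⟩))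
      by_cases hy : y = b
      · subst hy
        exact Finset.mem_union_right _ (Finset.mem_union_right _
          (Finset.mem_image.2 ⟨x, mem_cl.2 (fun z => (hp' z).symm), rfl⟩))
      exact Finset.mem_union_left _ (Finset.mem_filter.2 ⟨hp, hx, hy⟩)
    refine (Finset.card_le_card hsub).trans ((Finset.card_union_le _ _).trans ?_)
    have h1 := Finset.card_union_le ((cl G b).image (fun v => (b, v)))
      ((cl G b).image (fun v => (v, b)))
    have h2 : ((cl G b).image (fun v => (b, v))).card ≤ (cl G b).card := Finset.card_image_le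
    have h3 : ((cl G b).image (fun v => (v, b))).card ≤ (cl G b).card := Finset.card_image_le
    omega
  have hlow : Q.card + 2 * (cl G a).card + 1 ≤ (tw (G.replaceVertex a b)).card := by
    have hsub : insert (b, b) (Q ∪ ((cl G a).image (fun v => (b, v)) ∪
        (cl G a).image (fun v => (v, b)))) ⊆ tw (G.replaceVertex a b) := by
      have hcl' : ∀ v ∈ cl G a, ∀ z,
          (G.replaceVertex a b).Adj b z ↔ (G.replaceVertex a b).Adj v z := by
        intro v hv z
        have hv' := mem_cl.1 hv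
        have hvb : v ≠ b := by rintro rfl; exact hba hv
        by_cases hz : z = b
        · subst hz
          simp only [SimpleGraph.replaceVertex, if_true, if_neg hvb]
          rw [G.adj_comm v a, hv' v]
          exact ⟨False.elim, fun h => G.irrefl h⟩
        · simp only [SimpleGraph.replaceVertex, if_true, if_neg hvb, if_neg hz]
          exact hv' z
      intro p hp
      rw [Finset.mem_insert, Finset.mem_union, Finset.mem_union] at hp
      rcases hp with rfl | hp | hp | hp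
      · exact mem_tw.2 (fun z => Iff.rfl)
      · obtain ⟨hp1, hp2, hp3⟩ := Finset.mem_filter.1 hp
        have hp' := mem_tw.1 hp1
        rw [mem_tw]
        intro z
        by_cases hz : z = b
        · subst hz
          simp only [SimpleGraph.replaceVertex, if_true, if_neg hp2, if_neg hp3]
          exact hp' a
        · simp only [SimpleGraph.replaceVertex, if_neg hp2, if_neg hp3, if_neg hz]
          exact hp' z
      · obtain ⟨v, hv, rfl⟩ := Finset.mem_image.1 hp
        exact mem_tw.2 (hcl' v hv)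
      · obtain ⟨v, hv, rfl⟩ := Finset.mem_image.1 hp
        exact mem_tw.2 (fun z => (hcl' v hv z).symm)
    refine le_trans (le_of_eq ?_) (Finset.card_le_card hsub)
    rw [Finset.card_insert_of_notMem, Finset.card_union_of_disjoint,
      Finset.card_union_of_disjoint, Finset.card_image_of_injective, Finset.card_image_of_injective]
    · ring
    · intro x y h; exact (Prod.mk.inj h).1
    · intro x y h; exact (Prod.mk.inj h).2
    · rw [Finset.disjoint_left]
      intro p hp1 hp2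
      obtain ⟨v, hv, rfl⟩ := Finset.mem_image.1 hp1
      obtain ⟨w, hw, hh⟩ := Finset.mem_image.1 hp2
      have := (Prod.mk.inj hh).1
      exact hba (this ▸ hw)
    · rw [Finset.disjoint_left]
      intro p hp1 hp2
      obtain ⟨_, hq1, hq2⟩ := Finset.mem_filter.1 hp1
      rcases Finset.mem_union.1 hp2 with hp2 | hp2
      · obtain ⟨v, hv, rfl⟩ := Finset.mem_image.1 hp2
        exact hq1 rfl
      · obtain ⟨v, hv, rfl⟩ := Finset.mem_image.1 hp2
        exact hq2 rfl
    · intro hp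
      rcases Finset.mem_union.1 hp with hp | hp
      · exact (Finset.mem_filter.1 hp).2.1 rfl
      · rcases Finset.mem_union.1 hp with hp | hp
        · obtain ⟨v, hv, hh⟩ := Finset.mem_image.1 hp
          exact hba ((Prod.mk.inj hh).2 ▸ hv)
        · obtain ⟨v, hv, hh⟩ := Finset.mem_image.1 hp
          exact hba ((Prod.mk.inj hh).1 ▸ hv)
  omega

open Classical in
/-- Zykov type argument: it is enough to treat complete multipartite extremal graphs. -/
theorem zykov {n : ℕ} (r k : ℕ) (hk : 4 ≤ k) (hr : k.choose 2 ≤ r)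
    (hcm : ∀ G : SimpleGraph (Fin n), (∀ H : SimpleGraph (Fin n), cc r k H ≤ cc r k G) →
      (∀ x y z, ¬ G.Adj x y → ¬ G.Adj y z → ¬ G.Adj x z) → G.CliqueFree k) :
    ∀ G : SimpleGraph (Fin n), (∀ H : SimpleGraph (Fin n), cc r k H ≤ cc r k G) →
      G.CliqueFree k := by
  by_contra hcon
  push Not at hcon
  set s : Finset (SimpleGraph (Fin n)) := univ.filter (fun G =>
    (∀ H : SimpleGraph (Fin n), cc r k H ≤ cc r k G) ∧ ¬ G.CliqueFree k) with hs
  have hne : s.Nonempty := by
    obtain ⟨G, h1, h2⟩ := hcon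
    exact ⟨G, Finset.mem_filter.2 ⟨Finset.mem_univ _, h1, h2⟩⟩
  obtain ⟨G, hG, hmaxG⟩ := Finset.exists_max_image s (fun G => (tw G).card) hne
  obtain ⟨-, hext, hncf⟩ := Finset.mem_filter.1 hG
  -- a single symmetrisation step
  have step : ∀ a b : Fin n, ¬ G.Adj a b → (¬ ∀ z, G.Adj a z ↔ G.Adj b z) →
      (cl G b).card ≤ (cl G a).card → False := by
    intro a b hn hne' hcl
    have hab : a ≠ b := by
      rintro rfl
      exact hne' (fun z => Iff.rfl)
    obtain ⟨h1, h2⟩ := sym_main r k hk hr G a b hab hn hext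
    have hlt := tw_lt G hn hne' hcl
    by_cases hcf : (G.replaceVertex a b).CliqueFree k
    · exact hncf (h2 hcf)
    · have hmem : G.replaceVertex a b ∈ s := by
        refine Finset.mem_filter.2 ⟨Finset.mem_univ _, fun H => ?_, hcf⟩
        rw [h1]
        exact hext H
      exact absurd (hmaxG _ hmem) (not_le.2 hlt)
  have hnt : ¬ (∀ x y z, ¬ G.Adj x y → ¬ G.Adj y z → ¬ G.Adj x z) := fun h => hncf (hcm G hext h)
  push Not at hnt
  obtain ⟨x, y, z, hxy, hyz, hxz⟩ := hnt
  have hne1 : ¬ ∀ w, G.Adj x w ↔ G.Adj y w := fun h => hyz ((h z).1 hxz)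
  rcases le_total (cl G y).card (cl G x).card with hle | hle
  · exact step x y hxy hne1 hle
  · exact step y x (fun h => hxy h.symm) (fun h => hne1 (fun w => (h w).symm)) hle

end Main

end Pool.Agent.TH477.RB.Sym
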