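import Pool.Agent.TH477.RB.Defs

/-!
Palette systems: every pair of vertices has a set of available colours.
-/

set_option autoImplicit false

namespace Pool.Agent.TH477.RB

open Finset

/-- logarithm of the number of available colours -/
noncomputable def wt {V : Type} {r : ℕ} (P : V → V → Finset (Fin r)) (x y : V) : ℝ :=
  Real.log ((P x y).card : ℝ)

/-- the tuple `x` can be coloured with pairwise different colours from the palettes -/
def Rainbowable {V : Type} {r : ℕ} (k : ℕ) (P : V → V → Finset (Fin r)) (x : Fin k → V) : Prop :=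
  ∃ c : Fin k → Fin k → Fin r, (∀ i j, i < j → c i j ∈ P (x i) (x j)) ∧
    ∀ i j i' j', i < j → i' < j' → c i j = c i' j' → i = i' ∧ j = j'

theorem wt_nonneg {V : Type} {r : ℕ} (P : V → V → Finset (Fin r)) (x y : V) : 0 ≤ wt P x y :=
  Real.log_natCast_nonneg _

theorem wt_le {V : Type} {r : ℕ} (P : V → V → Finset (Fin r)) (x y : V) :
    wt P x y ≤ Real.log r := by
  unfold wt
  rcases Nat.eq_zero_or_pos (P x y).card with h | h
  · rw [h]
    simpa using Real.log_natCast_nonneg r
  · apply Real.log_le_log (by exact_mod_cast h)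
    have := Finset.card_le_univ (P x y)
    rw [Fintype.card_fin] at this
    exact_mod_cast this

/-- Hall's condition -/
theorem exists_hall_violator {V : Type} {r k : ℕ} (hk : 2 ≤ k) (P : V → V → Finset (Fin r)) (x : Fin k → V)
    (h : ¬ Rainbowable k P x) :
    ∃ S : Finset (Fin k × Fin k), (∀ p ∈ S, p.1 < p.2) ∧
      (S.biUnion (fun p => P (x p.1) (x p.2))).card < S.card := by
  classical
  by_contra hcon
  push Not at hcon
  apply h
  let t : {p : Fin k × Fin k // p.1 < p.2} → Finset (Fin r) := fun p => P (x p.1.1) (x p.1.2)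
  have hall : ∀ s : Finset {p : Fin k × Fin k // p.1 < p.2}, s.card ≤ (s.biUnion t).card := by
    intro s
    have h1 := hcon (s.map (Function.Embedding.subtype _)) (by
      intro p hp
      rw [Finset.mem_map] at hp
      obtain ⟨a, _, rfl⟩ := hp
      exact a.2)
    rw [Finset.card_map] at h1
    refine h1.trans (le_of_eq ?_)
    congr 1
    ext c
    simp only [Finset.mem_biUnion, Finset.mem_map, Function.Embedding.subtype_apply, t]
    constructor
    · rintro ⟨p, ⟨a, ha, rfl⟩, hc⟩
      exact ⟨a, ha, hc⟩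
    · rintro ⟨a, ha, hc⟩
      exact ⟨a.1, ⟨a, ha, rfl⟩, hc⟩
  obtain ⟨f, hf, hft⟩ := (Finset.all_card_le_biUnion_card_iff_exists_injective t).mp hall
  have p0 : {p : Fin k × Fin k // p.1 < p.2} :=
    ⟨(⟨0, by omega⟩, ⟨1, by omega⟩), by simp [Fin.lt_def]⟩
  refine ⟨fun i j => if hij : i < j then f ⟨(i, j), hij⟩ else f p0, ?_, ?_⟩
  · intro i j hij
    simp only [hij, dif_pos]
    exact hft ⟨(i, j), hij⟩
  · intro i j i' j' hij hij' heq
    simp only [hij, hij', dif_pos] at heq
    have := hf heq
    simp only [Subtype.mk.injEq, Prod.mk.injEq] at this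
    exact this

/-- The arithmetic condition on `k` and `r` used in the greedy argument. -/
def ArithOK (k r : ℕ) : Prop :=
  ∀ q : ℕ, 2 ≤ q → q ≤ k.choose 2 - 1 → ∀ m : ℕ → ℕ,
    (∀ j, 1 ≤ j → j ≤ k - 1 → r ^ ((k - 1) * m j) ≤ r ^ j * q ^ ((k - 1) * m j)) →
    ∑ j ∈ Finset.Icc 1 (k - 1), m j ≤ q

theorem card_pairs (k : ℕ) :
    (univ.filter (fun p : Fin k × Fin k => p.1 < p.2)).card = k.choose 2 := by
  classical
  have h1 : (univ.filter (fun p : Fin k × Fin k => p.1 < p.2)).card
      = ∑ j : Fin k, (univ.filter (fun i : Fin k => i < j)).card := by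
    rw [Finset.card_filter, Fintype.sum_prod_type_right]
    refine Finset.sum_congr rfl fun j _ => ?_
    rw [Finset.card_filter]
  rw [h1]
  have h2 : ∀ j : Fin k, (univ.filter (fun i : Fin k => i < j)).card = j.val := by
    intro j
    have : univ.filter (fun i : Fin k => i < j) = Finset.Iio j := by
      ext i; simp
    rw [this, Fin.card_Iio]
  rw [Finset.sum_congr rfl (fun j _ => h2 j), Fin.sum_univ_eq_sum_range (fun i => i) k,
    Finset.sum_range_id, Nat.choose_two_right]

/-- loss of a pair -/
noncomputable def loss {V : Type} {r : ℕ} (P : V → V → Finset (Fin r)) (x y : V) : ℝ :=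
  Real.log r - wt P x y

theorem loss_nonneg {V : Type} {r : ℕ} (P : V → V → Finset (Fin r)) (x y : V) :
    0 ≤ loss P x y := sub_nonneg.mpr (wt_le P x y)

theorem loss_le {V : Type} {r : ℕ} (P : V → V → Finset (Fin r)) (x y : V) :
    loss P x y ≤ Real.log r := by
  have := wt_nonneg P x y
  unfold loss
  linarith

/-- The greedy argument: if the losses towards the previous vertices are small and all palettes have
at least two colours, then the tuple is rainbowable. -/
theorem greedy_rainbow {V : Type} {k r : ℕ} (hk : 2 ≤ k) (hr : 2 ≤ r) (hA : ArithOK k r)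
    (P : V → V → Finset (Fin r)) (x : Fin k → V)
    (hpos : ∀ i j, i < j → 2 ≤ (P (x i) (x j)).card)
    (hloss : ∀ j : Fin k, ∑ i ∈ univ.filter (fun i => i < j), loss P (x i) (x j)
      ≤ (j.val : ℝ) / ((k - 1 : ℕ) : ℝ) * Real.log r) :
    Rainbowable k P x := by
  classical
  by_contra hcon
  obtain ⟨S, hS, hcard⟩ := exists_hall_violator hk P x hcon
  have hSne : S.Nonempty := by
    rw [← Finset.card_pos]; omega
  obtain ⟨p0, hp0⟩ := hSne
  set q := S.card - 1 with hq
  have hU2 : 2 ≤ (S.biUnion (fun p => P (x p.1) (x p.2))).card :=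
    (hpos _ _ (hS p0 hp0)).trans
      (Finset.card_le_card (Finset.subset_biUnion_of_mem (fun p => P (x p.1) (x p.2)) hp0))
  have hScard : S.card = q + 1 := by omega
  have hq2 : 2 ≤ q := by omega
  have hUq : (S.biUnion (fun p => P (x p.1) (x p.2))).card ≤ q := by omega
  have hSpairs : S ⊆ univ.filter (fun p : Fin k × Fin k => p.1 < p.2) := by
    intro p hp
    simp [hS p hp]
  have hqQ : q ≤ k.choose 2 - 1 := by
    have := Finset.card_le_card hSpairs
    rw [card_pairs] at this
    omega
  have hLpos : 0 < Real.log r := Real.log_pos (by exact_mod_cast (by omega : 1 < r))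
  have hu : 0 < ((k - 1 : ℕ) : ℝ) := by exact_mod_cast (by omega : 0 < k - 1)
  have hqr : (0 : ℝ) < q := by exact_mod_cast (by omega : 0 < q)
  -- the loss of a pair in `S`
  have hlossS : ∀ p ∈ S, Real.log r - Real.log q ≤ loss P (x p.1) (x p.2) := by
    intro p hp
    unfold loss wt
    have h1 : ((P (x p.1) (x p.2)).card : ℝ) ≤ q := by
      exact_mod_cast (Finset.card_le_card
        (Finset.subset_biUnion_of_mem (fun p => P (x p.1) (x p.2)) hp)).trans hUq
    have h2 : (0 : ℝ) < ((P (x p.1) (x p.2)).card : ℝ) := by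
      have := hpos _ _ (hS p hp)
      exact_mod_cast (by omega : 0 < (P (x p.1) (x p.2)).card)
    have := Real.log_le_log h2 h1
    linarith
  let m : ℕ → ℕ := fun j => (S.filter (fun p => p.2.val = j)).card
  have hm : ∀ j, 1 ≤ j → j ≤ k - 1 → r ^ ((k - 1) * m j) ≤ r ^ j * q ^ ((k - 1) * m j) := by
    intro j hj1 hjk
    have hjk' : j < k := by omega
    have h1 := hloss ⟨j, hjk'⟩
    have h2 : (m j : ℝ) * (Real.log r - Real.log q) ≤
        ∑ i ∈ univ.filter (fun i => i < (⟨j, hjk'⟩ : Fin k)), loss P (x i) (x ⟨j, hjk'⟩) := by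
      have h3 : ∑ p ∈ S.filter (fun p => p.2.val = j), (Real.log r - Real.log q)
          ≤ ∑ p ∈ S.filter (fun p => p.2.val = j), loss P (x p.1) (x p.2) :=
        Finset.sum_le_sum fun p hp => hlossS p (Finset.mem_filter.mp hp).1
      rw [Finset.sum_const, nsmul_eq_mul] at h3
      refine h3.trans ?_
      have h4 : ∑ p ∈ S.filter (fun p => p.2.val = j), loss P (x p.1) (x p.2)
          = ∑ i ∈ (S.filter (fun p => p.2.val = j)).image Prod.fst, loss P (x i) (x ⟨j, hjk'⟩) := by
        rw [Finset.sum_image]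
        · refine Finset.sum_congr rfl fun p hp => ?_
          have : p.2 = ⟨j, hjk'⟩ := Fin.ext (Finset.mem_filter.mp hp).2
          rw [this]
        · intro p hp p' hp' heq
          have h5 : p.2 = p'.2 := Fin.ext
            ((Finset.mem_filter.mp hp).2.trans (Finset.mem_filter.mp hp').2.symm)
          exact Prod.ext heq h5
      rw [h4]
      apply Finset.sum_le_sum_of_subset_of_nonneg
      · intro i hi
        rw [Finset.mem_image] at hi
        obtain ⟨p, hp, rfl⟩ := hi
        rw [Finset.mem_filter] at hp ⊢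
        refine ⟨Finset.mem_univ _, ?_⟩
        have := hS p hp.1
        rw [Fin.lt_def] at this ⊢
        rw [hp.2] at this
        exact this
      · intro i _ _
        exact loss_nonneg _ _ _
    have h3 : (m j : ℝ) * (Real.log r - Real.log q) ≤
        (j : ℝ) / ((k - 1 : ℕ) : ℝ) * Real.log r := h2.trans h1
    have h4 : ((k - 1 : ℕ) : ℝ) * m j * Real.log r
        ≤ j * Real.log r + ((k - 1 : ℕ) : ℝ) * m j * Real.log q := by
      have := mul_le_mul_of_nonneg_left h3 hu.le
      have h5 : ((k - 1 : ℕ) : ℝ) * ((j : ℝ) / ((k - 1 : ℕ) : ℝ) * Real.log r) = j * Real.log r := by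
        field_simp
      rw [h5] at this
      linarith
    have hr0 : (0 : ℝ) < r := by exact_mod_cast (by omega : 0 < r)
    have h6 : Real.log ((r : ℝ) ^ ((k - 1) * m j))
        ≤ Real.log ((r : ℝ) ^ j * (q : ℝ) ^ ((k - 1) * m j)) := by
      rw [Real.log_mul (by positivity) (by positivity), Real.log_pow, Real.log_pow, Real.log_pow]
      push_cast
      push_cast at h4
      linarith
    have h7 := (Real.log_le_log_iff (by positivity) (by positivity)).mp h6
    exact_mod_cast h7
  have hsum := hA q hq2 hqQ m hm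
  have hS' : ∑ j ∈ Finset.Icc 1 (k - 1), m j = S.card := by
    rw [Finset.card_eq_sum_card_fiberwise (f := fun p : Fin k × Fin k => p.2.val)
      (t := Finset.Icc 1 (k - 1))]
    intro p hp
    have := hS p hp
    rw [Fin.lt_def] at this
    have h2 := p.2.isLt
    simp only [Finset.coe_Icc, Set.mem_Icc]
    omega
  omega

end Pool.Agent.TH477.RB
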