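import Mathlib

/-!
Counting tuples built greedily, and some elementary lemmas.
-/

set_option autoImplicit false

namespace Pool.Agent.TH477.RB

open Finset

section upd
variable {V : Type} [DecidableEq V] {J : ℕ}

/-- tuples with values in `W` -/
def tup (J : ℕ) (W : Finset V) : Finset (Fin J → V) := Fintype.piFinset (fun _ => W)

theorem mem_tup {W : Finset V} {x : Fin J → V} : x ∈ tup J W ↔ ∀ i, x i ∈ W := by
  simp [tup]

theorem card_tup (W : Finset V) : (tup J W).card = W.card ^ J := by
  simp [tup]

theorem update_mem_tup {W : Finset V} {x : Fin J → V} (hx : x ∈ tup J W) (t : Fin J) {y : V}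
    (hy : y ∈ W) : Function.update x t y ∈ tup J W := by
  rw [mem_tup] at hx ⊢
  intro i
  by_cases h : i = t
  · subst h; simpa using hy
  · rw [Function.update_of_ne h]; exact hx i

/-- averaging over one coordinate -/
theorem sum_update (W : Finset V) (t : Fin J) (F : (Fin J → V) → ℝ) :
    ∑ x ∈ tup J W, ∑ y ∈ W, F (Function.update x t y) = (W.card : ℝ) * ∑ x ∈ tup J W, F x := by
  have h1 : ∑ p ∈ tup J W ×ˢ W, F (Function.update p.1 t p.2) = ∑ p ∈ tup J W ×ˢ W, F p.1 := by
    refine Finset.sum_bij' (fun p _ => (Function.update p.1 t p.2, p.1 t))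
      (fun p _ => (Function.update p.1 t p.2, p.1 t)) ?_ ?_ ?_ ?_ ?_
    · intro p hp
      rw [Finset.mem_product] at hp ⊢
      exact ⟨update_mem_tup hp.1 t hp.2, (mem_tup.mp hp.1) t⟩
    · intro p hp
      rw [Finset.mem_product] at hp ⊢
      exact ⟨update_mem_tup hp.1 t hp.2, (mem_tup.mp hp.1) t⟩
    · intro p _
      ext <;> simp
    · intro p _
      ext <;> simp
    · intro p _
      rfl
  rw [Finset.sum_product, Finset.sum_product] at h1
  have h2 : ∀ x ∈ tup J W, ∑ y ∈ W, F x = (W.card : ℝ) * F x := by
    intro x _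
    rw [Finset.sum_const, nsmul_eq_mul]
  rw [Finset.mul_sum, ← Finset.sum_congr rfl h2]
  exact h1

open Classical in
/-- Greedy counting of tuples. `C` is a condition on the first `t0` coordinates and `R j x y`
says that `y` may be used as coordinate `j` after the coordinates of `x` before `j`. -/
theorem tree_count (W : Finset V) (t0 : ℕ) (C : (Fin J → V) → Prop)
    (R : Fin J → (Fin J → V) → V → Prop) (δ : ℝ) (hδ : 0 ≤ δ)
    (hC : ∀ x (t : Fin J) y, t0 ≤ t.val → (C (Function.update x t y) ↔ C x))
    (hR : ∀ (j : Fin J) x (t : Fin J) y z, j ≤ t → (R j (Function.update x t y) z ↔ R j x z))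
    (t1 : ℕ) (ht01 : t0 ≤ t1) (ht1 : t1 ≤ J)
    (hext : ∀ x ∈ tup J W, C x → ∀ t : Fin J, t0 ≤ t.val → t.val < t1 →
      (∀ j : Fin J, t0 ≤ j.val → j < t → R j x (x j)) →
      δ * (W.card : ℝ) ≤ ((W.filter (fun y => R t x y)).card : ℝ)) :
    δ ^ (t1 - t0) * (((tup J W).filter C).card : ℝ) ≤
      (((tup J W).filter (fun x => C x ∧ ∀ j : Fin J, t0 ≤ j.val → j.val < t1 →
        R j x (x j))).card : ℝ) := by
  induction t1, ht01 using Nat.le_induction with
  | base =>
    simp only [Nat.sub_self, pow_zero, one_mul]
    have : (tup J W).filter (fun x => C x ∧ ∀ j : Fin J, t0 ≤ j.val → j.val < t0 →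
        R j x (x j)) = (tup J W).filter C := by
      apply Finset.filter_congr
      intro x _
      constructor
      · exact fun h => h.1
      · exact fun h => ⟨h, fun j h1 h2 => absurd h1 (by omega)⟩
    rw [this]
  | succ t ht ih =>
    have ih' := ih (by omega) (fun x hx hCx s hs1 hs2 => hext x hx hCx s hs1 (by omega))
    have htJ : t < J := by omega
    let tt : Fin J := ⟨t, htJ⟩
    let D : (Fin J → V) → Prop := fun x => C x ∧ ∀ j : Fin J, t0 ≤ j.val → j.val < t → R j x (x j)
    have hD : ∀ x y, D (Function.update x tt y) ↔ D x := by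
      intro x y
      simp only [D]
      rw [hC x tt y ht]
      have hj : ∀ j : Fin J, j.val < t →
          (R j (Function.update x tt y) (Function.update x tt y j) ↔ R j x (x j)) := by
        intro j hj
        have hne : j ≠ tt := by
          intro h; rw [h] at hj; simp [tt] at hj
        rw [Function.update_of_ne hne]
        apply hR
        rw [Fin.le_def]
        simp only [tt]
        omega
      constructor
      · rintro ⟨h1, h2⟩
        exact ⟨h1, fun j hj1 hj2 => (hj j hj2).mp (h2 j hj1 hj2)⟩
      · rintro ⟨h1, h2⟩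
        exact ⟨h1, fun j hj1 hj2 => (hj j hj2).mpr (h2 j hj1 hj2)⟩
    -- rewrite the two counts as sums
    have e1 : (((tup J W).filter (fun x => C x ∧ ∀ j : Fin J, t0 ≤ j.val → j.val < t + 1 →
        R j x (x j))).card : ℝ) = ∑ x ∈ tup J W, if D x ∧ R tt x (x tt) then (1 : ℝ) else 0 := by
      rw [Finset.card_filter]
      push_cast
      refine Finset.sum_congr rfl fun x _ => ?_
      have : (C x ∧ ∀ j : Fin J, t0 ≤ j.val → j.val < t + 1 → R j x (x j)) ↔
          (D x ∧ R tt x (x tt)) := by
        simp only [D]
        constructor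
        · rintro ⟨h1, h2⟩
          exact ⟨⟨h1, fun j a b => h2 j a (by omega)⟩, h2 tt ht (by simp [tt])⟩
        · rintro ⟨⟨h1, h2⟩, h3⟩
          refine ⟨h1, fun j a b => ?_⟩
          rcases Nat.lt_succ_iff_lt_or_eq.mp b with hb | hb
          · exact h2 j a hb
          · have : j = tt := Fin.ext hb
            rw [this]; exact h3
      by_cases hh : (D x ∧ R tt x (x tt))
      · rw [if_pos (this.mpr hh), if_pos hh]
      · rw [if_neg (fun h => hh (this.mp h)), if_neg hh]
    have e2 : (((tup J W).filter D).card : ℝ) = ∑ x ∈ tup J W, if D x then (1 : ℝ) else 0 := by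
      rw [Finset.card_filter]
      push_cast
      rfl
    have hsum := sum_update W tt (fun x => if D x ∧ R tt x (x tt) then (1 : ℝ) else 0)
    have hRself : ∀ x y, (R tt (Function.update x tt y) (Function.update x tt y tt) ↔ R tt x y) := by
      intro x y
      rw [Function.update_self]
      exact hR tt x tt y y le_rfl
    have hlow : δ * (W.card : ℝ) * (((tup J W).filter D).card : ℝ) ≤
        ∑ x ∈ tup J W, ∑ y ∈ W, (if D (Function.update x tt y) ∧
          R tt (Function.update x tt y) (Function.update x tt y tt) then (1 : ℝ) else 0) := by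
      rw [e2, Finset.mul_sum]
      refine Finset.sum_le_sum fun x hx => ?_
      by_cases hDx : D x
      · rw [if_pos hDx, mul_one]
        have h3 := hext x hx hDx.1 tt ht (by simp [tt])
          (fun j a b => hDx.2 j a (by rw [Fin.lt_def] at b; exact b))
        refine h3.trans (le_of_eq ?_)
        rw [Finset.card_filter]
        push_cast
        refine Finset.sum_congr rfl fun y _ => ?_
        by_cases hy : R tt x y
        · rw [if_pos hy, if_pos ⟨(hD x y).mpr hDx, (hRself x y).mpr hy⟩]
        · rw [if_neg hy, if_neg (fun h => hy ((hRself x y).mp h.2))]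
      · rw [if_neg hDx, mul_zero]
        exact Finset.sum_nonneg fun y _ => by split_ifs <;> norm_num
    rw [hsum] at hlow
    rw [e1]
    rcases Nat.eq_zero_or_pos W.card with hW | hW
    · -- no tuples at all
      have hWe : W = ∅ := Finset.card_eq_zero.mp hW
      have hte : tup J W = ∅ := by
        rw [Finset.eq_empty_iff_forall_notMem]
        intro x hx
        have := (mem_tup.mp hx) tt
        rw [hWe] at this
        simp at this
      rw [hte]; simp
    · have hWr : (0 : ℝ) < W.card := by exact_mod_cast hW
      have h4 : δ * (((tup J W).filter D).card : ℝ) ≤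
          ∑ x ∈ tup J W, if D x ∧ R tt x (x tt) then (1 : ℝ) else 0 := by
        have : (W.card : ℝ) * (δ * (((tup J W).filter D).card : ℝ)) ≤
            (W.card : ℝ) * ∑ x ∈ tup J W, if D x ∧ R tt x (x tt) then (1 : ℝ) else 0 := by
          calc (W.card : ℝ) * (δ * (((tup J W).filter D).card : ℝ))
              = δ * (W.card : ℝ) * (((tup J W).filter D).card : ℝ) := by ring
            _ ≤ _ := hlow
        exact le_of_mul_le_mul_left this hWr
      have h5 : t + 1 - t0 = (t - t0) + 1 := by omega
      rw [h5, pow_succ]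
      calc δ ^ (t - t0) * δ * (((tup J W).filter C).card : ℝ)
          = δ * (δ ^ (t - t0) * (((tup J W).filter C).card : ℝ)) := by ring
        _ ≤ δ * (((tup J W).filter D).card : ℝ) := by
          exact mul_le_mul_of_nonneg_left ih' hδ
        _ ≤ _ := h4

end upd

end Pool.Agent.TH477.RB
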