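import Pool.Agent.TH477.RB.Palette
import Pool.Agent.TH477.RB.Tree
import Pool.Agent.TH596.J1
import Pool.Agent.TH596.J2

/-!
Palettes coming from a colouring via weak regularity.
-/

set_option autoImplicit false

namespace Pool.Agent.TH477.RB

open Finset

section kern

variable {V : Type} [Fintype V] {r M : ℕ}

open Classical in
/-- indicator of the pairs of colour `a` -/
noncomputable def kern (G : SimpleGraph V) (c : G.edgeSet → Fin r) (a : Fin r) (x y : V) : ℝ :=
  if h : G.Adj x y then (if c ⟨s(x, y), G.mem_edgeSet.mpr h⟩ = a then 1 else 0) else 0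

omit [Fintype V] in
theorem kern_bounds (G : SimpleGraph V) (c : G.edgeSet → Fin r) (a : Fin r) (x y : V) :
    0 ≤ kern G c a x y ∧ kern G c a x y ≤ 1 := by
  unfold kern
  split_ifs <;> norm_num

omit [Fintype V] in
theorem kern_symm (G : SimpleGraph V) (c : G.edgeSet → Fin r) (a : Fin r) (x y : V) :
    kern G c a x y = kern G c a y x := by
  unfold kern
  by_cases h : G.Adj x y
  · have h' := h.symm
    rw [dif_pos h, dif_pos h']
    have : (⟨s(x, y), G.mem_edgeSet.mpr h⟩ : G.edgeSet) = ⟨s(y, x), G.mem_edgeSet.mpr h'⟩ :=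
      Subtype.ext Sym2.eq_swap
    rw [this]
  · have h' : ¬ G.Adj y x := fun h2 => h h2.symm
    rw [dif_neg h, dif_neg h']

theorem cellAvg_symm (κ : V → Fin M) (A : V → V → ℝ) (hA : ∀ x y, A x y = A y x) (x y : V) :
    cellAvg κ A x y = cellAvg κ A y x := by
  unfold cellAvg
  rw [Finset.sum_comm]
  congr 1
  · refine Finset.sum_congr rfl fun a _ => Finset.sum_congr rfl fun b _ => hA _ _
  · rw [mul_comm]

theorem cellAvg_bounds (κ : V → Fin M) (A : V → V → ℝ) (hA : ∀ x y, 0 ≤ A x y ∧ A x y ≤ 1)
    (x y : V) : 0 ≤ cellAvg κ A x y ∧ cellAvg κ A x y ≤ 1 := by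
  rw [Pool.Agent.TH596.J1.cellAvg_eq κ (fun x => (κ x).val) (fun x => rfl)]
  exact Pool.Agent.TH596.J1.E_bounds _ _ (fun p => hA p.1 p.2) _

theorem cellAvg_congr (κ : V → Fin M) (A : V → V → ℝ) {x y x' y' : V} (hx : κ x = κ x')
    (hy : κ y = κ y') : cellAvg κ A x y = cellAvg κ A x' y' := by
  unfold cellAvg
  rw [hx, hy]

theorem cellAvg_sum_mul (κ : V → Fin M) (A h : V → V → ℝ)
    (hh : ∀ x y x' y', κ x = κ x' → κ y = κ y' → h x y = h x' y') :
    ∑ x, ∑ y, A x y * h x y = ∑ x, ∑ y, cellAvg κ A x y * h x y := by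
  have h1 := Pool.Agent.TH596.J1.E_mul_measurable
    (Pool.Agent.TH596.J1.pr (fun x => (κ x).val)) (fun p : V × V => A p.1 p.2)
    (fun p => h p.1 p.2) (by
      rintro ⟨x, y⟩ ⟨x', y'⟩ hp
      unfold Pool.Agent.TH596.J1.pr at hp
      simp only [Prod.mk.injEq] at hp
      exact hh _ _ _ _ (Fin.ext hp.1) (Fin.ext hp.2))
  rw [Fintype.sum_prod_type, Fintype.sum_prod_type] at h1
  rw [← h1]
  refine Finset.sum_congr rfl fun x _ => Finset.sum_congr rfl fun y _ => ?_
  rw [Pool.Agent.TH596.J1.cellAvg_eq κ (fun x => (κ x).val) (fun x => rfl)]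

open Classical in
/-- the palettes of a colouring: colours of density at least `δ` -/
noncomputable def pal (G : SimpleGraph V) (κ : V → Fin M) (δ : ℝ) (c : G.edgeSet → Fin r)
    (x y : V) : Finset (Fin r) :=
  if G.Adj x y then univ.filter (fun a => δ ≤ cellAvg κ (kern G c a) x y) else ∅

theorem mem_pal (G : SimpleGraph V) (κ : V → Fin M) (δ : ℝ) (c : G.edgeSet → Fin r)
    (x y : V) (a : Fin r) : a ∈ pal G κ δ c x y ↔ G.Adj x y ∧ δ ≤ cellAvg κ (kern G c a) x y := by
  classical
  unfold pal
  by_cases h : G.Adj x y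
  · rw [if_pos h, Finset.mem_filter]; simp [h]
  · rw [if_neg h]; simp [h]

theorem pal_symm (G : SimpleGraph V) (κ : V → Fin M) (δ : ℝ) (c : G.edgeSet → Fin r)
    (x y : V) : pal G κ δ c x y = pal G κ δ c y x := by
  ext a
  rw [mem_pal, mem_pal, cellAvg_symm κ _ (kern_symm G c a), G.adj_comm]

omit [Fintype V] in
/-- no rainbow clique: the product over the pairs vanishes -/
theorem prod_kern_eq_zero {k : ℕ} (G : SimpleGraph V) (c : G.edgeSet → Fin r)
    (hRF : ∀ S : Finset V, G.IsNClique k S →
      ∃ e f : G.edgeSet, e ≠ f ∧ (∀ v ∈ (e : Sym2 V), v ∈ S) ∧ (∀ v ∈ (f : Sym2 V), v ∈ S) ∧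
        c e = c f)
    (col : Fin k → Fin k → Fin r)
    (hcol : ∀ i j i' j', i < j → i' < j' → col i j = col i' j' → i = i' ∧ j = j')
    (x : Fin k → V) :
    ∏ p ∈ univ.filter (fun p : Fin k × Fin k => p.1 < p.2),
      kern G c (col p.1 p.2) (x p.1) (x p.2) = 0 := by
  classical
  by_contra hne
  have hne := Finset.prod_ne_zero_iff.mp hne
  have hadj : ∀ i j, i < j → ∃ h : G.Adj (x i) (x j),
      c ⟨s(x i, x j), G.mem_edgeSet.mpr h⟩ = col i j := by
    intro i j hij
    have h1 := hne (i, j) (Finset.mem_filter.mpr ⟨Finset.mem_univ _, hij⟩)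
    unfold kern at h1
    by_cases h : G.Adj (x i) (x j)
    · refine ⟨h, ?_⟩
      simp only [h, dif_pos] at h1
      by_contra h2
      exact h1 (if_neg h2)
    · simp only [h] at h1
      exact absurd rfl h1
  have hinj : Function.Injective x := by
    intro i j hij
    by_contra hne2
    rcases lt_or_gt_of_ne hne2 with h | h
    · obtain ⟨h1, _⟩ := hadj i j h
      rw [hij] at h1
      exact G.irrefl h1
    · obtain ⟨h1, _⟩ := hadj j i h
      rw [hij] at h1
      exact G.irrefl h1
  have hcl : G.IsNClique k (univ.image x) := by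
    refine ⟨?_, ?_⟩
    · intro a ha b hb hab
      simp only [Finset.coe_image, Finset.coe_univ, Set.image_univ, Set.mem_range] at ha hb
      obtain ⟨i, rfl⟩ := ha
      obtain ⟨j, rfl⟩ := hb
      have hij : i ≠ j := fun h => hab (by rw [h])
      rcases lt_or_gt_of_ne hij with h | h
      · exact (hadj i j h).1
      · exact (hadj j i h).1.symm
    · rw [Finset.card_image_of_injective _ hinj, Finset.card_univ, Fintype.card_fin]
  obtain ⟨e, f, hef, heS, hfS, hcef⟩ := hRF _ hcl
  -- every edge inside the clique is `s(x i, x j)` with `i < j`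
  have hform : ∀ e : G.edgeSet, (∀ v ∈ (e : Sym2 V), v ∈ univ.image x) →
      ∃ i j, i < j ∧ (e : Sym2 V) = s(x i, x j) := by
    rintro ⟨e, he⟩ hv
    induction e with
    | _ a b =>
      simp only at hv
      obtain ⟨i, _, hi⟩ := Finset.mem_image.mp (hv a (Sym2.mem_mk_left a b))
      obtain ⟨j, _, hj⟩ := Finset.mem_image.mp (hv b (Sym2.mem_mk_right a b))
      have hab : a ≠ b := by
        have := G.mem_edgeSet.mp he
        exact this.ne
      have hij : i ≠ j := by
        intro h; apply hab; rw [← hi, ← hj, h]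
      rcases lt_or_gt_of_ne hij with h | h
      · exact ⟨i, j, h, by simp only; rw [hi, hj]⟩
      · exact ⟨j, i, h, by simp only; rw [hi, hj]; exact Sym2.eq_swap⟩
  obtain ⟨i, j, hij, he⟩ := hform e heS
  obtain ⟨i', j', hij', hf⟩ := hform f hfS
  have h1 : c e = col i j := by
    obtain ⟨h2, h3⟩ := hadj i j hij
    rw [← h3]
    congr 1
    exact Subtype.ext he
  have h2 : c f = col i' j' := by
    obtain ⟨h2, h3⟩ := hadj i' j' hij'
    rw [← h3]
    congr 1
    exact Subtype.ext hf
  have h3 := hcol i j i' j' hij hij' (by rw [← h1, ← h2]; exact hcef)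
  apply hef
  apply Subtype.ext
  rw [he, hf, h3.1, h3.2]

open Classical in
/-- few rainbowable tuples for the palettes of a colouring without rainbow clique -/
theorem pal_rainbow {k : ℕ} (hr : 0 < r) (G : SimpleGraph V) (c : G.edgeSet → Fin r)
    (hRF : ∀ S : Finset V, G.IsNClique k S →
      ∃ e f : G.edgeSet, e ≠ f ∧ (∀ v ∈ (e : Sym2 V), v ∈ S) ∧ (∀ v ∈ (f : Sym2 V), v ∈ S) ∧
        c e = c f) (κ : V → Fin M) (δ ε0 : ℝ) (hδ : 0 < δ)
    (hκ : ∀ a : Fin r, ∀ f g : V → ℝ, (∀ x, 0 ≤ f x ∧ f x ≤ 1) → (∀ x, 0 ≤ g x ∧ g x ≤ 1) →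
        |∑ x, ∑ y, f x * g y * (kern G c a x y - cellAvg κ (kern G c a) x y)| ≤
          ε0 * (Fintype.card V : ℝ) ^ 2) :
    δ ^ (k.choose 2) * (((tup k univ).filter (fun x => Rainbowable k (pal G κ δ c) x)).card : ℝ) ≤
      (r : ℝ) ^ (k * k) * ((k.choose 2 : ℝ) * ε0 * (Fintype.card V : ℝ) ^ k) := by
  -- for one pattern of colours
  have hone : ∀ col : Fin k → Fin k → Fin r,
      (∀ i j i' j', i < j → i' < j' → col i j = col i' j' → i = i' ∧ j = j') →
      δ ^ (k.choose 2) * (((tup k (univ : Finset V)).filter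
        (fun x => ∀ i j, i < j → col i j ∈ pal G κ δ c (x i) (x j))).card : ℝ) ≤
      (k.choose 2 : ℝ) * ε0 * (Fintype.card V : ℝ) ^ k := by
    intro col hcol
    have hcount := Pool.Agent.TH596.J2.counting (V := V) k
      (fun i j => kern G c (col i j)) (fun i j => cellAvg κ (kern G c (col i j)))
      (fun i j x y => kern_bounds G c _ x y)
      (fun i j x y => cellAvg_bounds κ _ (kern_bounds G c _) x y) ε0
      (fun i j f g hf hg => hκ (col i j) f g hf hg)
    rw [Finset.sum_eq_zero (fun x _ => prod_kern_eq_zero G c hRF col hcol x), zero_sub,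
      abs_neg] at hcount
    refine le_trans ?_ ((le_abs_self _).trans hcount)
    calc δ ^ (k.choose 2) * (((tup k (univ : Finset V)).filter
        (fun x => ∀ i j, i < j → col i j ∈ pal G κ δ c (x i) (x j))).card : ℝ)
        = ∑ x ∈ (tup k (univ : Finset V)).filter
            (fun x => ∀ i j, i < j → col i j ∈ pal G κ δ c (x i) (x j)), δ ^ (k.choose 2) := by
          rw [Finset.sum_const, nsmul_eq_mul]; ring
      _ ≤ ∑ x ∈ (tup k (univ : Finset V)).filter
            (fun x => ∀ i j, i < j → col i j ∈ pal G κ δ c (x i) (x j)),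
            ∏ p ∈ univ.filter (fun p : Fin k × Fin k => p.1 < p.2),
              cellAvg κ (kern G c (col p.1 p.2)) (x p.1) (x p.2) := by
          refine Finset.sum_le_sum fun x hx => ?_
          have hx' := (Finset.mem_filter.mp hx).2
          rw [← card_pairs k, ← Finset.prod_const]
          apply Finset.prod_le_prod
          · intro p _; exact hδ.le
          · intro p hp
            exact ((mem_pal _ _ _ _ _ _ _).mp (hx' p.1 p.2 (Finset.mem_filter.mp hp).2)).2
      _ ≤ ∑ x : Fin k → V,
            ∏ p ∈ univ.filter (fun p : Fin k × Fin k => p.1 < p.2),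
              cellAvg κ (kern G c (col p.1 p.2)) (x p.1) (x p.2) := by
          apply Finset.sum_le_sum_of_subset_of_nonneg (Finset.subset_univ _)
          intro x _ _
          exact Finset.prod_nonneg fun p _ => (cellAvg_bounds κ _ (kern_bounds G c _) _ _).1
  -- union over the patterns
  have hunion : ((tup k (univ : Finset V)).filter
      (fun x => Rainbowable k (pal G κ δ c) x)).card ≤
      ∑ col ∈ (univ : Finset (Fin k → Fin k → Fin r)).filter (fun col =>
        ∀ i j i' j', i < j → i' < j' → col i j = col i' j' → i = i' ∧ j = j'),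
        ((tup k (univ : Finset V)).filter
        (fun x => ∀ i j, i < j → col i j ∈ pal G κ δ c (x i) (x j))).card := by
    refine le_trans (Finset.card_le_card ?_) Finset.card_biUnion_le
    intro x hx
    rw [Finset.mem_filter] at hx
    obtain ⟨hxt, col, h1, h2⟩ := hx
    rw [Finset.mem_biUnion]
    exact ⟨col, Finset.mem_filter.mpr ⟨Finset.mem_univ _, h2⟩,
      Finset.mem_filter.mpr ⟨hxt, h1⟩⟩
  have hunion' : (((tup k (univ : Finset V)).filter
      (fun x => Rainbowable k (pal G κ δ c) x)).card : ℝ) ≤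
      ∑ col ∈ (univ : Finset (Fin k → Fin k → Fin r)).filter (fun col =>
        ∀ i j i' j', i < j → i' < j' → col i j = col i' j' → i = i' ∧ j = j'),
        (((tup k (univ : Finset V)).filter
        (fun x => ∀ i j, i < j → col i j ∈ pal G κ δ c (x i) (x j))).card : ℝ) := by
    exact_mod_cast hunion
  have hcardcol : (((univ : Finset (Fin k → Fin k → Fin r)).filter (fun col =>
        ∀ i j i' j', i < j → i' < j' → col i j = col i' j' → i = i' ∧ j = j')).card : ℝ) ≤
        (r : ℝ) ^ (k * k) := by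
    have h1 := Finset.card_le_univ ((univ : Finset (Fin k → Fin k → Fin r)).filter (fun col =>
        ∀ i j i' j', i < j → i' < j' → col i j = col i' j' → i = i' ∧ j = j'))
    rw [Fintype.card_fun, Fintype.card_fun, Fintype.card_fin, Fintype.card_fin, ← pow_mul] at h1
    exact_mod_cast h1
  -- the right hand side is nonnegative
  have hR0 : 0 ≤ (k.choose 2 : ℝ) * ε0 * (Fintype.card V : ℝ) ^ k := by
    by_cases hV : Nonempty V
    · have h0 : 0 ≤ ε0 * (Fintype.card V : ℝ) ^ 2 :=
        (abs_nonneg _).trans (hκ ⟨0, hr⟩ (fun _ => 0) (fun _ => 0)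
            (fun _ => by norm_num) (fun _ => by norm_num))
      have hn : (0 : ℝ) < (Fintype.card V : ℝ) := by exact_mod_cast Fintype.card_pos
      have : 0 ≤ ε0 := by
        by_contra h
        have : ε0 * (Fintype.card V : ℝ) ^ 2 < 0 :=
          mul_neg_of_neg_of_pos (not_le.mp h) (by positivity)
        linarith
      positivity
    · have : Fintype.card V = 0 := by
        rw [Fintype.card_eq_zero_iff]; exact not_nonempty_iff.mp hV
      rw [this]
      rcases Nat.eq_zero_or_pos k with h | h
      · subst h; simp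
      · rw [Nat.cast_zero, zero_pow (by omega)]; simp
  calc δ ^ (k.choose 2) * (((tup k univ).filter
        (fun x => Rainbowable k (pal G κ δ c) x)).card : ℝ)
      ≤ δ ^ (k.choose 2) * ∑ col ∈ (univ : Finset (Fin k → Fin k → Fin r)).filter (fun col =>
        ∀ i j i' j', i < j → i' < j' → col i j = col i' j' → i = i' ∧ j = j'),
        (((tup k (univ : Finset V)).filter
        (fun x => ∀ i j, i < j → col i j ∈ pal G κ δ c (x i) (x j))).card : ℝ) :=
        mul_le_mul_of_nonneg_left hunion' (by positivity)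
    _ = ∑ col ∈ (univ : Finset (Fin k → Fin k → Fin r)).filter (fun col =>
        ∀ i j i' j', i < j → i' < j' → col i j = col i' j' → i = i' ∧ j = j'),
        δ ^ (k.choose 2) * (((tup k (univ : Finset V)).filter
        (fun x => ∀ i j, i < j → col i j ∈ pal G κ δ c (x i) (x j))).card : ℝ) :=
        Finset.mul_sum _ _ _
    _ ≤ ∑ col ∈ (univ : Finset (Fin k → Fin k → Fin r)).filter (fun col =>
        ∀ i j i' j', i < j → i' < j' → col i j = col i' j' → i = i' ∧ j = j'),
        (k.choose 2 : ℝ) * ε0 * (Fintype.card V : ℝ) ^ k :=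
        Finset.sum_le_sum fun col hcol => hone col (Finset.mem_filter.mp hcol).2
    _ = (((univ : Finset (Fin k → Fin k → Fin r)).filter (fun col =>
        ∀ i j i' j', i < j → i' < j' → col i j = col i' j' → i = i' ∧ j = j')).card : ℝ) *
        ((k.choose 2 : ℝ) * ε0 * (Fintype.card V : ℝ) ^ k) := by
        rw [Finset.sum_const, nsmul_eq_mul]
    _ ≤ _ := mul_le_mul_of_nonneg_right hcardcol hR0

open Classical in
/-- few exceptional pairs -/
theorem pal_exc (G : SimpleGraph V) (c : G.edgeSet → Fin r) (κ : V → Fin M) (δ : ℝ) (hδ : 0 ≤ δ) :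
    ∑ x : V, ∑ y : V, (if ∃ h : G.Adj x y, c ⟨s(x, y), G.mem_edgeSet.mpr h⟩ ∉ pal G κ δ c x y
      then (1 : ℝ) else 0) ≤ r * δ * (Fintype.card V : ℝ) ^ 2 := by
  have h1 : ∀ x y : V, (if ∃ h : G.Adj x y, c ⟨s(x, y), G.mem_edgeSet.mpr h⟩ ∉ pal G κ δ c x y
      then (1 : ℝ) else 0) ≤ ∑ a : Fin r, kern G c a x y *
        (if cellAvg κ (kern G c a) x y < δ then (1 : ℝ) else 0) := by
    intro x y
    have hnn : ∀ a ∈ (univ : Finset (Fin r)), 0 ≤ kern G c a x y *
        (if cellAvg κ (kern G c a) x y < δ then (1 : ℝ) else 0) := by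
      intro a _
      apply mul_nonneg (kern_bounds G c a x y).1
      split_ifs <;> norm_num
    split_ifs with h
    · obtain ⟨hadj, hnot⟩ := h
      have h2 := Finset.single_le_sum hnn
        (Finset.mem_univ (c ⟨s(x, y), G.mem_edgeSet.mpr hadj⟩))
      refine le_trans ?_ h2
      rw [mem_pal] at hnot
      have h3 : cellAvg κ (kern G c (c ⟨s(x, y), G.mem_edgeSet.mpr hadj⟩)) x y < δ := by
        by_contra h4
        exact hnot ⟨hadj, not_lt.mp h4⟩
      rw [if_pos h3, mul_one]
      unfold kern
      rw [dif_pos hadj, if_pos rfl]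
    · exact Finset.sum_nonneg hnn
  calc _ ≤ ∑ x : V, ∑ y : V, ∑ a : Fin r, kern G c a x y *
        (if cellAvg κ (kern G c a) x y < δ then (1 : ℝ) else 0) :=
        Finset.sum_le_sum fun x _ => Finset.sum_le_sum fun y _ => h1 x y
    _ = ∑ a : Fin r, ∑ x : V, ∑ y : V, kern G c a x y *
        (if cellAvg κ (kern G c a) x y < δ then (1 : ℝ) else 0) := by
        rw [Finset.sum_congr rfl (fun x _ => Finset.sum_comm), Finset.sum_comm]
    _ = ∑ a : Fin r, ∑ x : V, ∑ y : V, cellAvg κ (kern G c a) x y *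
        (if cellAvg κ (kern G c a) x y < δ then (1 : ℝ) else 0) := by
        refine Finset.sum_congr rfl fun a _ => ?_
        apply cellAvg_sum_mul κ (kern G c a)
          (fun x y => if cellAvg κ (kern G c a) x y < δ then (1 : ℝ) else 0)
        intro x y x' y' hx hy
        rw [cellAvg_congr κ _ hx hy]
    _ ≤ ∑ a : Fin r, ∑ x : V, ∑ y : V, δ := by
        refine Finset.sum_le_sum fun a _ => Finset.sum_le_sum fun x _ =>
          Finset.sum_le_sum fun y _ => ?_
        split_ifs with h
        · rw [mul_one]; exact h.le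
        · rw [mul_zero]; exact hδ
    _ = _ := by
        simp only [Finset.sum_const, Finset.card_univ, Fintype.card_fin, nsmul_eq_mul]
        ring

end kern

/-- weighted counting of colourings with few exceptions -/
theorem weighted_count {E : Type} [Fintype E] (r : ℕ) (p : E → Finset (Fin r)) (s m : ℝ)
    (hs : 0 ≤ s) :
    (Nat.card {c : E → Fin r // (Nat.card {e : E // c e ∉ p e} : ℝ) ≤ m} : ℝ) ≤
      Real.exp (s * m) * (1 + r * Real.exp (-s)) ^ Fintype.card E *
        Real.exp (∑ e, Real.log ((p e).card : ℝ)) := by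
  classical
  have hw : ∀ c : E → Fin r, ∏ e, (if c e ∈ p e then (1 : ℝ) else Real.exp (-s)) =
      Real.exp (-s * (Nat.card {e : E // c e ∉ p e} : ℝ)) := by
    intro c
    rw [Finset.prod_ite, Finset.prod_const_one, one_mul, Finset.prod_const, Nat.card_eq_fintype_card,
      Fintype.card_subtype, mul_comm, Real.exp_nat_mul]
  have h1 : (Nat.card {c : E → Fin r // (Nat.card {e : E // c e ∉ p e} : ℝ) ≤ m} : ℝ) ≤
      ∑ c : E → Fin r, Real.exp (s * m) *
        ∏ e, (if c e ∈ p e then (1 : ℝ) else Real.exp (-s)) := by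
    rw [Nat.card_eq_fintype_card, Fintype.card_subtype, Finset.card_filter]
    push_cast
    refine Finset.sum_le_sum fun c _ => ?_
    rw [hw c, ← Real.exp_add]
    split_ifs with h
    · rw [← Real.exp_zero]
      apply Real.exp_le_exp.mpr
      nlinarith
    · positivity
  refine h1.trans ?_
  rw [← Finset.mul_sum, mul_assoc]
  apply mul_le_mul_of_nonneg_left _ (Real.exp_pos _).le
  have h2 : ∑ c : E → Fin r, ∏ e, (if c e ∈ p e then (1 : ℝ) else Real.exp (-s)) =
      ∏ e : E, ∑ a : Fin r, (if a ∈ p e then (1 : ℝ) else Real.exp (-s)) := by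
    rw [Finset.prod_univ_sum, Fintype.piFinset_univ]
  rw [h2]
  have h3 : (1 + r * Real.exp (-s)) ^ Fintype.card E *
        Real.exp (∑ e, Real.log ((p e).card : ℝ)) =
      ∏ e : E, ((1 + r * Real.exp (-s)) * Real.exp (Real.log ((p e).card : ℝ))) := by
    rw [Finset.prod_mul_distrib, Finset.prod_const, Finset.card_univ, Real.exp_sum]
  rw [h3]
  apply Finset.prod_le_prod
  · intro e _
    exact Finset.sum_nonneg fun a _ => by split_ifs <;> positivity
  · intro e _
    have h4 : ∑ a : Fin r, (if a ∈ p e then (1 : ℝ) else Real.exp (-s)) ≤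
        ((p e).card : ℝ) + r * Real.exp (-s) := by
      calc ∑ a : Fin r, (if a ∈ p e then (1 : ℝ) else Real.exp (-s))
          ≤ ∑ a : Fin r, ((if a ∈ p e then (1 : ℝ) else 0) + Real.exp (-s)) := by
            refine Finset.sum_le_sum fun a _ => ?_
            have := Real.exp_pos (-s)
            split_ifs <;> linarith
        _ = _ := by
            rw [Finset.sum_add_distrib, Finset.sum_const, Finset.card_univ, Fintype.card_fin,
              nsmul_eq_mul, ← Finset.sum_filter, Finset.sum_const, nsmul_eq_mul, mul_one]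
            congr 3
            ext a; simp
    refine h4.trans ?_
    have hes := Real.exp_pos (-s)
    rcases Nat.eq_zero_or_pos (p e).card with h5 | h5
    · rw [h5]; simp
    · have h6 : (1 : ℝ) ≤ ((p e).card : ℝ) := by exact_mod_cast h5
      rw [Real.exp_log (by linarith)]
      have : (0 : ℝ) ≤ r * Real.exp (-s) := by positivity
      nlinarith

/-- sum over ordered pairs versus sum over edges -/
theorem sum_pairs_eq {V : Type} [Fintype V] (G : SimpleGraph V) [Fintype G.edgeSet]
    (f : Sym2 V → ℝ) (hf : ∀ e, e ∉ G.edgeSet → f e = 0) :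
    ∑ x : V, ∑ y : V, f s(x, y) = 2 * ∑ e : G.edgeSet, f e := by
  classical
  have h1 : ∑ x : V, ∑ y : V, f s(x, y) = ∑ p : V × V, f s(p.1, p.2) := by
    rw [Fintype.sum_prod_type]
  rw [h1, ← Finset.sum_fiberwise (s := univ) (g := fun p : V × V => s(p.1, p.2))]
  have h2 : ∀ e : Sym2 V, ∑ p ∈ univ.filter (fun p : V × V => s(p.1, p.2) = e), f s(p.1, p.2) =
      if e ∈ G.edgeSet then 2 * f e else 0 := by
    intro e
    have h3 : ∑ p ∈ univ.filter (fun p : V × V => s(p.1, p.2) = e), f s(p.1, p.2) =
        ∑ p ∈ univ.filter (fun p : V × V => s(p.1, p.2) = e), f e :=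
      Finset.sum_congr rfl fun p hp => by rw [(Finset.mem_filter.mp hp).2]
    rw [h3, Finset.sum_const, nsmul_eq_mul]
    split_ifs with he
    · congr 1
      induction e with
      | _ a b =>
        have hab : a ≠ b := (G.mem_edgeSet.mp he).ne
        have : univ.filter (fun p : V × V => s(p.1, p.2) = s(a, b)) = {(a, b), (b, a)} := by
          ext ⟨x, y⟩
          simp only [Finset.mem_filter, Finset.mem_univ, true_and, Sym2.eq_iff,
            Finset.mem_insert, Finset.mem_singleton, Prod.mk.injEq]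
        rw [this, Finset.card_pair (by simp [hab])]
        norm_num
    · rw [hf e he, mul_zero]
  rw [Finset.sum_congr rfl (fun e _ => h2 e), ← Finset.sum_filter, ← Finset.mul_sum]
  congr 1
  exact (Finset.sum_subtype _ (by intro e; simp) f)

end Pool.Agent.TH477.RB
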