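import Pool.Agent.TH477.RB.Cont1

/-!
The container lemma: the number of colourings without rainbow clique is essentially controlled by one
palette system with few rainbowable tuples.
-/

set_option autoImplicit false

namespace Pool.Agent.TH477.RB

open Finset

/-- colouring without rainbow `k`-clique -/
def Good {V : Type} (r k : ℕ) (G : SimpleGraph V) (c : G.edgeSet → Fin r) : Prop :=
  ∀ S : Finset V, G.IsNClique k S →
    ∃ e f : G.edgeSet, e ≠ f ∧ (∀ v ∈ (e : Sym2 V), v ∈ S) ∧ (∀ v ∈ (f : Sym2 V), v ∈ S) ∧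
      c e = c f

open Classical in
/-- palettes from a structure -/
noncomputable def spal {V : Type} {r M : ℕ} (G : SimpleGraph V)
    (st : (V → Fin M) × (Fin M → Fin M → Finset (Fin r))) (x y : V) : Finset (Fin r) :=
  if G.Adj x y then st.2 (st.1 x) (st.1 y) else ∅

open Classical in
/-- the structure of a colouring -/
noncomputable def dens {V : Type} [Fintype V] {r M : ℕ} (G : SimpleGraph V) (κ : V → Fin M) (δ : ℝ)
    (c : G.edgeSet → Fin r) (a b : Fin M) : Finset (Fin r) :=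
  univ.filter (fun col => ∃ x y, κ x = a ∧ κ y = b ∧ δ ≤ cellAvg κ (kern G c col) x y)

theorem spal_eq_pal {V : Type} [Fintype V] {r M : ℕ} (G : SimpleGraph V) (κ : V → Fin M) (δ : ℝ)
    (c : G.edgeSet → Fin r) (x y : V) : spal G (κ, dens G κ δ c) x y = pal G κ δ c x y := by
  classical
  unfold spal pal dens
  by_cases h : G.Adj x y
  · rw [if_pos h, if_pos h]
    ext a
    simp only [Finset.mem_filter, Finset.mem_univ, true_and]
    constructor
    · rintro ⟨x', y', hx, hy, hd⟩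
      rw [← cellAvg_congr κ _ hx hy]
      exact hd
    · intro hd
      exact ⟨x, y, rfl, rfl, hd⟩
  · rw [if_neg h, if_neg h]

open Classical in
/-- number of exceptional edges -/
theorem exc_count {V : Type} [Fintype V] {r : ℕ} (G : SimpleGraph V) (c : G.edgeSet → Fin r)
    (P : V → V → Finset (Fin r)) (hsymm : ∀ x y, P x y = P y x) :
    2 * (Nat.card {e : G.edgeSet // c e ∉ Sym2.lift ⟨P, hsymm⟩ (e : Sym2 V)} : ℝ) =
    ∑ x : V, ∑ y : V, (if ∃ h : G.Adj x y, c ⟨s(x, y), G.mem_edgeSet.mpr h⟩ ∉ P x y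
      then (1 : ℝ) else 0) := by
  let f : Sym2 V → ℝ := fun e => if ∃ h : e ∈ G.edgeSet, c ⟨e, h⟩ ∉ Sym2.lift ⟨P, hsymm⟩ e
    then 1 else 0
  have h1 := sum_pairs_eq G f (by
    intro e he
    simp only [f]
    rw [if_neg]
    rintro ⟨h, _⟩
    exact he h)
  have h2 : ∑ x : V, ∑ y : V, f s(x, y) =
      ∑ x : V, ∑ y : V, (if ∃ h : G.Adj x y, c ⟨s(x, y), G.mem_edgeSet.mpr h⟩ ∉ P x y
      then (1 : ℝ) else 0) := by
    refine Finset.sum_congr rfl fun x _ => Finset.sum_congr rfl fun y _ => ?_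
    simp only [f, Sym2.lift_mk]
    rfl
  rw [← h2, h1]
  congr 1
  rw [Nat.card_eq_fintype_card, Fintype.card_subtype, Finset.card_filter]
  push_cast
  refine Finset.sum_congr rfl fun e _ => ?_
  simp only [f]
  by_cases h : c e ∉ Sym2.lift ⟨P, hsymm⟩ (e : Sym2 V)
  · rw [if_pos h, if_pos ⟨e.2, h⟩]
  · rw [if_neg h, if_neg]
    rintro ⟨h1, h2⟩
    exact h h2

open Classical in
theorem two_mul_card_edges_le {V : Type} [Fintype V] (G : SimpleGraph V) :
    2 * (Fintype.card G.edgeSet : ℝ) ≤ (Fintype.card V : ℝ) ^ 2 := by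
  have h1 := sum_pairs_eq G (fun e => if e ∈ G.edgeSet then (1 : ℝ) else 0)
    (fun e he => if_neg he)
  have h2 : ∑ e : G.edgeSet, (if (e : Sym2 V) ∈ G.edgeSet then (1 : ℝ) else 0) =
      (Fintype.card G.edgeSet : ℝ) := by
    rw [Finset.sum_congr rfl (fun e _ => if_pos e.2)]
    simp
  rw [h2] at h1
  rw [← h1]
  calc ∑ x : V, ∑ y : V, (if s(x, y) ∈ G.edgeSet then (1 : ℝ) else 0)
      ≤ ∑ x : V, ∑ y : V, (1 : ℝ) := by
        refine Finset.sum_le_sum fun x _ => Finset.sum_le_sum fun y _ => ?_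
        split_ifs <;> norm_num
    _ = _ := by simp; ring

open Classical in
theorem container (k r : ℕ) (hk : 4 ≤ k) (hr : 2 ≤ r) (ε : ℝ) (hε : 0 < ε) :
    ∃ n0 : ℕ, ∀ n, n0 ≤ n → ∀ G : SimpleGraph (Fin n), 1 ≤ cc r k G →
    ∃ P : Fin n → Fin n → Finset (Fin r), (∀ x y, P x y = P y x) ∧
      (∀ x y, ¬ G.Adj x y → P x y = ∅) ∧
     ((univ.filter (fun p : Fin n × Fin n => G.Adj p.1 p.2 ∧ P p.1 p.2 = ∅)).card : ℝ) ≤
       ε * (n : ℝ) ^ 2 ∧
     (((tup k univ).filter (fun x => Rainbowable k P x)).card : ℝ) ≤ ε * (n : ℝ) ^ k ∧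
     Real.log (cc r k G) ≤ 1 / 2 * ∑ x, ∑ y, wt P x y + ε * (n : ℝ) ^ 2 := by
  have hr0 : (0 : ℝ) < r := by exact_mod_cast (by omega : 0 < r)
  -- constants
  set s : ℝ := max 0 (Real.log (2 * r / ε)) with hs
  have hs0 : 0 ≤ s := le_max_left _ _
  have hsr : r * Real.exp (-s) ≤ ε / 2 := by
    have h1 : Real.log (2 * r / ε) ≤ s := le_max_right _ _
    have h2 : 2 * r / ε ≤ Real.exp s := by
      rw [← Real.log_le_iff_le_exp (by positivity)]; exact h1
    rw [Real.exp_neg, ← div_eq_mul_inv, div_le_iff₀ (Real.exp_pos s)]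
    rw [div_le_iff₀ hε] at h2
    linarith
  set δ : ℝ := min (ε / r) (ε / (2 * r * (s + 1))) with hδ
  have hδ0 : 0 < δ := lt_min (by positivity) (by positivity)
  have hδ1 : r * δ ≤ ε := by
    have : δ ≤ ε / r := min_le_left _ _
    rw [le_div_iff₀ hr0] at this
    linarith
  have hδ2 : s * (r * δ / 2) ≤ ε / 4 := by
    have h1 : δ ≤ ε / (2 * r * (s + 1)) := min_le_right _ _
    rw [le_div_iff₀ (by positivity)] at h1
    have h2 : 0 ≤ δ * r := by positivity
    nlinarith
  have hck : (0 : ℝ) ≤ (k.choose 2 : ℝ) := by positivity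
  set D : ℝ := (r : ℝ) ^ (k * k) * (k.choose 2 : ℝ) + 1 with hD
  have hD0 : 0 < D := by positivity
  set ε0 : ℝ := ε * δ ^ (k.choose 2) / D with hε0
  have hε00 : 0 < ε0 := by positivity
  have hε0D : (r : ℝ) ^ (k * k) * (k.choose 2 : ℝ) * ε0 ≤ ε * δ ^ (k.choose 2) := by
    rw [hε0, ← mul_div_assoc, div_le_iff₀ hD0]
    have : (r : ℝ) ^ (k * k) * (k.choose 2 : ℝ) ≤ D := by rw [hD]; linarith
    calc (r : ℝ) ^ (k * k) * (k.choose 2 : ℝ) * (ε * δ ^ (k.choose 2))
        ≤ D * (ε * δ ^ (k.choose 2)) := mul_le_mul_of_nonneg_right this (by positivity)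
      _ = _ := by ring
  obtain ⟨M, hM⟩ := Pool.Agent.TH596.J1.weak_regularity r ε0 hε00
  set C1 : ℝ := Real.log M + r * (M : ℝ) ^ 2 * Real.log 2 with hC1
  have hlogM : 0 ≤ Real.log M := Real.log_natCast_nonneg M
  have hlog2 : 0 ≤ Real.log 2 := Real.log_nonneg (by norm_num)
  have hC10 : 0 ≤ C1 := by positivity
  refine ⟨⌈4 / ε * C1⌉₊ + 1, ?_⟩
  intro n hn G hcc
  have hn1 : (1 : ℝ) ≤ (n : ℝ) := by exact_mod_cast (by omega : 1 ≤ n)
  have hnC : 4 / ε * C1 ≤ n := (Nat.le_ceil _).trans (by exact_mod_cast (by omega))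
  -- the colourings
  let Ω : Type := {c : G.edgeSet → Fin r // Good r k G c}
  have hΩ : Nat.card Ω = cc r k G := rfl
  have hκ : ∀ c : Ω, ∃ κ : Fin n → Fin M, ∀ a : Fin r, ∀ f g : Fin n → ℝ,
      (∀ x, 0 ≤ f x ∧ f x ≤ 1) → (∀ x, 0 ≤ g x ∧ g x ≤ 1) →
        |∑ x, ∑ y, f x * g y * (kern G c.1 a x y - cellAvg κ (kern G c.1 a) x y)| ≤
          ε0 * (Fintype.card (Fin n) : ℝ) ^ 2 := by
    intro c
    exact hM (Fin n) (kern G c.1) (fun a x y => kern_bounds G c.1 a x y)
  choose κ hκ using hκ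
  let Ψ : Ω → (Fin n → Fin M) × (Fin M → Fin M → Finset (Fin r)) :=
    fun c => (κ c, dens G (κ c) δ c.1)
  have hΩpos : 0 < Fintype.card Ω := by
    rw [← Nat.card_eq_fintype_card, hΩ]; omega
  have hΩne : Nonempty Ω := Fintype.card_pos_iff.mp hΩpos
  have hβne : Nonempty ((Fin n → Fin M) × (Fin M → Fin M → Finset (Fin r))) :=
    ⟨Ψ hΩne.some⟩
  set β : ℝ := (Fintype.card ((Fin n → Fin M) × (Fin M → Fin M → Finset (Fin r))) : ℝ) with hβ
  have hβ0 : 0 < β := by
    rw [hβ]; exact_mod_cast Fintype.card_pos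
  obtain ⟨st, hst⟩ := Fintype.exists_le_card_fiber_of_nsmul_le_card Ψ
    (b := (Fintype.card Ω : ℝ) / β) (by
      rw [nsmul_eq_mul, ← hβ]
      exact le_of_eq (by field_simp))
  have hΩr : (0 : ℝ) < (Fintype.card Ω : ℝ) := by exact_mod_cast hΩpos
  have hfibpos : (0 : ℝ) < ((univ.filter (fun c : Ω => Ψ c = st)).card : ℝ) :=
    lt_of_lt_of_le (by positivity) hst
  have hfibne : (univ.filter (fun c : Ω => Ψ c = st)).Nonempty := by
    rw [← Finset.card_pos]; exact_mod_cast hfibpos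
  obtain ⟨c0, hc0⟩ := hfibne
  have hc0' : Ψ c0 = st := (Finset.mem_filter.mp hc0).2
  -- palettes
  have hPeq : ∀ c : Ω, Ψ c = st → ∀ x y, spal G st x y = pal G (κ c) δ c.1 x y := by
    intro c hc x y
    rw [← hc]
    exact spal_eq_pal G (κ c) δ c.1 x y
  have hsymm : ∀ x y, spal G st x y = spal G st y x := by
    intro x y
    rw [hPeq c0 hc0', hPeq c0 hc0', pal_symm]
  have hexcP : ∀ c : Ω, Ψ c = st →
      ∑ x : Fin n, ∑ y : Fin n, (if ∃ h : G.Adj x y, c.1 ⟨s(x, y), G.mem_edgeSet.mpr h⟩ ∉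
        spal G st x y then (1 : ℝ) else 0) ≤ r * δ * (n : ℝ) ^ 2 := by
    intro c hc
    have h1 := pal_exc G c.1 (κ c) δ hδ0.le
    rw [Fintype.card_fin] at h1
    refine le_trans (le_of_eq ?_) h1
    refine Finset.sum_congr rfl fun x _ => Finset.sum_congr rfl fun y _ => ?_
    rw [hPeq c hc]
  refine ⟨spal G st, hsymm, ?_, ?_, ?_, ?_⟩
  · intro x y hxy
    unfold spal
    rw [if_neg hxy]
  · -- adjacent pairs with empty palette
    have h1 : ((univ.filter (fun p : Fin n × Fin n => G.Adj p.1 p.2 ∧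
        spal G st p.1 p.2 = ∅)).card : ℝ) ≤
        ∑ x : Fin n, ∑ y : Fin n, (if ∃ h : G.Adj x y, c0.1 ⟨s(x, y), G.mem_edgeSet.mpr h⟩ ∉
        spal G st x y then (1 : ℝ) else 0) := by
      rw [Finset.card_filter, Fintype.sum_prod_type]
      push_cast
      refine Finset.sum_le_sum fun x _ => Finset.sum_le_sum fun y _ => ?_
      by_cases h : G.Adj x y ∧ spal G st x y = ∅
      · rw [if_pos h, if_pos]
        obtain ⟨ha, he⟩ := h
        refine ⟨ha, ?_⟩
        rw [he]; simp
      · rw [if_neg h]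
        split_ifs <;> norm_num
    refine h1.trans ((hexcP c0 hc0').trans ?_)
    exact mul_le_mul_of_nonneg_right hδ1 (by positivity)
  · -- rainbowable tuples
    have h1 := pal_rainbow (by omega : 0 < r) G c0.1 c0.2 (κ c0) δ ε0 hδ0 (hκ c0)
    rw [Fintype.card_fin] at h1
    have h2 : spal G st = pal G (κ c0) δ c0.1 := by
      ext x y : 2
      exact hPeq c0 hc0' x y
    rw [h2]
    have h3 : δ ^ (k.choose 2) * (((tup k univ).filter
        (fun x => Rainbowable k (pal G (κ c0) δ c0.1) x)).card : ℝ) ≤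
        δ ^ (k.choose 2) * (ε * (n : ℝ) ^ k) := by
      refine h1.trans ?_
      calc (r : ℝ) ^ (k * k) * ((k.choose 2 : ℝ) * ε0 * (n : ℝ) ^ k)
          = ((r : ℝ) ^ (k * k) * (k.choose 2 : ℝ) * ε0) * (n : ℝ) ^ k := by ring
        _ ≤ (ε * δ ^ (k.choose 2)) * (n : ℝ) ^ k :=
          mul_le_mul_of_nonneg_right hε0D (by positivity)
        _ = _ := by ring
    exact le_of_mul_le_mul_left h3 (by positivity)
  · -- the count
    set m : ℝ := r * δ / 2 * (n : ℝ) ^ 2 with hm
    let pe : G.edgeSet → Finset (Fin r) := fun e => Sym2.lift ⟨spal G st, hsymm⟩ (e : Sym2 (Fin n))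
    have hinj : (univ.filter (fun c : Ω => Ψ c = st)).card ≤
        Nat.card {c : G.edgeSet → Fin r // (Nat.card {e : G.edgeSet // c e ∉ pe e} : ℝ) ≤ m} := by
      rw [← Fintype.card_subtype, ← Nat.card_eq_fintype_card]
      refine Nat.card_le_card_of_injective (fun c => ⟨c.1.1, ?_⟩) ?_
      · have h1 := exc_count G c.1.1 (spal G st) hsymm
        have h2 := hexcP c.1 c.2
        rw [← h1] at h2
        have h3 : 2 * m = r * δ * (n : ℝ) ^ 2 := by rw [hm]; ring
        rw [← h3] at h2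
        linarith
      · intro c c' h
        simp only [Subtype.mk.injEq] at h
        exact Subtype.ext (Subtype.ext h)
    have hinj' : ((univ.filter (fun c : Ω => Ψ c = st)).card : ℝ) ≤
        (Nat.card {c : G.edgeSet → Fin r // (Nat.card {e : G.edgeSet // c e ∉ pe e} : ℝ) ≤ m} : ℝ) := by
      exact_mod_cast hinj
    have hw := weighted_count r pe s m hs0
    have hle := hst.trans (hinj'.trans hw)
    have hlog : Real.log (Fintype.card Ω : ℝ) - Real.log β ≤
        s * m + (Fintype.card G.edgeSet : ℝ) * Real.log (1 + r * Real.exp (-s)) +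
          ∑ e, Real.log ((pe e).card : ℝ) := by
      have h1 := Real.log_le_log (by positivity) hle
      have hpos1 : 0 < 1 + r * Real.exp (-s) := by positivity
      rw [Real.log_div hΩr.ne' hβ0.ne', Real.log_mul (by positivity) (by positivity),
        Real.log_mul (by positivity) (by positivity), Real.log_exp, Real.log_pow,
        Real.log_exp] at h1
      exact h1
    -- sum over edges
    have hsum : ∑ e, Real.log ((pe e).card : ℝ) = 1 / 2 * ∑ x, ∑ y, wt (spal G st) x y := by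
      let f : Sym2 (Fin n) → ℝ := fun e =>
        Real.log ((Sym2.lift ⟨spal G st, hsymm⟩ e).card : ℝ)
      have h1 := sum_pairs_eq G f (by
        intro e he
        simp only [f]
        induction e with
        | _ a b =>
          rw [Sym2.lift_mk]
          have : ¬ G.Adj a b := fun h => he (G.mem_edgeSet.mpr h)
          simp only [spal, if_neg this]
          simp)
      have h2 : ∑ x, ∑ y, wt (spal G st) x y = ∑ x, ∑ y, f s(x, y) := rfl
      rw [h2, h1]
      simp only [pe, f]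
      ring
    -- number of edges
    have hedge : (Fintype.card G.edgeSet : ℝ) * Real.log (1 + r * Real.exp (-s)) ≤
        ε / 4 * (n : ℝ) ^ 2 := by
      have h1 : Real.log (1 + r * Real.exp (-s)) ≤ ε / 2 := by
        have := Real.log_le_sub_one_of_pos (show 0 < 1 + r * Real.exp (-s) by positivity)
        linarith
      have h2 := two_mul_card_edges_le G
      rw [Fintype.card_fin] at h2
      have h3 : 0 ≤ (Fintype.card G.edgeSet : ℝ) := by positivity
      calc (Fintype.card G.edgeSet : ℝ) * Real.log (1 + r * Real.exp (-s))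
          ≤ (Fintype.card G.edgeSet : ℝ) * (ε / 2) := mul_le_mul_of_nonneg_left h1 h3
        _ ≤ ((n : ℝ) ^ 2 / 2) * (ε / 2) := mul_le_mul_of_nonneg_right (by linarith) (by positivity)
        _ = _ := by ring
    have hsm : s * m ≤ ε / 4 * (n : ℝ) ^ 2 := by
      have : s * m = (s * (r * δ / 2)) * (n : ℝ) ^ 2 := by rw [hm]; ring
      rw [this]
      exact mul_le_mul_of_nonneg_right hδ2 (by positivity)
    have hβlog : Real.log β ≤ ε / 4 * (n : ℝ) ^ 2 := by
      have h1 : β = (M : ℝ) ^ n * ((2 : ℝ) ^ r) ^ (M * M) := by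
        rw [hβ]
        simp only [Fintype.card_prod, Fintype.card_fun, Fintype.card_fin, Fintype.card_finset]
        push_cast
        rw [← pow_mul]
      have hMpos : 0 < M := by
        have : Nonempty (Fin M) := ⟨κ c0 ⟨0, by omega⟩⟩
        exact Fin.pos_iff_nonempty.mpr this
      have hMr : (0 : ℝ) < M := by exact_mod_cast hMpos
      rw [h1, Real.log_mul (by positivity) (by positivity), Real.log_pow, Real.log_pow,
        Real.log_pow]
      push_cast
      have h2 : (n : ℝ) * Real.log M + (M : ℝ) * M * (r * Real.log 2) ≤ n * C1 := by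
        rw [hC1]
        have h3 : (M : ℝ) * M * (r * Real.log 2) ≤ n * (r * (M : ℝ) ^ 2 * Real.log 2) := by
          have h4 : 0 ≤ r * (M : ℝ) ^ 2 * Real.log 2 := by positivity
          nlinarith
        linarith
      refine h2.trans ?_
      have h3 : C1 ≤ ε / 4 * n := by
        have : 4 / ε * C1 = C1 * (4 / ε) := by ring
        have h4 : C1 = ε / 4 * (4 / ε * C1) := by field_simp
        rw [h4]
        exact mul_le_mul_of_nonneg_left hnC (by positivity)
      calc (n : ℝ) * C1 ≤ n * (ε / 4 * n) := mul_le_mul_of_nonneg_left h3 (by positivity)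
        _ = _ := by ring
    have hcard : (cc r k G : ℝ) = (Fintype.card Ω : ℝ) := by
      rw [← hΩ, Nat.card_eq_fintype_card]
    rw [hcard, ← hsum]
    have hn2 : 0 ≤ ε / 4 * (n : ℝ) ^ 2 := by positivity
    linarith

end Pool.Agent.TH477.RB
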