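import Mathlib

/-!
Rainbow Erdős–Rothschild problem for complete graphs: common definitions.
-/

set_option autoImplicit false

namespace Pool.Agent.TH477.RB

open Finset

/-- The colouring `ψ` of all pairs has no rainbow `k`-clique inside the graph `G`: every `k`-clique
of `G` has two different edges of the same colour. -/
def RF {V : Type} (r k : ℕ) (G : SimpleGraph V) (ψ : Sym2 V → Fin r) : Prop :=
  ∀ S : Finset V, G.IsNClique k S →
    ∃ e f : Sym2 V, e ≠ f ∧ e ∈ G.edgeSet ∧ f ∈ G.edgeSet ∧
      (∀ v ∈ e, v ∈ S) ∧ (∀ v ∈ f, v ∈ S) ∧ ψ e = ψ f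

/-- number of colourings of all pairs (edges or not, loops included) without rainbow `k`-clique
of `G` -/
noncomputable def N {V : Type} (r k : ℕ) (G : SimpleGraph V) : ℕ :=
  Nat.card {ψ : Sym2 V → Fin r // RF r k G ψ}

/-- number of `r`-colourings of the edges of `G` without rainbow `k`-clique -/
noncomputable def cc {V : Type} (r k : ℕ) (G : SimpleGraph V) : ℕ :=
  Nat.card {c : G.edgeSet → Fin r // ∀ S : Finset V, G.IsNClique k S →
    ∃ e f : G.edgeSet, e ≠ f ∧ (∀ v ∈ (e : Sym2 V), v ∈ S) ∧ (∀ v ∈ (f : Sym2 V), v ∈ S) ∧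
      c e = c f}

/-- average of `A` over the product cells of the partition given by `κ` -/
noncomputable def cellAvg {V : Type} [Fintype V] {M : ℕ} (κ : V → Fin M) (A : V → V → ℝ)
    (x y : V) : ℝ :=
  (∑ x' ∈ univ.filter (fun x' => κ x' = κ x), ∑ y' ∈ univ.filter (fun y' => κ y' = κ y), A x' y') /
   (((univ.filter (fun x' => κ x' = κ x)).card : ℝ) *
    ((univ.filter (fun y' => κ y' = κ y)).card : ℝ))

/-- `ψ` is rich with respect to the classes `cls` (`none` = no class): for all large subsets
`A i` of the classes and all prescribed colours there is a transversal with these colours. -/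
def Rich {n r u : ℕ} (δ : ℝ) (cls : Fin n → Option (Fin u)) (ψ : Sym2 (Fin n) → Fin r) : Prop :=
  ∀ A : Fin u → Finset (Fin n), (∀ i, ∀ x ∈ A i, cls x = some i) →
    (∀ i, δ * n ≤ ((A i).card : ℝ)) →
    ∀ col : Fin u → Fin u → Fin r, ∃ a : Fin u → Fin n, (∀ i, a i ∈ A i) ∧
      ∀ i j, i < j → ψ s(a i, a j) = col i j

end Pool.Agent.TH477.RB
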