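import Pool.Agent.TH477.RB.Palette
import Pool.Agent.TH477.RB.Tree

/-!
Gap lemma, dense subset lemma, upper bound for the total weight of a palette system with few
rainbowable tuples.
-/

set_option autoImplicit false

namespace Pool.Agent.TH477.RB

open Finset

theorem finite_gap {ι : Type} [Finite ι] (f : ι → ℝ) :
    ∃ γ : ℝ, 0 < γ ∧ ∀ i, f i ≤ 0 ∨ γ ≤ f i := by
  classical
  have := Fintype.ofFinite ι
  by_cases h : (univ.filter (fun i => 0 < f i)).Nonempty
  · refine ⟨(univ.filter (fun i => 0 < f i)).inf' h f, ?_, ?_⟩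
    · rw [Finset.lt_inf'_iff]
      intro i hi
      exact (Finset.mem_filter.mp hi).2
    · intro i
      rcases le_or_gt (f i) 0 with h1 | h1
      · exact Or.inl h1
      · right
        exact Finset.inf'_le f (Finset.mem_filter.mpr ⟨Finset.mem_univ i, h1⟩)
  · refine ⟨1, one_pos, fun i => ?_⟩
    left
    by_contra h1
    exact h ⟨i, Finset.mem_filter.mpr ⟨Finset.mem_univ _, not_le.mp h1⟩⟩

theorem loss_gap (k r : ℕ) : ∃ γ : ℝ, 0 < γ ∧ ∀ (V : Type) (P : V → V → Finset (Fin r))
    (x : Fin k → V) (y : V) (j : Fin k),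
    ∑ i ∈ univ.filter (fun i => i < j), loss P (x i) y ≤
      (j.val : ℝ) / ((k - 1 : ℕ) : ℝ) * Real.log r ∨
    (j.val : ℝ) / ((k - 1 : ℕ) : ℝ) * Real.log r + γ ≤
      ∑ i ∈ univ.filter (fun i => i < j), loss P (x i) y := by
  obtain ⟨γ, hγ, h⟩ := finite_gap (ι := Fin k × (Fin k → Fin (r + 1)))
    (fun p => ∑ i ∈ univ.filter (fun i => i < p.1), (Real.log r - Real.log ((p.2 i).val : ℝ)) -
      (p.1.val : ℝ) / ((k - 1 : ℕ) : ℝ) * Real.log r)
  refine ⟨γ, hγ, ?_⟩
  intro V P x y j
  have hc : ∀ i, (P (x i) y).card < r + 1 := by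
    intro i
    have := Finset.card_le_univ (P (x i) y)
    rw [Fintype.card_fin] at this
    omega
  have h1 := h (j, fun i => ⟨(P (x i) y).card, hc i⟩)
  simp only at h1
  have h2 : ∑ i ∈ univ.filter (fun i => i < j), loss P (x i) y =
      ∑ i ∈ univ.filter (fun i => i < j), (Real.log r - Real.log ((P (x i) y).card : ℝ)) := rfl
  rw [h2]
  rcases h1 with h1 | h1
  · left; linarith
  · right; linarith

theorem dense_subset {V : Type} [DecidableEq V] (w : V → V → ℝ) (hsymm : ∀ x y, w x y = w y x)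
    (hdiag : ∀ x, w x x = 0) (W : Finset V) (α : ℝ) :
    ∃ W' ⊆ W, (∑ x ∈ W, ∑ y ∈ W, w x y) - α * (W.card : ℝ) ^ 2 + α * (W'.card : ℝ) ^ 2 ≤
      ∑ x ∈ W', ∑ y ∈ W', w x y ∧
      ∀ x ∈ W', α * (W'.card : ℝ) - α / 2 ≤ ∑ y ∈ W', w x y := by
  obtain ⟨W', hW', hmax⟩ := Finset.exists_max_image W.powerset
    (fun U => (∑ x ∈ U, ∑ y ∈ U, w x y) - α * (U.card : ℝ) ^ 2) ⟨∅, by simp⟩
  refine ⟨W', Finset.mem_powerset.mp hW', ?_, ?_⟩
  · have := hmax W (by simp)
    linarith
  · intro x hx
    have h1 := hmax (W'.erase x) (by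
      rw [Finset.mem_powerset]
      exact (Finset.erase_subset _ _).trans (Finset.mem_powerset.mp hW'))
    have hcard : ((W'.erase x).card : ℝ) = (W'.card : ℝ) - 1 := by
      rw [Finset.card_erase_of_mem hx]
      have : 1 ≤ W'.card := Finset.card_pos.mpr ⟨x, hx⟩
      push_cast [this]
      ring
    have e1 : ∀ z, ∑ y ∈ W', w z y = w z x + ∑ y ∈ W'.erase x, w z y := fun z =>
      (Finset.add_sum_erase W' (w z) hx).symm
    have e2 : ∑ z ∈ W', ∑ y ∈ W', w z y
        = (∑ y ∈ W', w x y) + ∑ z ∈ W'.erase x, ∑ y ∈ W', w z y :=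
      (Finset.add_sum_erase W' (fun z => ∑ y ∈ W', w z y) hx).symm
    have e3 : ∑ z ∈ W'.erase x, ∑ y ∈ W', w z y
        = (∑ z ∈ W'.erase x, w z x) + ∑ z ∈ W'.erase x, ∑ y ∈ W'.erase x, w z y := by
      rw [← Finset.sum_add_distrib]
      exact Finset.sum_congr rfl fun z _ => e1 z
    have e4 : ∑ z ∈ W'.erase x, w z x = ∑ y ∈ W', w x y := by
      rw [e1 x, hdiag x, zero_add]
      exact Finset.sum_congr rfl fun z _ => hsymm z x
    rw [hcard] at h1
    nlinarith

/-- the greedy condition: `y` may be used as coordinate `j` -/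
def Rg {V : Type} {r : ℕ} (k : ℕ) (P : V → V → Finset (Fin r)) (j : Fin k) (x : Fin k → V) (y : V) :
    Prop :=
  (∀ i, i < j → 2 ≤ (P (x i) y).card) ∧
    ∑ i ∈ univ.filter (fun i => i < j), loss P (x i) y ≤
      (j.val : ℝ) / ((k - 1 : ℕ) : ℝ) * Real.log r

theorem Rg_update {V : Type} {r k : ℕ} (P : V → V → Finset (Fin r)) (j : Fin k)
    (x : Fin k → V) (t : Fin k) (y z : V) (hjt : j ≤ t) :
    Rg k P j (Function.update x t y) z ↔ Rg k P j x z := by
  have h : ∀ i, i < j → Function.update x t y i = x i := by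
    intro i hi
    exact Function.update_of_ne (by
      intro h; rw [h] at hi; exact absurd (lt_of_lt_of_le hi hjt) (lt_irrefl _)) _ _
  unfold Rg
  have h2 : ∑ i ∈ univ.filter (fun i => i < j), loss P (Function.update x t y i) z =
      ∑ i ∈ univ.filter (fun i => i < j), loss P (x i) z := by
    refine Finset.sum_congr rfl fun i hi => ?_
    rw [h i (Finset.mem_filter.mp hi).2]
  rw [h2]
  constructor
  · rintro ⟨h3, h4⟩
    exact ⟨fun i hi => by rw [← h i hi]; exact h3 i hi, h4⟩
  · rintro ⟨h3, h4⟩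
    exact ⟨fun i hi => by rw [h i hi]; exact h3 i hi, h4⟩

theorem greedy_rainbow' {V : Type} {k r : ℕ} (hk : 2 ≤ k) (hr : 2 ≤ r) (hA : ArithOK k r)
    (P : V → V → Finset (Fin r)) (x : Fin k → V) (h : ∀ j, Rg k P j x (x j)) :
    Rainbowable k P x :=
  greedy_rainbow hk hr hA P x (fun i j hij => (h j).1 i hij) (fun j => (h j).2)

/-- a palette with at most one colour has full loss -/
theorem loss_eq_of_card_lt {V : Type} {r : ℕ} (P : V → V → Finset (Fin r)) (x y : V)
    (h : (P x y).card < 2) : loss P x y = Real.log r := by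
  unfold loss wt
  have : (P x y).card = 0 ∨ (P x y).card = 1 := by omega
  rcases this with h1 | h1 <;> rw [h1] <;> simp

open Classical in
theorem upper (k r : ℕ) (hk : 4 ≤ k) (hr : 2 ≤ r) (hA : ArithOK k r) (ε : ℝ) (hε : 0 < ε) :
    ∃ ε' : ℝ, 0 < ε' ∧ ∃ n0 : ℕ, ∀ (V : Type) (P : V → V → Finset (Fin r)),
      (∀ x y, P x y = P y x) → (∀ x, P x x = ∅) → ∀ W : Finset V, n0 ≤ W.card →
      (((tup k W).filter (fun x => Rainbowable k P x)).card : ℝ) ≤ ε' * (W.card : ℝ) ^ k →
      ∑ x ∈ W, ∑ y ∈ W, wt P x y ≤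
        ((1 - 1 / ((k - 1 : ℕ) : ℝ)) * Real.log r + ε) * (W.card : ℝ) ^ 2 := by
  set L := Real.log r with hL
  have hLpos : 0 < L := Real.log_pos (by exact_mod_cast (by omega : 1 < r))
  set u : ℝ := ((k - 1 : ℕ) : ℝ) with hu
  have hu3 : (3 : ℝ) ≤ u := by rw [hu]; exact_mod_cast (by omega : 3 ≤ k - 1)
  have hu0 : 0 < u := by linarith
  -- constants
  set δ : ℝ := min 1 (u * ε / (4 * L)) with hδ
  have hδ0 : 0 < δ := lt_min one_pos (by positivity)
  have hδ1 : δ ≤ 1 := min_le_left _ _
  have hδ2 : δ * (4 * L) ≤ u * ε := by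
    have := min_le_right 1 (u * ε / (4 * L))
    rw [← hδ] at this
    rwa [le_div_iff₀ (by positivity)] at this
  -- size constant
  set s : ℝ := Real.sqrt (ε / (2 * L)) with hs
  have hs0 : 0 < s := Real.sqrt_pos.mpr (by positivity)
  have hs2 : s ^ 2 = ε / (2 * L) := Real.sq_sqrt (by positivity)
  refine ⟨δ ^ k * s ^ k / 2, by positivity, ⌈2 * (L + ε) / (ε * s)⌉₊ + 1, ?_⟩
  intro V P hsymm hdiag W hWn hrain
  by_contra hcon
  push Not at hcon
  set α : ℝ := (1 - 1 / u) * L + ε / 2 with hα
  have hu1 : 1 / u ≤ 1 / 3 := by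
    apply one_div_le_one_div_of_le (by norm_num) hu3
  have hα0 : 0 < α := by
    have : 0 < (1 - 1 / u) * L := mul_pos (by linarith) hLpos
    linarith
  have hαL : α ≤ L + ε := by
    have : (1 - 1 / u) * L ≤ 1 * L :=
      mul_le_mul_of_nonneg_right (by have := one_div_pos.mpr hu0; linarith) hLpos.le
    linarith
  obtain ⟨W', hW'W, hval, hdeg⟩ := dense_subset (wt P) (fun x y => by unfold wt; rw [hsymm])
    (fun x => by unfold wt; rw [hdiag]; simp) W α
  set n : ℝ := (W.card : ℝ) with hn
  set n' : ℝ := (W'.card : ℝ) with hn'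
  have hn1 : (1 : ℝ) ≤ n := by
    rw [hn]; exact_mod_cast (by omega : 1 ≤ W.card)
  have hwtsum : ∑ x ∈ W', ∑ y ∈ W', wt P x y ≤ L * n' ^ 2 := by
    calc ∑ x ∈ W', ∑ y ∈ W', wt P x y ≤ ∑ x ∈ W', ∑ y ∈ W', L :=
          Finset.sum_le_sum fun x _ => Finset.sum_le_sum fun y _ => wt_le P x y
      _ = L * n' ^ 2 := by
          simp only [Finset.sum_const, nsmul_eq_mul]
          rw [hn']; ring
  -- `n'` is large
  have hn's : s * n ≤ n' := by
    have h1 : ε / 2 * n ^ 2 ≤ L * n' ^ 2 := by
      have h2 : 0 ≤ α * n' ^ 2 := by positivity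
      nlinarith
    have h3 : (s * n) ^ 2 ≤ n' ^ 2 := by
      rw [mul_pow, hs2]
      rw [div_mul_eq_mul_div, div_le_iff₀ (by positivity)]
      nlinarith
    exact le_of_sq_le_sq h3 (by positivity)
  have hn'0 : 0 < n' := lt_of_lt_of_le (by positivity) hn's
  have hnbig : 2 * (L + ε) / ε ≤ n' := by
    have h1 : 2 * (L + ε) / (ε * s) ≤ n := by
      refine (Nat.le_ceil _).trans ?_
      rw [hn]
      exact_mod_cast (by omega : ⌈2 * (L + ε) / (ε * s)⌉₊ ≤ W.card)
    refine le_trans ?_ hn's
    have h2 := mul_le_mul_of_nonneg_left h1 hs0.le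
    refine le_trans (le_of_eq ?_) h2
    field_simp
  -- losses
  have hloss : ∀ x ∈ W', ∑ y ∈ W', loss P x y ≤ (L / u - ε / 4) * n' := by
    intro x hx
    have h1 := hdeg x hx
    have h2 : ∑ y ∈ W', loss P x y = L * n' - ∑ y ∈ W', wt P x y := by
      unfold loss
      rw [Finset.sum_sub_distrib]
      simp only [Finset.sum_const, nsmul_eq_mul]
      rw [hn']; ring
    rw [h2]
    have h3 : 2 * (L + ε) ≤ n' * ε := by rwa [div_le_iff₀ hε] at hnbig
    have h4 : α * n' = L * n' - L / u * n' + ε / 2 * n' := by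
      rw [hα]; field_simp
    rw [h4] at h1
    nlinarith
  -- extension
  have hext : ∀ x ∈ tup k W', True → ∀ t : Fin k, 0 ≤ t.val → t.val < k →
      (∀ j : Fin k, 0 ≤ j.val → j < t → Rg k P j x (x j)) →
      δ * (W'.card : ℝ) ≤ ((W'.filter (fun y => Rg k P t x y)).card : ℝ) := by
    intro x hx _ t _ _ _
    rw [← hn']
    rcases Nat.eq_zero_or_pos t.val with ht | ht
    · have : W'.filter (fun y => Rg k P t x y) = W' := by
        apply Finset.filter_true_of_mem
        intro y _
        have hno : ∀ i : Fin k, ¬ i < t := by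
          intro i hi
          rw [Fin.lt_def] at hi
          omega
        refine ⟨fun i hi => absurd hi (hno i), ?_⟩
        rw [Finset.sum_eq_zero]
        · rw [ht]; simp
        · intro i hi
          exact absurd (Finset.mem_filter.mp hi).2 (hno i)
      rw [this, ← hn']
      nlinarith
    · have htr : (1 : ℝ) ≤ (t.val : ℝ) := by exact_mod_cast ht
      have htu : (t.val : ℝ) ≤ u := by
        rw [hu]
        have := t.isLt
        exact_mod_cast (by omega : t.val ≤ k - 1)
      -- total loss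
      have h1 : ∑ y ∈ W', ∑ i ∈ univ.filter (fun i => i < t), loss P (x i) y ≤
          (t.val : ℝ) * ((L / u - ε / 4) * n') := by
        rw [Finset.sum_comm]
        calc ∑ i ∈ univ.filter (fun i => i < t), ∑ y ∈ W', loss P (x i) y
            ≤ ∑ i ∈ univ.filter (fun i => i < t), (L / u - ε / 4) * n' :=
              Finset.sum_le_sum fun i _ => hloss (x i) (mem_tup.mp hx i)
          _ = (t.val : ℝ) * ((L / u - ε / 4) * n') := by
              rw [Finset.sum_const, nsmul_eq_mul]
              have : univ.filter (fun i => i < t) = Finset.Iio t := by ext; simp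
              rw [this, Fin.card_Iio]
      -- bad vertices
      have h2 : (t.val : ℝ) / u * L * ((W'.filter (fun y => ¬ Rg k P t x y)).card : ℝ) ≤
          ∑ y ∈ W', ∑ i ∈ univ.filter (fun i => i < t), loss P (x i) y := by
        calc (t.val : ℝ) / u * L * ((W'.filter (fun y => ¬ Rg k P t x y)).card : ℝ)
            = ∑ y ∈ W'.filter (fun y => ¬ Rg k P t x y), (t.val : ℝ) / u * L := by
              rw [Finset.sum_const, nsmul_eq_mul]; ring
          _ ≤ ∑ y ∈ W'.filter (fun y => ¬ Rg k P t x y),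
                ∑ i ∈ univ.filter (fun i => i < t), loss P (x i) y := by
              refine Finset.sum_le_sum fun y hy => ?_
              have hy' := (Finset.mem_filter.mp hy).2
              unfold Rg at hy'
              by_cases hc : ∀ i, i < t → 2 ≤ (P (x i) y).card
              · have : ¬ _ := fun h => hy' ⟨hc, h⟩
                exact (not_le.mp this).le
              · push Not at hc
                obtain ⟨i, hi, hc⟩ := hc
                calc (t.val : ℝ) / u * L ≤ 1 * L := by
                      apply mul_le_mul_of_nonneg_right _ hLpos.le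
                      rwa [div_le_one hu0]
                  _ = loss P (x i) y := by
                      rw [one_mul, loss_eq_of_card_lt P _ _ hc]
                  _ ≤ _ := Finset.single_le_sum (f := fun i => loss P (x i) y)
                      (fun i _ => loss_nonneg P _ _)
                      (Finset.mem_filter.mpr ⟨Finset.mem_univ _, hi⟩)
          _ ≤ _ := Finset.sum_le_sum_of_subset_of_nonneg (Finset.filter_subset _ _)
              fun y _ _ => Finset.sum_nonneg fun i _ => loss_nonneg P _ _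
      have h3 : ((W'.filter (fun y => Rg k P t x y)).card : ℝ) +
          ((W'.filter (fun y => ¬ Rg k P t x y)).card : ℝ) = n' := by
        rw [hn']
        exact_mod_cast Finset.card_filter_add_card_filter_not (s := W') (fun y => Rg k P t x y)
      set g : ℝ := ((W'.filter (fun y => Rg k P t x y)).card : ℝ)
      set b : ℝ := ((W'.filter (fun y => ¬ Rg k P t x y)).card : ℝ)
      have h4 : (t.val : ℝ) / u * L * b ≤ (t.val : ℝ) * ((L / u - ε / 4) * n') := h2.trans h1
      have h5 : L / u * b ≤ (L / u - ε / 4) * n' := by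
        have : (t.val : ℝ) * (L / u * b) ≤ (t.val : ℝ) * ((L / u - ε / 4) * n') := by
          calc (t.val : ℝ) * (L / u * b) = (t.val : ℝ) / u * L * b := by ring
            _ ≤ _ := h4
        exact le_of_mul_le_mul_left this (by linarith)
      have h6 : L * b ≤ (L - u * ε / 4) * n' := by
        have := mul_le_mul_of_nonneg_left h5 hu0.le
        have e1 : u * (L / u * b) = L * b := by field_simp
        have e2 : u * ((L / u - ε / 4) * n') = (L - u * ε / 4) * n' := by field_simp
        rw [e1, e2] at this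
        exact this
      have h7 : u * ε / 4 * n' ≤ L * g := by nlinarith
      have h8 : L * (δ * n') ≤ L * g := by nlinarith
      exact le_of_mul_le_mul_left h8 hLpos
  have htree := tree_count (J := k) W' 0 (fun _ => True) (fun j x y => Rg k P j x y) δ hδ0.le
    (fun _ _ _ _ => Iff.rfl) (fun j x t y z hjt => Rg_update P j x t y z hjt) k (Nat.zero_le _)
    le_rfl hext
  simp only [Nat.sub_zero, Finset.filter_true, true_and, Nat.zero_le, true_imp_iff] at htree
  rw [card_tup] at htree
  push_cast at htree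
  rw [← hn'] at htree
  have hsub : (((tup k W').filter (fun x => ∀ j : Fin k, j.val < k → Rg k P j x (x j))).card : ℝ)
      ≤ (((tup k W).filter (fun x => Rainbowable k P x)).card : ℝ) := by
    norm_cast
    apply Finset.card_le_card
    intro x hx
    rw [Finset.mem_filter] at hx ⊢
    refine ⟨?_, ?_⟩
    · rw [mem_tup]
      exact fun i => hW'W (mem_tup.mp hx.1 i)
    · exact greedy_rainbow' (by omega) hr hA P x (fun j => hx.2 j j.isLt)
  have hfin : δ ^ k * (s * n) ^ k ≤ δ ^ k * s ^ k / 2 * n ^ k := by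
    calc δ ^ k * (s * n) ^ k ≤ δ ^ k * n' ^ k := by
          apply mul_le_mul_of_nonneg_left _ (by positivity)
          exact pow_le_pow_left₀ (by positivity) hn's k
      _ ≤ _ := htree.trans (hsub.trans hrain)
  rw [mul_pow] at hfin
  have hpos : 0 < δ ^ k * s ^ k * n ^ k := by positivity
  nlinarith

end Pool.Agent.TH477.RB
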