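import Pool.Agent.TH477.RB.Near2
import Pool.Agent.TH639.J5
import Pool.Agent.TH639.J6

/-!
Counting colourings: restriction to injective images, stars.
-/

set_option autoImplicit false

namespace Pool.Agent.TH477.RB

open Finset

theorem card_comp_inj {E I : Type} [Fintype E] [Fintype I] (r : ℕ) (g : I → E)
    (hg : Function.Injective g) (Q : (I → Fin r) → Prop) :
    Nat.card {ψ : E → Fin r // Q (ψ ∘ g)} =
      Nat.card {φ : I → Fin r // Q φ} * r ^ (Fintype.card E - Fintype.card I) := by
  classical
  let F : {ψ : E → Fin r // Q (ψ ∘ g)} ≃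
      {φ : I → Fin r // Q φ} × ({e : E // e ∉ Set.range g} → Fin r) :=
    { toFun := fun ψ => (⟨ψ.1 ∘ g, ψ.2⟩, fun e => ψ.1 e.1)
      invFun := fun p => ⟨fun e => if h : ∃ i, g i = e then p.1.1 h.choose else
        p.2 ⟨e, fun h' => h h'⟩, by
          have : (fun e => if h : ∃ i, g i = e then p.1.1 h.choose else
              p.2 ⟨e, fun h' => h h'⟩) ∘ g = p.1.1 := by
            funext i
            have h : ∃ i', g i' = g i := ⟨i, rfl⟩
            simp only [Function.comp_apply]
            rw [dif_pos h]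
            exact congrArg p.1.1 (hg h.choose_spec)
          rw [this]
          exact p.1.2⟩
      left_inv := by
        rintro ⟨ψ, hψ⟩
        apply Subtype.ext
        funext e
        simp only [Function.comp_apply]
        split_ifs with h
        · rw [h.choose_spec]
        · rfl
      right_inv := by
        rintro ⟨⟨φ, hφ⟩, ρ⟩
        apply Prod.ext
        · apply Subtype.ext
          funext i
          have h : ∃ i', g i' = g i := ⟨i, rfl⟩
          simp only [Function.comp_apply]
          rw [dif_pos h]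
          congr 1
          exact hg h.choose_spec
        · funext e
          have h : ¬ ∃ i, g i = e.1 := fun h => e.2 h
          simp only
          rw [dif_neg h] }
  rw [Nat.card_congr F, Nat.card_prod]
  congr 1
  rw [Nat.card_eq_fintype_card, Fintype.card_fun, Fintype.card_fin]
  congr 1
  rw [Fintype.card_subtype_compl, ← Set.card_range_of_injective hg]

theorem card_rows {W Z : Type} [Fintype W] [Fintype Z] (r : ℕ) (q : (Z → Fin r) → Prop) :
    Nat.card {φ : W × Z → Fin r // ∀ w, q (fun z => φ (w, z))} =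
      (Nat.card {x : Z → Fin r // q x}) ^ Fintype.card W := by
  classical
  let F : {φ : W × Z → Fin r // ∀ w, q (fun z => φ (w, z))} ≃ (W → {x : Z → Fin r // q x}) :=
    { toFun := fun φ w => ⟨fun z => φ.1 (w, z), φ.2 w⟩
      invFun := fun f => ⟨fun p => (f p.1).1 p.2, fun w => (f w).2⟩
      left_inv := by
        rintro ⟨φ, hφ⟩
        rfl
      right_inv := by
        intro f
        rfl }
  rw [Nat.card_congr F, Nat.card_fun, Nat.card_eq_fintype_card (α := W)]

theorem RF_iff_Good {V : Type} (r k : ℕ) (G : SimpleGraph V) (ψ : Sym2 V → Fin r) :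
    RF r k G ψ ↔ Good r k G (ψ ∘ Subtype.val) := by
  unfold RF Good
  constructor
  · intro h S hS
    obtain ⟨e, f, hef, he, hf, h1, h2, h3⟩ := h S hS
    exact ⟨⟨e, he⟩, ⟨f, hf⟩, fun h => hef (congrArg Subtype.val h), h1, h2, h3⟩
  · intro h S hS
    obtain ⟨e, f, hef, h1, h2, h3⟩ := h S hS
    exact ⟨e.1, f.1, fun h => hef (Subtype.ext h), e.2, f.2, h1, h2, h3⟩

open Classical in
theorem N_eq {V : Type} [Fintype V] (r k : ℕ) (G : SimpleGraph V) :
    N r k G = cc r k G * r ^ (Fintype.card (Sym2 V) - Fintype.card G.edgeSet) := by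
  have h1 : N r k G = Nat.card {ψ : Sym2 V → Fin r //
      Good r k G (ψ ∘ (Subtype.val : G.edgeSet → Sym2 V))} := by
    unfold N
    exact Nat.card_congr (Equiv.subtypeEquivRight (fun ψ => RF_iff_Good r k G ψ))
  rw [h1, card_comp_inj r (Subtype.val : G.edgeSet → Sym2 V) Subtype.val_injective (Good r k G)]
  rfl

/-- the star colouring has no system of different frequent colours -/
def BadStar {n r u : ℕ} (δ : ℝ) (cls : Fin n → Option (Fin u)) (x : Fin n → Fin r) : Prop := by
  classical
  exact ¬ ∃ c : Fin u → Fin r, Function.Injective c ∧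
          ∀ i, δ * n ≤ ((univ.filter (fun y => cls y = some i ∧ x y = c i)).card : ℝ)

theorem badStar_congr {n r u : ℕ} (δ : ℝ) (cls : Fin n → Option (Fin u)) (x x' : Fin n → Fin r)
    (h : ∀ y, cls y ≠ none → x y = x' y) (hb : BadStar δ cls x) : BadStar δ cls x' := by
  classical
  unfold BadStar at hb ⊢
  rintro ⟨c, hc, h1⟩
  apply hb
  refine ⟨c, hc, fun i => ?_⟩
  refine (h1 i).trans ?_
  norm_cast
  apply Finset.card_le_card
  intro y hy
  rw [Finset.mem_filter] at hy ⊢
  refine ⟨hy.1, hy.2.1, ?_⟩
  rw [h y (by rw [hy.2.1]; simp)]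
  exact hy.2.2

open Classical in
/-- number of colourings such that all stars at exceptional vertices are bad -/
theorem stars_count {n r u : ℕ} (hr : 1 ≤ r) (δ : ℝ) (cls : Fin n → Option (Fin u)) (b : ℝ)
    (hb : (Nat.card {x : Fin n → Fin r // BadStar δ cls x} : ℝ) ≤ (r : ℝ) ^ n * b) :
    (Nat.card {ψ : Sym2 (Fin n) → Fin r // ∀ w, cls w = none →
      BadStar δ cls (fun y => ψ s(w, y))} : ℝ) ≤
      (r : ℝ) ^ Fintype.card (Sym2 (Fin n)) * b ^ (univ.filter (fun w => cls w = none)).card := by
  have hr0 : (0 : ℝ) < r := by exact_mod_cast (by omega : 0 < r)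
  let W : Type := {w : Fin n // cls w = none}
  let Z : Type := {z : Fin n // cls z ≠ none}
  let q : (Z → Fin r) → Prop := fun φ => ∀ x : Fin n → Fin r, (∀ z : Z, x z.1 = φ z) →
    BadStar δ cls x
  have hq : ∀ x : Fin n → Fin r, BadStar δ cls x ↔ q (x ∘ (Subtype.val : Z → Fin n)) := by
    intro x
    constructor
    · intro h x' hx'
      exact badStar_congr δ cls x x' (fun y hy => (hx' ⟨y, hy⟩).symm) h
    · intro h
      exact h x (fun z => rfl)
  have hcardW : Fintype.card W = (univ.filter (fun w => cls w = none)).card :=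
    Fintype.card_subtype _
  have hcardZ : Fintype.card Z + Fintype.card W = n := by
    have h1 := Fintype.card_subtype_compl (fun w : Fin n => cls w = none)
    have h2 : Fintype.card Z = Fintype.card {x : Fin n // ¬ cls x = none} := rfl
    have h3 := Fintype.card_subtype_le (fun w : Fin n => cls w = none)
    rw [Fintype.card_fin] at h1 h3
    rw [h2, h1]
    have h4 : Fintype.card W = Fintype.card {x : Fin n // cls x = none} := rfl
    rw [h4]
    omega
  -- the restricted star count
  have hB : (Nat.card {x : Fin n → Fin r // BadStar δ cls x} : ℝ) =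
      (Nat.card {φ : Z → Fin r // q φ} : ℝ) * (r : ℝ) ^ (Fintype.card W) := by
    have h1 := card_comp_inj r (Subtype.val : Z → Fin n) Subtype.val_injective q
    have h2 : Nat.card {x : Fin n → Fin r // BadStar δ cls x} =
        Nat.card {x : Fin n → Fin r // q (x ∘ (Subtype.val : Z → Fin n))} :=
      Nat.card_congr (Equiv.subtypeEquivRight hq)
    rw [h2, h1, Fintype.card_fin]
    have h3 : n - Fintype.card Z = Fintype.card W := by omega
    rw [h3]
    push_cast
    rfl
  rw [hB] at hb
  have hBZ : (Nat.card {φ : Z → Fin r // q φ} : ℝ) ≤ (r : ℝ) ^ (Fintype.card Z) * b := by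
    have h1 : (r : ℝ) ^ n = (r : ℝ) ^ (Fintype.card Z) * (r : ℝ) ^ (Fintype.card W) := by
      rw [← pow_add, hcardZ]
    rw [h1] at hb
    have h2 : (Nat.card {φ : Z → Fin r // q φ} : ℝ) * (r : ℝ) ^ (Fintype.card W) ≤
        ((r : ℝ) ^ (Fintype.card Z) * b) * (r : ℝ) ^ (Fintype.card W) := by
      refine hb.trans (le_of_eq ?_)
      ring
    exact le_of_mul_le_mul_right h2 (by positivity)
  -- the cross pairs
  let g : W × Z → Sym2 (Fin n) := fun p => s(p.1.1, p.2.1)
  have hg : Function.Injective g := by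
    rintro ⟨w, z⟩ ⟨w', z'⟩ h
    simp only [g, Sym2.eq_iff] at h
    rcases h with ⟨h1, h2⟩ | ⟨h1, h2⟩
    · rw [Prod.mk.injEq]; exact ⟨Subtype.ext h1, Subtype.ext h2⟩
    · exfalso
      apply z'.2
      rw [← h1]
      exact w.2
  have hstar : Nat.card {ψ : Sym2 (Fin n) → Fin r // ∀ w, cls w = none →
      BadStar δ cls (fun y => ψ s(w, y))} =
      Nat.card {ψ : Sym2 (Fin n) → Fin r //
        (fun φ : W × Z → Fin r => ∀ w, q (fun z => φ (w, z))) (ψ ∘ g)} := by
    apply Nat.card_congr
    apply Equiv.subtypeEquivRight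
    intro ψ
    constructor
    · intro h w
      exact (hq _).mp (h w.1 w.2)
    · intro h w hw
      exact (hq _).mpr (h ⟨w, hw⟩)
  have hcount := card_comp_inj r g hg (fun φ : W × Z → Fin r => ∀ w, q (fun z => φ (w, z)))
  rw [card_rows r q] at hcount
  rw [hstar, hcount]
  push_cast
  have hWZ : Fintype.card (W × Z) ≤ Fintype.card (Sym2 (Fin n)) :=
    Fintype.card_le_of_injective g hg
  rw [Fintype.card_prod] at hWZ ⊢
  have h0 : (0 : ℝ) ≤ (Nat.card {φ : Z → Fin r // q φ} : ℝ) := by positivity
  calc ((Nat.card {x : Z → Fin r // q x} : ℝ)) ^ Fintype.card W *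
        (r : ℝ) ^ (Fintype.card (Sym2 (Fin n)) - Fintype.card W * Fintype.card Z)
      ≤ ((r : ℝ) ^ (Fintype.card Z) * b) ^ Fintype.card W *
        (r : ℝ) ^ (Fintype.card (Sym2 (Fin n)) - Fintype.card W * Fintype.card Z) := by
        apply mul_le_mul_of_nonneg_right _ (by positivity)
        exact pow_le_pow_left₀ h0 hBZ _
    _ = (r : ℝ) ^ (Fintype.card W * Fintype.card Z +
          (Fintype.card (Sym2 (Fin n)) - Fintype.card W * Fintype.card Z)) *
          b ^ Fintype.card W := by
        rw [mul_pow, ← pow_mul, pow_add, mul_comm (Fintype.card Z)]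
        ring
    _ = _ := by
        rw [Nat.add_sub_cancel' hWZ, hcardW]

/-- the combinatorial core: a rich colouring without rainbow clique has only bad stars -/
theorem star_bad {n r u : ℕ} (hr : (u + 1).choose 2 ≤ r) (hr1 : 1 ≤ r) (G : SimpleGraph (Fin n))
    (cls : Fin n → Option (Fin u))
    (hadj : ∀ x y i, cls x = some i → (G.Adj x y ↔ cls y ≠ some i))
    (δ : ℝ) (ψ : Sym2 (Fin n) → Fin r) (hRF : RF r (u + 1) G ψ) (hrich : Rich δ cls ψ)
    (w : Fin n) (hw : cls w = none) : BadStar δ cls (fun y => ψ s(w, y)) := by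
  classical
  unfold BadStar
  rintro ⟨c, hc, hfreq⟩
  -- colours for the pairs inside
  have hcard : Fintype.card {p : Fin u × Fin u // p.1 < p.2} ≤
      Fintype.card {a : Fin r // a ∉ Set.range c} := by
    rw [Fintype.card_subtype, card_pairs, Fintype.card_subtype_compl, Fintype.card_fin,
      show Fintype.card {x // x ∈ Set.range c} = u by
        have h := Set.card_range_of_injective hc
        rw [Fintype.card_fin] at h
        refine Eq.trans ?_ h
        exact Fintype.card_congr (Equiv.refl _)]
    have : (u + 1).choose 2 = u + u.choose 2 := by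
      rw [Nat.choose_succ_succ' u 1, Nat.choose_one_right]
    omega
  obtain ⟨f⟩ := Function.Embedding.nonempty_of_card_le hcard
  let c0 : Fin r := ⟨0, by omega⟩
  let col : Fin u → Fin u → Fin r := fun i j => if h : i < j then (f ⟨(i, j), h⟩).1 else c0
  have hcol1 : ∀ i j, i < j → ∀ l, col i j ≠ c l := by
    intro i j hij l h
    simp only [col, dif_pos hij] at h
    exact (f ⟨(i, j), hij⟩).2 ⟨l, h.symm⟩
  have hcol2 : ∀ i j i' j', i < j → i' < j' → col i j = col i' j' → i = i' ∧ j = j' := by
    intro i j i' j' hij hij' h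
    simp only [col, dif_pos hij, dif_pos hij'] at h
    have := f.injective (Subtype.ext h)
    simp only [Subtype.mk.injEq, Prod.mk.injEq] at this
    exact this
  obtain ⟨a, haA, hacol⟩ := hrich (fun i => univ.filter (fun y => cls y = some i ∧ ψ s(w, y) = c i))
    (fun i x hx => (Finset.mem_filter.mp hx).2.1) (fun i => hfreq i) col
  have hacls : ∀ i, cls (a i) = some i := fun i => (Finset.mem_filter.mp (haA i)).2.1
  have hac : ∀ i, ψ s(w, a i) = c i := fun i => (Finset.mem_filter.mp (haA i)).2.2
  have hGood := (RF_iff_Good r (u + 1) G ψ).mp hRF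
  let x : Fin (u + 1) → Fin n := Fin.cons w a
  let col' : Fin (u + 1) → Fin (u + 1) → Fin r :=
    fun i j => Fin.cases (Fin.cases c0 (fun j' => c j') j)
      (fun i' => Fin.cases c0 (fun j' => col i' j') j) i
  have hx0 : x 0 = w := rfl
  have hxs : ∀ i : Fin u, x i.succ = a i := fun i => rfl
  have hc0s : ∀ j : Fin u, col' 0 j.succ = c j := fun j => rfl
  have hcss : ∀ i j : Fin u, col' i.succ j.succ = col i j := fun i j => rfl
  have hcol' : ∀ i j i' j', i < j → i' < j' → col' i j = col' i' j' → i = i' ∧ j = j' := by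
    intro i j i' j' hij hij'
    have hj0 : j ≠ 0 := Fin.ne_zero_of_lt hij
    have hj0' : j' ≠ 0 := Fin.ne_zero_of_lt hij'
    obtain ⟨j, rfl⟩ := Fin.exists_succ_eq.mpr hj0
    obtain ⟨j', rfl⟩ := Fin.exists_succ_eq.mpr hj0'
    rcases Fin.eq_zero_or_eq_succ i with rfl | ⟨i, rfl⟩ <;>
      rcases Fin.eq_zero_or_eq_succ i' with rfl | ⟨i', rfl⟩
    · rw [hc0s, hc0s]
      intro h
      exact ⟨rfl, by rw [hc h]⟩
    · rw [hc0s, hcss]
      intro h
      exact absurd h.symm (hcol1 i' j' (Fin.succ_lt_succ_iff.mp hij') j)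
    · rw [hc0s, hcss]
      intro h
      exact absurd h (hcol1 i j (Fin.succ_lt_succ_iff.mp hij) j')
    · rw [hcss, hcss]
      intro h
      have := hcol2 i j i' j' (Fin.succ_lt_succ_iff.mp hij) (Fin.succ_lt_succ_iff.mp hij') h
      rw [this.1, this.2]
      exact ⟨rfl, rfl⟩
  have hzero := prod_kern_eq_zero G (ψ ∘ Subtype.val) hGood col' hcol' x
  rw [Finset.prod_eq_zero_iff] at hzero
  obtain ⟨⟨i, j⟩, hp, hk⟩ := hzero
  have hij : i < j := (Finset.mem_filter.mp hp).2
  simp only at hk
  have hj0 : j ≠ 0 := Fin.ne_zero_of_lt hij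
  obtain ⟨j, rfl⟩ := Fin.exists_succ_eq.mpr hj0
  rcases Fin.eq_zero_or_eq_succ i with rfl | ⟨i, rfl⟩
  · rw [hc0s, hx0, hxs] at hk
    have hA : G.Adj w (a j) := ((hadj (a j) w j (hacls j)).mpr (by rw [hw]; simp)).symm
    unfold kern at hk
    rw [dif_pos hA] at hk
    simp only [Function.comp_apply] at hk
    rw [if_pos (hac j)] at hk
    exact one_ne_zero hk
  · have hij' : i < j := Fin.succ_lt_succ_iff.mp hij
    rw [hcss, hxs, hxs] at hk
    have hA : G.Adj (a i) (a j) := (hadj (a i) (a j) i (hacls i)).mpr (by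
      rw [hacls j]
      intro h
      have := Option.some_injective _ h
      rw [this] at hij'
      exact lt_irrefl _ hij')
    unfold kern at hk
    rw [dif_pos hA] at hk
    simp only [Function.comp_apply] at hk
    rw [if_pos (hacol i j hij')] at hk
    exact one_ne_zero hk

end Pool.Agent.TH477.RB
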