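import Pool.Agent.TH477.RB.Exact1
import Pool.Agent.TH477.RB.Sym
import Pool.Agent.TH635.J3

/-!
Exactness: complete multipartite extremal graphs have at most `k-1` parts, and the main upper bound.
-/

set_option autoImplicit false

namespace Pool.Agent.TH477.RB

open Finset

open Classical in
theorem multipartite_cliqueFree (u r : ℕ) (hu : 3 ≤ u) (hr : (u + 1).choose 2 ≤ r)
    (hA : ArithOK (u + 1) r) :
    ∃ n0 : ℕ, ∀ n : ℕ, n0 ≤ n → ∀ G : SimpleGraph (Fin n),
      (∀ H : SimpleGraph (Fin n), cc r (u + 1) H ≤ cc r (u + 1) G) →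
      (∀ x y z, ¬ G.Adj x y → ¬ G.Adj y z → ¬ G.Adj x z) → G.CliqueFree (u + 1) := by
  have hr6 : 6 ≤ r := by
    have : (4).choose 2 ≤ (u + 1).choose 2 := Nat.choose_le_choose 2 (by omega)
    have h6 : (4).choose 2 = 6 := by decide
    omega
  have hr2 : 2 ≤ r := by omega
  have hr0 : (0 : ℝ) < r := by exact_mod_cast (by omega : 0 < r)
  set L := Real.log r with hL
  have hLpos : 0 < L := Real.log_pos (by exact_mod_cast (by omega : 1 < r))
  have hu0 : (0 : ℝ) < u := by exact_mod_cast (by omega : 0 < u)
  obtain ⟨γ, hγ, η0, hη0, δ, hδ, n1, hext⟩ := Pool.Agent.TH639.J6.ext_bound r u (by omega) hr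
  obtain ⟨c, hc, n2, hrich⟩ := Pool.Agent.TH639.J5.rich_bound r u (by omega) (by omega) δ hδ
  set η : ℝ := min η0 (c / (2 * L)) with hη
  have hη00 : 0 < η := lt_min hη0 (by positivity)
  have hηa : η ≤ η0 := min_le_left _ _
  have hηb : L * η ≤ c / 2 := by
    have : η ≤ c / (2 * L) := min_le_right _ _
    rw [le_div_iff₀ (by positivity)] at this
    linarith
  obtain ⟨n3, hnear⟩ := near_turan (u + 1) r (by omega) hr hA η hη00
  have hu1 : u + 1 - 1 = u := rfl
  rw [hu1] at hnear
  set K : ℝ := L * ((u : ℝ) ^ 2 + 2) / 2 with hK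
  have hK0 : 0 < K := by positivity
  refine ⟨max (max n1 n2) (max n3 (max (⌈2 * (K + 1) / c⌉₊ + 1) (⌈(K + 1) / γ⌉₊ + 1))), ?_⟩
  intro n hn G hmax hcm
  have hn1 : n1 ≤ n := (le_max_left _ _).trans ((le_max_left _ _).trans hn)
  have hn2 : n2 ≤ n := (le_max_right _ _).trans ((le_max_left _ _).trans hn)
  have hn' := (le_max_right _ _).trans hn
  have hn3 : n3 ≤ n := (le_max_left _ _).trans hn'
  have hn'' := (le_max_right _ _).trans hn'
  have hn4 : ⌈2 * (K + 1) / c⌉₊ + 1 ≤ n := (le_max_left _ _).trans hn''
  have hn5 : ⌈(K + 1) / γ⌉₊ + 1 ≤ n := (le_max_right _ _).trans hn''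
  have hnr : (1 : ℝ) ≤ (n : ℝ) := by exact_mod_cast (by omega : 1 ≤ n)
  have hnn : (n : ℝ) ≤ (n : ℝ) ^ 2 := by
    rw [pow_two]
    exact le_mul_of_one_le_left (by linarith) hnr
  have hn4' : K + 1 ≤ c / 2 * (n : ℝ) ^ 2 := by
    have h1 : 2 * (K + 1) / c ≤ n := (Nat.le_ceil _).trans (by exact_mod_cast (by omega))
    rw [div_le_iff₀ hc] at h1
    have h2 : n * c ≤ (n : ℝ) ^ 2 * c := mul_le_mul_of_nonneg_right hnn hc.le
    linarith
  have hn5' : K + 1 ≤ γ * n := by
    have h1 : (K + 1) / γ ≤ n := (Nat.le_ceil _).trans (by exact_mod_cast (by omega))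
    rw [div_le_iff₀ hγ] at h1
    linarith
  obtain ⟨cls, hsize, hadj⟩ := hnear n hn3 G (hmax _) hcm
  -- no exceptional vertex
  have hnoW : ∀ w, cls w ≠ none := by
    by_contra hcon
    push Not at hcon
    obtain ⟨w0, hw0⟩ := hcon
    set m := (univ.filter (fun w => cls w = none)).card with hm
    have hm1 : 1 ≤ m := by
      rw [hm]
      exact Finset.card_pos.mpr ⟨w0, Finset.mem_filter.mpr ⟨Finset.mem_univ _, hw0⟩⟩
    have hm1r : (1 : ℝ) ≤ m := by exact_mod_cast hm1
    -- sizes
    have hsizes : ∑ i, ((univ.filter (fun x => cls x = some i)).card : ℝ) + (m : ℝ) = n := by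
      have h1 : (univ : Finset (Fin n)).card =
          ∑ o : Option (Fin u), (univ.filter (fun x => cls x = o)).card :=
        Finset.card_eq_sum_card_fiberwise (fun _ _ => Finset.mem_coe.mpr (Finset.mem_univ _))
      rw [Finset.card_univ, Fintype.card_fin, Fintype.sum_option] at h1
      have h2 : (n : ℝ) = ((univ.filter (fun x => cls x = none)).card : ℝ) +
          ∑ i, ((univ.filter (fun x => cls x = some i)).card : ℝ) := by exact_mod_cast h1
      rw [hm]
      linarith
    have hmu : (m : ℝ) ≤ u * (η * n) := by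
      have h1 : ∑ i : Fin u, ((n : ℝ) / u - η * n) ≤
          ∑ i, ((univ.filter (fun x => cls x = some i)).card : ℝ) := by
        refine Finset.sum_le_sum fun i _ => ?_
        have := (abs_le.mp (hsize i)).1
        linarith
      rw [Finset.sum_const, Finset.card_univ, Fintype.card_fin, nsmul_eq_mul] at h1
      have h2 : (u : ℝ) * ((n : ℝ) / u - η * n) = n - u * (η * n) := by field_simp
      rw [h2] at h1
      linarith
    -- counting the colourings of all pairs
    have hstars := stars_count (n := n) (r := r) (u := u) (by omega) δ cls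
      (Real.exp (-(L / u + γ) * n)) (by
        have h1 := hext n hn1 cls (fun i => (hsize i).trans
          (mul_le_mul_of_nonneg_right hηa (by linarith)))
        exact h1)
    rw [← hm, ← Real.exp_nat_mul] at hstars
    have hN : (N r (u + 1) G : ℝ) ≤ (r : ℝ) ^ Fintype.card (Sym2 (Fin n)) *
        (Real.exp (-c * (n : ℝ) ^ 2) + Real.exp ((m : ℝ) * (-(L / u + γ) * n))) := by
      have h1 : N r (u + 1) G ≤ Nat.card {ψ : Sym2 (Fin n) → Fin r // ¬ Rich δ cls ψ} +
          Nat.card {ψ : Sym2 (Fin n) → Fin r // ∀ w, cls w = none →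
            BadStar δ cls (fun y => ψ s(w, y))} := by
        unfold N
        rw [Nat.card_eq_fintype_card, Nat.card_eq_fintype_card, Nat.card_eq_fintype_card,
          Fintype.card_subtype, Fintype.card_subtype, Fintype.card_subtype]
        refine le_trans (Finset.card_le_card ?_) (Finset.card_union_le _ _)
        intro ψ hψ
        rw [Finset.mem_filter] at hψ
        rw [Finset.mem_union, Finset.mem_filter, Finset.mem_filter]
        by_cases h : Rich δ cls ψ
        · right
          exact ⟨Finset.mem_univ _, fun w hw => star_bad hr (by omega) G cls hadj δ ψ hψ.2 h w hw⟩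
        · exact Or.inl ⟨Finset.mem_univ _, h⟩
      have h2 : (N r (u + 1) G : ℝ) ≤
          (Nat.card {ψ : Sym2 (Fin n) → Fin r // ¬ Rich δ cls ψ} : ℝ) +
          (Nat.card {ψ : Sym2 (Fin n) → Fin r // ∀ w, cls w = none →
            BadStar δ cls (fun y => ψ s(w, y))} : ℝ) := by exact_mod_cast h1
      have h3 := hrich n hn2 cls
      linarith
    -- relation with the number of colourings of `G`
    have hNcc := N_eq r (u + 1) G
    set e := Fintype.card G.edgeSet with he
    have heS : e ≤ Fintype.card (Sym2 (Fin n)) :=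
      Fintype.card_le_of_injective (Subtype.val : G.edgeSet → Sym2 (Fin n)) Subtype.val_injective
    have hcc : (cc r (u + 1) G : ℝ) ≤ (r : ℝ) ^ e *
        (Real.exp (-c * (n : ℝ) ^ 2) + Real.exp ((m : ℝ) * (-(L / u + γ) * n))) := by
      have h1 : (cc r (u + 1) G : ℝ) * (r : ℝ) ^ (Fintype.card (Sym2 (Fin n)) - e) ≤
          ((r : ℝ) ^ e * (Real.exp (-c * (n : ℝ) ^ 2) +
            Real.exp ((m : ℝ) * (-(L / u + γ) * n)))) *
            (r : ℝ) ^ (Fintype.card (Sym2 (Fin n)) - e) := by
        have h2 : (N r (u + 1) G : ℝ) =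
            (cc r (u + 1) G : ℝ) * (r : ℝ) ^ (Fintype.card (Sym2 (Fin n)) - e) := by
          rw [hNcc]; push_cast; rfl
        rw [← h2]
        refine hN.trans (le_of_eq ?_)
        have h3 : (r : ℝ) ^ Fintype.card (Sym2 (Fin n)) =
            (r : ℝ) ^ e * (r : ℝ) ^ (Fintype.card (Sym2 (Fin n)) - e) := by
          rw [← pow_add, Nat.add_sub_cancel' heS]
        rw [h3]; ring
      exact le_of_mul_le_mul_right h1 (by positivity)
    -- the Turán graph
    have hT := hmax (SimpleGraph.turanGraph n u)
    rw [cc_eq_pow r (u + 1) _ (SimpleGraph.turanGraph_cliqueFree (by omega))] at hT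
    set t := Fintype.card (SimpleGraph.turanGraph n u).edgeSet with ht
    have hTr : (r : ℝ) ^ t ≤ (r : ℝ) ^ e *
        (Real.exp (-c * (n : ℝ) ^ 2) + Real.exp ((m : ℝ) * (-(L / u + γ) * n))) := by
      refine le_trans ?_ hcc
      exact_mod_cast hT
    have hpow : ∀ j : ℕ, (r : ℝ) ^ j = Real.exp (j * L) := by
      intro j
      rw [Real.exp_nat_mul, Real.exp_log hr0]
    rw [hpow, hpow] at hTr
    -- edge counts
    have ht_low := turan_lower u n (by omega)
    rw [← ht] at ht_low
    have he_up : 2 * (e : ℝ) ≤ (1 - 1 / (u : ℝ)) * (n : ℝ) ^ 2 + 2 * (n * m / u) := by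
      have h1 := card_adj_pairs G
      rw [← he] at h1
      rw [← h1, ← Jp_eq]
      have h2 : Jp (fun x y => G.Adj x y) + ∑ i, Jp (fun x y => cls x = some i ∧ cls y = some i) ≤
          (n : ℝ) ^ 2 := by
        have h3 : ∑ i, Jp (fun x y => cls x = some i ∧ cls y = some i) ≤
            Jp (fun x y => ¬ G.Adj x y) := by
          simp only [Jp]
          rw [Finset.sum_comm' (s := (univ : Finset (Fin u))) (t := fun _ => (univ : Finset (Fin n)))
            (t' := (univ : Finset (Fin n))) (s' := fun _ => (univ : Finset (Fin u))) (by simp)]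
          refine Finset.sum_le_sum fun x _ => ?_
          rw [Finset.sum_comm]
          refine Finset.sum_le_sum fun y _ => ?_
          rcases hx : cls x with _ | i0
          · rw [Finset.sum_eq_zero]
            · exact ind_nonneg _
            · intro j _
              exact ind_neg (by simp)
          · by_cases hy : cls y = some i0
            · have hna : ¬ G.Adj x y := fun h => ((hadj x y i0 hx).mp h) hy
              rw [ind_pos hna,
                Finset.sum_eq_single i0 (fun j _ hj => ind_neg
                  (fun h => hj (Option.some_injective _ h.1).symm))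
                  (fun h => absurd (Finset.mem_univ _) h), ind_pos ⟨rfl, hy⟩]
            · rw [Finset.sum_eq_zero]
              · exact ind_nonneg _
              · intro j _
                exact ind_neg (fun h => hy (by rw [h.2, ← h.1]))
        have h4 : Jp (fun x y => ¬ G.Adj x y) + Jp (fun x y => G.Adj x y) = (n : ℝ) ^ 2 := by
          simp only [Jp]
          rw [← Finset.sum_add_distrib]
          have : ∀ x ∈ (univ : Finset (Fin n)), (∑ y, ind (¬ G.Adj x y)) +
              ∑ y, ind (G.Adj x y) = n := by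
            intro x _
            rw [← Finset.sum_add_distrib]
            rw [Finset.sum_congr rfl (g := fun _ => (1 : ℝ)) (fun y _ => by
              by_cases h : G.Adj x y
              · rw [ind_neg (not_not.mpr h), ind_pos h]; norm_num
              · rw [ind_pos h, ind_neg h]; norm_num)]
            simp
          rw [Finset.sum_congr rfl this]
          simp; ring
        linarith
      have h5 : ∑ i, Jp (fun x y => cls x = some i ∧ cls y = some i) =
          ∑ i, ((univ.filter (fun x => cls x = some i)).card : ℝ) ^ 2 := by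
        refine Finset.sum_congr rfl fun i _ => ?_
        rw [Jp_prod]; ring
      rw [h5] at h2
      have h6 := sq_sum_le_card_mul_sum_sq (s := (univ : Finset (Fin u)))
        (f := fun i => ((univ.filter (fun x => cls x = some i)).card : ℝ))
      rw [Finset.card_univ, Fintype.card_fin] at h6
      have h7 : ∑ i, ((univ.filter (fun x => cls x = some i)).card : ℝ) = n - m := by linarith
      rw [h7] at h6
      have h8 : ((n : ℝ) - m) ^ 2 / u ≤
          ∑ i, ((univ.filter (fun x => cls x = some i)).card : ℝ) ^ 2 := by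
        rw [div_le_iff₀ hu0]; linarith
      have h9 : (1 - 1 / (u : ℝ)) * (n : ℝ) ^ 2 + 2 * (n * m / u) =
          (n : ℝ) ^ 2 - ((n : ℝ) - m) ^ 2 / u + (m : ℝ) ^ 2 / u := by
        field_simp; ring
      rw [h9]
      have h10 : 0 ≤ (m : ℝ) ^ 2 / u := by positivity
      linarith
    have hdiff : (e : ℝ) * L - t * L ≤ L * (n * m / u) + K := by
      have h1 : (e : ℝ) - t ≤ n * m / u + ((u : ℝ) ^ 2 + 2) / 2 := by linarith
      have h2 := mul_le_mul_of_nonneg_right h1 hLpos.le
      have e1 : (e : ℝ) * L - t * L = ((e : ℝ) - t) * L := by ring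
      have e2 : L * (n * m / u) + K = (n * m / u + ((u : ℝ) ^ 2 + 2) / 2) * L := by rw [hK]; ring
      rw [e1, e2]
      exact h2
    -- final contradiction
    have hone : (1 : ℝ) ≤ Real.exp (L * (n * m / u) + K) *
        (Real.exp (-c * (n : ℝ) ^ 2) + Real.exp ((m : ℝ) * (-(L / u + γ) * n))) := by
      have h1 : (1 : ℝ) = Real.exp (-(t * L)) * Real.exp (t * L) := by
        rw [← Real.exp_add]; simp
      rw [h1]
      calc Real.exp (-(t * L)) * Real.exp (t * L)
          ≤ Real.exp (-(t * L)) * (Real.exp (e * L) *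
            (Real.exp (-c * (n : ℝ) ^ 2) + Real.exp ((m : ℝ) * (-(L / u + γ) * n)))) :=
            mul_le_mul_of_nonneg_left hTr (Real.exp_pos _).le
        _ = Real.exp (e * L - t * L) *
            (Real.exp (-c * (n : ℝ) ^ 2) + Real.exp ((m : ℝ) * (-(L / u + γ) * n))) := by
            rw [← mul_assoc, ← Real.exp_add]
            congr 2
            ring
        _ ≤ _ := by
            apply mul_le_mul_of_nonneg_right _ (by positivity)
            exact Real.exp_le_exp.mpr hdiff
    rw [mul_add, ← Real.exp_add, ← Real.exp_add] at hone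
    have hA1 : L * (n * m / u) + K + -c * (n : ℝ) ^ 2 ≤ -1 := by
      have h1 : L * (n * m / u) ≤ c / 2 * (n : ℝ) ^ 2 := by
        have h2 : (n : ℝ) * m / u ≤ η * (n : ℝ) ^ 2 := by
          rw [div_le_iff₀ hu0]
          calc (n : ℝ) * m ≤ n * (u * (η * n)) :=
                mul_le_mul_of_nonneg_left hmu (by linarith)
            _ = _ := by ring
        calc L * (n * m / u) ≤ L * (η * (n : ℝ) ^ 2) :=
              mul_le_mul_of_nonneg_left h2 hLpos.le
          _ = (L * η) * (n : ℝ) ^ 2 := by ring
          _ ≤ _ := mul_le_mul_of_nonneg_right hηb (by positivity)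
      linarith
    have hA2 : L * (n * m / u) + K + (m : ℝ) * (-(L / u + γ) * n) ≤ -1 := by
      have h1 : L * (n * m / u) + K + (m : ℝ) * (-(L / u + γ) * n) = K - γ * n * m := by
        field_simp; ring
      rw [h1]
      have h2 : γ * n * 1 ≤ γ * n * m := mul_le_mul_of_nonneg_left hm1r (by positivity)
      linarith
    have hexp : Real.exp (-1) < 1 / 2 := by
      rw [Real.exp_neg, ← one_div]
      apply one_div_lt_one_div_of_lt (by norm_num)
      have := Real.exp_one_gt_d9
      linarith
    have h1 := Real.exp_le_exp.mpr hA1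
    have h2 := Real.exp_le_exp.mpr hA2
    linarith
  -- now `G` is `u`-colourable
  have hcolor : G.Colorable u := by
    refine ⟨SimpleGraph.Coloring.mk (fun x => (cls x).get (by
      rw [Option.isSome_iff_ne_none]; exact hnoW x)) ?_⟩
    intro x y hxy heq
    have hx : cls x = some ((cls x).get (by
      rw [Option.isSome_iff_ne_none]; exact hnoW x)) := (Option.some_get _).symm
    have hy : cls y = some ((cls y).get (by
      rw [Option.isSome_iff_ne_none]; exact hnoW y)) := (Option.some_get _).symm
    apply (hadj x y _ hx).mp hxy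
    rw [heq]
    exact hy
  exact hcolor.cliqueFree (by omega)

open Classical in
/-- the upper bound: for these `r` the Turán graph is the unique extremal graph, `n` large -/
theorem turan_unique (k r : ℕ) (hk : 4 ≤ k) (h1 : (k.choose 2 - 1) ^ (k - 1) < r ^ (k - 2))
    (h2 : 3 ^ (k - 1) < r ^ 3) :
    ∃ n0 : ℕ, ∀ n : ℕ, n0 ≤ n → ∀ G : SimpleGraph (Fin n),
      ((∀ H : SimpleGraph (Fin n), cc r k H ≤ cc r k G) ↔
        Nonempty (G ≃g SimpleGraph.turanGraph n (k - 1))) := by
  -- `r` is at least `k.choose 2`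
  have hr : k.choose 2 ≤ r := by
    by_contra hlt
    push Not at hlt
    have hQ : r ≤ k.choose 2 - 1 := by omega
    have h3 : r ^ (k - 2) ≤ (k.choose 2 - 1) ^ (k - 2) := Nat.pow_le_pow_left hQ _
    have h4 : (k.choose 2 - 1) ^ (k - 2) ≤ (k.choose 2 - 1) ^ (k - 1) := by
      apply Nat.pow_le_pow_right _ (by omega)
      have : (4).choose 2 ≤ k.choose 2 := Nat.choose_le_choose 2 hk
      have h6 : (4).choose 2 = 6 := by decide
      omega
    omega
  have hr6 : 6 ≤ r := by
    have : (4).choose 2 ≤ k.choose 2 := Nat.choose_le_choose 2 hk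
    have h6 : (4).choose 2 = 6 := by decide
    omega
  have hA : ArithOK k r := by
    intro q hq2 hq m hm
    exact Pool.Agent.TH635.J3.arith k r hk h1 h2 q hq2 hq m hm
  obtain ⟨u, rfl⟩ : ∃ u, k = u + 1 := ⟨k - 1, by omega⟩
  have hu1 : u + 1 - 1 = u := rfl
  rw [hu1]
  obtain ⟨n0, hn0⟩ := multipartite_cliqueFree u r (by omega) hr hA
  refine ⟨n0, ?_⟩
  intro n hn
  -- all extremal graphs are free of `(u+1)`-cliques
  have hfree : ∀ G : SimpleGraph (Fin n), (∀ H : SimpleGraph (Fin n), cc r (u + 1) H ≤
      cc r (u + 1) G) → G.CliqueFree (u + 1) :=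
    Pool.Agent.TH477.RB.Sym.zykov r (u + 1) hk hr (hn0 n hn)
  -- existence of an extremal graph
  obtain ⟨G0, _, hG0⟩ := Finset.exists_max_image (univ : Finset (SimpleGraph (Fin n)))
    (fun G => cc r (u + 1) G) ⟨⊥, Finset.mem_univ _⟩
  have hG0' : ∀ H : SimpleGraph (Fin n), cc r (u + 1) H ≤ cc r (u + 1) G0 :=
    fun H => hG0 H (Finset.mem_univ _)
  have hpow : ∀ G : SimpleGraph (Fin n), G.CliqueFree (u + 1) →
      cc r (u + 1) G = r ^ G.edgeFinset.card := by
    intro G hG
    rw [cc_eq_pow r (u + 1) G hG, SimpleGraph.edgeFinset_card]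
  have hle : ∀ G H : SimpleGraph (Fin n), G.CliqueFree (u + 1) → H.CliqueFree (u + 1) →
      (cc r (u + 1) G ≤ cc r (u + 1) H ↔ G.edgeFinset.card ≤ H.edgeFinset.card) := by
    intro G H hG hH
    rw [hpow G hG, hpow H hH]
    exact Nat.pow_le_pow_iff_right (by omega)
  -- extremal graphs are exactly the Turán-maximal graphs
  have einst : ∀ (H : SimpleGraph (Fin n)) (i1 i2 : Fintype H.edgeSet),
      (@SimpleGraph.edgeFinset _ H i1).card = (@SimpleGraph.edgeFinset _ H i2).card :=
    fun H i1 i2 => by rw [Subsingleton.elim i1 i2]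
  intro G
  have hiso : G.IsTuranMaximal u ↔ Nonempty (G ≃g SimpleGraph.turanGraph n u) := by
    have h := SimpleGraph.isTuranMaximal_iff_nonempty_iso_turanGraph (G := G) (r := u) (by omega)
    rw [Fintype.card_fin] at h
    exact h
  rw [← hiso]
  constructor
  · intro hG
    refine ⟨hfree G hG, ?_⟩
    intro H _ hH
    have := (hle H G hH (hfree G hG)).mp (hG H)
    exact (einst H _ _).trans_le (this.trans_eq (einst G _ _))
  · intro hG H
    have hGf : G.CliqueFree (u + 1) := hG.1
    have hG0f := hfree G0 hG0'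
    have h5 : G0.edgeFinset.card ≤ G.edgeFinset.card := by
      have := hG.2 hG0f
      exact (einst G0 _ _).trans_le (this.trans_eq (einst G _ _))
    exact (hG0' H).trans ((hle G0 G hG0f hGf).mpr h5)

end Pool.Agent.TH477.RB
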