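import Pool.Agent.TH477.RB.Cont2
import Pool.Agent.TH596.J4

/-!
Complete multipartite graphs which are close to the Turán graph; edge counts of Turán graphs.
-/

set_option autoImplicit false

namespace Pool.Agent.TH477.RB

open Finset

open Classical in
/-- ordered pairs of adjacent vertices -/
theorem card_adj_pairs {V : Type} [Fintype V] (G : SimpleGraph V) :
    ((univ.filter (fun p : V × V => G.Adj p.1 p.2)).card : ℝ) =
      2 * (Fintype.card G.edgeSet : ℝ) := by
  have h1 := sum_pairs_eq G (fun e => if e ∈ G.edgeSet then (1 : ℝ) else 0)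
    (fun e he => if_neg he)
  have h2 : ∑ e : G.edgeSet, (if (e : Sym2 V) ∈ G.edgeSet then (1 : ℝ) else 0) =
      (Fintype.card G.edgeSet : ℝ) := by
    rw [Finset.sum_congr rfl (fun e _ => if_pos e.2)]
    simp
  rw [h2] at h1
  rw [← h1, Finset.card_filter, Fintype.sum_prod_type]
  push_cast
  refine Finset.sum_congr rfl fun x _ => Finset.sum_congr rfl fun y _ => ?_
  simp only [SimpleGraph.mem_edgeSet]

open Classical in
theorem turan_lower (u n : ℕ) (hu : 1 ≤ u) :
    (1 - 1 / (u : ℝ)) * (n : ℝ) ^ 2 - ((u : ℝ) ^ 2 + 2) ≤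
      2 * (Fintype.card (SimpleGraph.turanGraph n u).edgeSet : ℝ) := by
  have hu0 : (0 : ℝ) < u := by exact_mod_cast (by omega : 0 < u)
  have h1 : Fintype.card (SimpleGraph.turanGraph n u).edgeSet =
      (n ^ 2 - (n % u) ^ 2) * (u - 1) / (2 * u) + (n % u).choose 2 := by
    rw [← SimpleGraph.edgeFinset_card]
    convert SimpleGraph.card_edgeFinset_turanGraph
  have hmod : n % u < u := Nat.mod_lt _ (by omega)
  set m := n % u with hm
  have hmn : m ≤ n := Nat.mod_le _ _
  set X := (n ^ 2 - m ^ 2) * (u - 1) with hX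
  have h2 : X < 2 * u * (X / (2 * u) + 1) := by
    have := Nat.lt_mul_div_succ X (show 0 < 2 * u by omega)
    exact this
  have h3 : (X : ℝ) < 2 * u * ((X / (2 * u) : ℕ) + 1) := by exact_mod_cast h2
  have h4 : (X : ℝ) = ((n : ℝ) ^ 2 - (m : ℝ) ^ 2) * ((u : ℝ) - 1) := by
    rw [hX, Nat.cast_mul, Nat.cast_sub (Nat.pow_le_pow_left hmn 2), Nat.cast_sub hu]
    push_cast; ring
  have h5 : (m : ℝ) ^ 2 ≤ (u : ℝ) ^ 2 := by
    have : (m : ℝ) ≤ u := by exact_mod_cast hmod.le
    exact pow_le_pow_left₀ (by positivity) this 2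
  rw [h1]
  push_cast
  have h6 : (0 : ℝ) ≤ ((m.choose 2 : ℕ) : ℝ) := by positivity
  have h7 : (1 - 1 / (u : ℝ)) * (n : ℝ) ^ 2 - ((u : ℝ) ^ 2 + 2) ≤
      2 * ((X / (2 * u) : ℕ) : ℝ) := by
    have e1 : (X : ℝ) / u < 2 * ((X / (2 * u) : ℕ) + 1) := by
      rw [div_lt_iff₀ hu0]
      linarith
    have e2 : (X : ℝ) / u = (1 - 1 / (u : ℝ)) * ((n : ℝ) ^ 2 - (m : ℝ) ^ 2) := by
      rw [h4]; field_simp
    rw [e2] at e1
    have h8 : 0 ≤ 1 - 1 / (u : ℝ) := by
      rw [sub_nonneg, div_le_one hu0]; exact_mod_cast hu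
    have h9 : (1 - 1 / (u : ℝ)) * (m : ℝ) ^ 2 ≤ (u : ℝ) ^ 2 := by
      have h10 : 1 - 1 / (u : ℝ) ≤ 1 := by
        have : 0 < 1 / (u : ℝ) := by positivity
        linarith
      calc (1 - 1 / (u : ℝ)) * (m : ℝ) ^ 2 ≤ 1 * (m : ℝ) ^ 2 :=
            mul_le_mul_of_nonneg_right h10 (by positivity)
        _ ≤ _ := by rw [one_mul]; exact h5
    linarith
  push_cast at h7
  linarith

theorem cc_le_pow {V : Type} (r k : ℕ) (G : SimpleGraph V) [Fintype G.edgeSet] :
    cc r k G ≤ r ^ Fintype.card G.edgeSet := by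
  classical
  unfold cc
  refine (Nat.card_le_card_of_injective (Subtype.val) Subtype.val_injective).trans ?_
  rw [Nat.card_eq_fintype_card, Fintype.card_fun, Fintype.card_fin]

theorem cc_eq_pow {V : Type} (r k : ℕ) (G : SimpleGraph V) [Fintype G.edgeSet]
    (h : G.CliqueFree k) : cc r k G = r ^ Fintype.card G.edgeSet := by
  classical
  unfold cc
  have h1 : Nat.card {c : G.edgeSet → Fin r // ∀ S : Finset V, G.IsNClique k S →
    ∃ e f : G.edgeSet, e ≠ f ∧ (∀ v ∈ (e : Sym2 V), v ∈ S) ∧ (∀ v ∈ (f : Sym2 V), v ∈ S) ∧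
      c e = c f} = Nat.card (G.edgeSet → Fin r) := by
    apply Nat.card_congr
    exact Equiv.subtypeUnivEquiv (fun c S hS => absurd hS (h S))
  rw [h1, Nat.card_eq_fintype_card, Fintype.card_fun, Fintype.card_fin]

/-- indicator of a proposition -/
noncomputable def ind (p : Prop) : ℝ := by
  classical
  exact if p then 1 else 0

theorem ind_pos {p : Prop} (h : p) : ind p = 1 := by
  unfold ind; exact if_pos h

theorem ind_neg {p : Prop} (h : ¬ p) : ind p = 0 := by
  unfold ind; exact if_neg h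

theorem ind_nonneg (p : Prop) : 0 ≤ ind p := by
  by_cases h : p
  · rw [ind_pos h]; norm_num
  · rw [ind_neg h]

theorem ind_le_one (p : Prop) : ind p ≤ 1 := by
  by_cases h : p
  · rw [ind_pos h]
  · rw [ind_neg h]; norm_num

theorem card_filter_ind {α : Type} (s : Finset α) (p : α → Prop) [DecidablePred p] :
    ((s.filter p).card : ℝ) = ∑ x ∈ s, ind (p x) := by
  rw [Finset.card_filter]
  push_cast
  refine Finset.sum_congr rfl fun x _ => ?_
  by_cases h : p x
  · rw [if_pos h, ind_pos h]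
  · rw [if_neg h, ind_neg h]

/-- number of ordered pairs with a property -/
noncomputable def Jp {n : ℕ} (R : Fin n → Fin n → Prop) : ℝ := ∑ x, ∑ y, ind (R x y)

theorem Jp_eq {n : ℕ} (R : Fin n → Fin n → Prop)
    [DecidablePred fun p : Fin n × Fin n => R p.1 p.2] :
    Jp R = ((univ.filter (fun p : Fin n × Fin n => R p.1 p.2)).card : ℝ) := by
  rw [card_filter_ind, Fintype.sum_prod_type]
  rfl

theorem Jp_nonneg {n : ℕ} (R : Fin n → Fin n → Prop) : 0 ≤ Jp R :=
  Finset.sum_nonneg fun _ _ => Finset.sum_nonneg fun _ _ => ind_nonneg _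

theorem Jp_mono {n : ℕ} {R R' : Fin n → Fin n → Prop} (h : ∀ x y, R x y → R' x y) :
    Jp R ≤ Jp R' := by
  refine Finset.sum_le_sum fun x _ => Finset.sum_le_sum fun y _ => ?_
  by_cases h1 : R x y
  · rw [ind_pos h1, ind_pos (h x y h1)]
  · rw [ind_neg h1]; exact ind_nonneg _

/-- pointwise comparison of indicator sums -/
theorem Jp_prod {n : ℕ} (A B : Fin n → Prop) [DecidablePred A] [DecidablePred B] :
    Jp (fun x y => A x ∧ B y) =
      ((univ.filter A).card : ℝ) * ((univ.filter B).card : ℝ) := by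
  rw [card_filter_ind, card_filter_ind, Finset.sum_mul_sum]
  refine Finset.sum_congr rfl fun x _ => Finset.sum_congr rfl fun y _ => ?_
  by_cases ha : A x
  · by_cases hb : B y
    · rw [ind_pos ha, ind_pos hb, ind_pos ⟨ha, hb⟩, one_mul]
    · rw [ind_neg hb, ind_neg (fun h => hb h.2), mul_zero]
  · rw [ind_neg ha, ind_neg (fun h => ha h.1), zero_mul]

open Classical in
/-- A complete multipartite graph with a partition into `u` classes with few inner edges and enough
edges has exactly `u` large parts. -/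
theorem near_turan_graph (u : ℕ) (hu : 2 ≤ u) (η : ℝ) (hη : 0 < η) :
    ∃ η1 : ℝ, 0 < η1 ∧ ∀ n : ℕ, 1 ≤ n → ∀ G : SimpleGraph (Fin n),
      (∀ x y z, ¬ G.Adj x y → ¬ G.Adj y z → ¬ G.Adj x z) → ∀ κ : Fin n → Option (Fin u),
      ((univ.filter (fun x => κ x = none)).card : ℝ) ≤ η1 * n →
      ((univ.filter (fun p : Fin n × Fin n => κ p.1 = κ p.2 ∧ κ p.1 ≠ none ∧
        G.Adj p.1 p.2)).card : ℝ) ≤ η1 * (n : ℝ) ^ 2 →
      (1 - 1 / (u : ℝ) - η1) * (n : ℝ) ^ 2 ≤
        ((univ.filter (fun p : Fin n × Fin n => G.Adj p.1 p.2)).card : ℝ) →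
      ∃ cls : Fin n → Option (Fin u),
        (∀ i, |((univ.filter (fun y => cls y = some i)).card : ℝ) - n / u| ≤ η * n) ∧
        ∀ x y i, cls x = some i → (G.Adj x y ↔ cls y ≠ some i) := by
  have hu0 : (0 : ℝ) < u := by exact_mod_cast (by omega : 0 < u)
  have hu2 : (2 : ℝ) ≤ u := by exact_mod_cast hu
  set θ : ℝ := min (1 / (8 * u)) (η / (3 * u)) with hθ
  have hθ0 : 0 < θ := lt_min (by positivity) (by positivity)
  have hθ1 : u * θ ≤ 1 / 8 := by
    have : θ ≤ 1 / (8 * u) := min_le_left _ _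
    rw [le_div_iff₀ (by positivity)] at this
    linarith
  have hθ2 : 3 * u * θ ≤ η := by
    have : θ ≤ η / (3 * u) := min_le_right _ _
    rw [le_div_iff₀ (by positivity)] at this
    linarith
  refine ⟨θ ^ 2, by positivity, ?_⟩
  intro n hn1 G hcm κ hnone hin hadj
  have hn : (1 : ℝ) ≤ (n : ℝ) := by exact_mod_cast hn1
  have hn0 : (0 : ℝ) < (n : ℝ) := by linarith
  let S : Fin u → Finset (Fin n) := fun i => univ.filter (fun x => κ x = some i)
  -- sizes sum up
  have hsizes : ∑ i, ((S i).card : ℝ) + ((univ.filter (fun x => κ x = none)).card : ℝ) = n := by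
    have h1 : (univ : Finset (Fin n)).card =
        ∑ o : Option (Fin u), (univ.filter (fun x => κ x = o)).card :=
      Finset.card_eq_sum_card_fiberwise (fun _ _ => Finset.mem_coe.mpr (Finset.mem_univ _))
    rw [Finset.card_univ, Fintype.card_fin, Fintype.sum_option] at h1
    have h2 : (n : ℝ) = ((univ.filter (fun x => κ x = none)).card : ℝ) +
        ∑ i, ((S i).card : ℝ) := by exact_mod_cast h1
    linarith
  -- squares of the sizes
  have hsq : ∀ i, Jp (fun x y => κ x = some i ∧ κ y = some i) = ((S i).card : ℝ) ^ 2 := by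
    intro i
    rw [Jp_prod]; ring
  -- non-adjacent pairs
  have hnadj : Jp (fun x y => ¬ G.Adj x y) ≤ (1 / u + θ ^ 2) * (n : ℝ) ^ 2 := by
    have h1 : Jp (fun x y => ¬ G.Adj x y) + Jp (fun x y => G.Adj x y) = (n : ℝ) ^ 2 := by
      simp only [Jp]
      rw [← Finset.sum_add_distrib]
      have : ∀ x ∈ (univ : Finset (Fin n)), (∑ y, ind (¬ G.Adj x y)) +
          ∑ y, ind (G.Adj x y) = n := by
        intro x _
        rw [← Finset.sum_add_distrib]
        rw [Finset.sum_congr rfl (g := fun _ => (1 : ℝ)) (fun y _ => by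
          by_cases h : G.Adj x y
          · rw [ind_neg (not_not.mpr h), ind_pos h]; norm_num
          · rw [ind_pos h, ind_neg h]; norm_num)]
        simp
      rw [Finset.sum_congr rfl this]
      simp; ring
    have h2 : (1 - 1 / (u : ℝ) - θ ^ 2) * (n : ℝ) ^ 2 ≤ Jp (fun x y => G.Adj x y) := by
      rw [Jp_eq]; exact hadj
    linarith
  -- adjacency inside classes
  have hsumadj : Jp (fun x y => κ x = κ y ∧ κ x ≠ none ∧ G.Adj x y) =
        ∑ i, Jp (fun x y => κ x = some i ∧ κ y = some i ∧ G.Adj x y) := by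
    simp only [Jp]
    rw [Finset.sum_comm' (s := (univ : Finset (Fin u))) (t := fun _ => (univ : Finset (Fin n)))
      (t' := (univ : Finset (Fin n))) (s' := fun _ => (univ : Finset (Fin u))) (by simp)]
    refine Finset.sum_congr rfl fun x _ => ?_
    rw [Finset.sum_comm]
    refine Finset.sum_congr rfl fun y _ => ?_
    rcases hx : κ x with _ | i0
    · rw [ind_neg (by simp), Finset.sum_eq_zero]
      intro j _
      exact ind_neg (by simp)
    · by_cases hy : κ y = some i0 ∧ G.Adj x y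
      · rw [ind_pos ⟨hy.1.symm, by simp, hy.2⟩,
          Finset.sum_eq_single i0 (fun j _ hj => ind_neg (fun h => hj (Option.some_injective _ h.1).symm))
            (fun h => absurd (Finset.mem_univ _) h), ind_pos ⟨rfl, hy.1, hy.2⟩]
      · rw [ind_neg (fun h => hy ⟨h.1.symm, h.2.2⟩), Finset.sum_eq_zero]
        intro j _
        exact ind_neg (fun h => hy ⟨by rw [h.2.1, ← h.1], h.2.2⟩)
  have hinJ : ∑ i, Jp (fun x y => κ x = some i ∧ κ y = some i ∧ G.Adj x y) ≤
      θ ^ 2 * (n : ℝ) ^ 2 := by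
    rw [← hsumadj, Jp_eq]
    exact hin
  -- non-adjacent pairs inside the classes
  have hsplit : ∀ i, Jp (fun x y => κ x = some i ∧ κ y = some i ∧ ¬ G.Adj x y) +
      Jp (fun x y => κ x = some i ∧ κ y = some i ∧ G.Adj x y) = ((S i).card : ℝ) ^ 2 := by
    intro i
    rw [← hsq i]
    simp only [Jp]
    rw [← Finset.sum_add_distrib]
    refine Finset.sum_congr rfl fun x _ => ?_
    rw [← Finset.sum_add_distrib]
    refine Finset.sum_congr rfl fun y _ => ?_
    by_cases h : κ x = some i ∧ κ y = some i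
    · by_cases ha : G.Adj x y
      · rw [ind_neg (fun h' => h'.2.2 ha), ind_pos ⟨h.1, h.2, ha⟩, ind_pos h]; norm_num
      · rw [ind_pos ⟨h.1, h.2, ha⟩, ind_neg (fun h' => ha h'.2.2), ind_pos h]; norm_num
    · rw [ind_neg (fun h' => h ⟨h'.1, h'.2.1⟩), ind_neg (fun h' => h ⟨h'.1, h'.2.1⟩), ind_neg h]
      norm_num
  have hin_i : ∀ i, Jp (fun x y => κ x = some i ∧ κ y = some i ∧ G.Adj x y) ≤
      θ ^ 2 * (n : ℝ) ^ 2 := fun i =>
    (Finset.single_le_sum (f := fun i => Jp (fun x y => κ x = some i ∧ κ y = some i ∧ G.Adj x y))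
      (fun i _ => Jp_nonneg _) (Finset.mem_univ i)).trans hinJ
  -- the sum of all nonadjacent pairs, inside classes and between two different classes
  have hsumnon : ∑ i, Jp (fun x y => κ x = some i ∧ κ y = some i ∧ ¬ G.Adj x y) ≤
      Jp (fun x y => κ x = κ y ∧ ¬ G.Adj x y) := by
    simp only [Jp]
    rw [Finset.sum_comm' (s := (univ : Finset (Fin u))) (t := fun _ => (univ : Finset (Fin n)))
      (t' := (univ : Finset (Fin n))) (s' := fun _ => (univ : Finset (Fin u))) (by simp)]
    refine Finset.sum_le_sum fun x _ => ?_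
    rw [Finset.sum_comm]
    refine Finset.sum_le_sum fun y _ => ?_
    rcases hx : κ x with _ | i0
    · rw [Finset.sum_eq_zero]
      · exact ind_nonneg _
      · intro j _
        exact ind_neg (by simp)
    · by_cases hy : κ y = some i0 ∧ ¬ G.Adj x y
      · rw [ind_pos ⟨hy.1.symm, hy.2⟩,
          Finset.sum_eq_single i0 (fun j _ hj => ind_neg (fun h => hj (Option.some_injective _ h.1).symm))
            (fun h => absurd (Finset.mem_univ _) h), ind_pos ⟨rfl, hy.1, hy.2⟩]
      · rw [Finset.sum_eq_zero]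
        · exact ind_nonneg _
        · intro j _
          exact ind_neg (fun h => hy ⟨by rw [h.2.1, ← h.1], h.2.2⟩)
  have hsq_sum : ∑ i, ((S i).card : ℝ) ^ 2 ≤
      Jp (fun x y => κ x = κ y ∧ ¬ G.Adj x y) + θ ^ 2 * (n : ℝ) ^ 2 := by
    calc ∑ i, ((S i).card : ℝ) ^ 2
        = ∑ i, Jp (fun x y => κ x = some i ∧ κ y = some i ∧ ¬ G.Adj x y) +
          ∑ i, Jp (fun x y => κ x = some i ∧ κ y = some i ∧ G.Adj x y) := by
          rw [← Finset.sum_add_distrib]
          exact Finset.sum_congr rfl fun i _ => (hsplit i).symm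
      _ ≤ _ := add_le_add hsumnon hinJ
  have hsq_le : ∑ i, ((S i).card : ℝ) ^ 2 ≤ (1 / u + 2 * θ ^ 2) * (n : ℝ) ^ 2 := by
    have h1 : Jp (fun x y => κ x = κ y ∧ ¬ G.Adj x y) ≤ Jp (fun x y => ¬ G.Adj x y) :=
      Jp_mono (fun x y h => h.2)
    linarith
  have hnone0 : (0 : ℝ) ≤ ((univ.filter (fun x => κ x = none)).card : ℝ) := by positivity
  have hsum_ge : (1 - θ ^ 2) * n ≤ ∑ i, ((S i).card : ℝ) := by linarith
  -- each class has size about n/u
  have hSi : ∀ i, |((S i).card : ℝ) - n / u| ≤ 2 * θ * n := by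
    intro i
    have h1 : ∑ j, (((S j).card : ℝ) - n / u) ^ 2 ≤ 4 * θ ^ 2 * (n : ℝ) ^ 2 := by
      have h2 : ∑ j, (((S j).card : ℝ) - n / u) ^ 2 =
          ∑ j, ((S j).card : ℝ) ^ 2 - 2 * (n / u) * ∑ j, ((S j).card : ℝ) + (n : ℝ) ^ 2 / u := by
        rw [Finset.mul_sum, ← Finset.sum_sub_distrib]
        have e : (n : ℝ) ^ 2 / u = ∑ j : Fin u, ((n : ℝ) / u) ^ 2 := by
          rw [Finset.sum_const, Finset.card_univ, Fintype.card_fin, nsmul_eq_mul]
          field_simp
        rw [e, ← Finset.sum_add_distrib]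
        exact Finset.sum_congr rfl fun j _ => by ring
      rw [h2]
      have h3 : 2 * ((n : ℝ) / u) * ((1 - θ ^ 2) * n) ≤ 2 * (n / u) * ∑ j, ((S j).card : ℝ) :=
        mul_le_mul_of_nonneg_left hsum_ge (by positivity)
      have h4 : (1 / u + 2 * θ ^ 2) * (n : ℝ) ^ 2 - 2 * ((n : ℝ) / u) * ((1 - θ ^ 2) * n) +
          (n : ℝ) ^ 2 / u = (2 * θ ^ 2 + 2 * θ ^ 2 / u) * (n : ℝ) ^ 2 := by
        field_simp; ring
      have h5 : (2 * θ ^ 2 + 2 * θ ^ 2 / u) * (n : ℝ) ^ 2 ≤ 4 * θ ^ 2 * (n : ℝ) ^ 2 := by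
        apply mul_le_mul_of_nonneg_right _ (by positivity)
        have : 2 * θ ^ 2 / u ≤ 2 * θ ^ 2 := by
          apply div_le_self (by positivity); linarith
        linarith
      linarith
    have h2 : (((S i).card : ℝ) - n / u) ^ 2 ≤ (2 * θ * n) ^ 2 := by
      have h3 := Finset.single_le_sum (f := fun j => (((S j).card : ℝ) - n / u) ^ 2)
        (fun j _ => sq_nonneg _) (Finset.mem_univ i)
      have e : (2 * θ * n) ^ 2 = 4 * θ ^ 2 * (n : ℝ) ^ 2 := by ring
      rw [e]
      exact h3.trans h1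
    exact abs_le_of_sq_le_sq h2 (by positivity)
  have hθu : θ * (2 * u) ≤ 1 / 4 := by linarith
  have hnu : (n : ℝ) / (2 * u) ≤ n / u - 3 * θ * n := by
    have e : (n : ℝ) / u = n / (2 * u) + n / (2 * u) := by field_simp; norm_num
    rw [e]
    have : 3 * θ * n ≤ n / (2 * u) := by
      rw [le_div_iff₀ (by positivity)]
      have : 3 * θ * n * (2 * u) = 6 * (u * θ) * n := by ring
      rw [this]
      have : 6 * (u * θ) * n ≤ 1 * n := mul_le_mul_of_nonneg_right (by linarith) hn0.le
      linarith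
    linarith
  have hSi_low : ∀ i, (n : ℝ) / u - 2 * θ * n ≤ ((S i).card : ℝ) := by
    intro i
    have := (abs_le.mp (hSi i)).1
    linarith
  have hSi_low2 : ∀ i, (n : ℝ) / (2 * u) ≤ ((S i).card : ℝ) := by
    intro i
    have h1 := hSi_low i
    have h2 : 0 ≤ θ * n := by positivity
    linarith
  -- choice of representatives
  have hrep : ∀ i : Fin u, ∃ x, κ x = some i ∧
      (n : ℝ) / u - 3 * θ * n ≤
        (((S i).filter (fun y => ¬ G.Adj x y)).card : ℝ) := by
    intro i
    by_contra hcon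
    push Not at hcon
    have hSpos : (0 : ℝ) < ((S i).card : ℝ) := lt_of_lt_of_le (by positivity) (hSi_low2 i)
    have hSne : (S i).Nonempty := by
      rw [← Finset.card_pos]; exact_mod_cast hSpos
    have h1 : Jp (fun x y => κ x = some i ∧ κ y = some i ∧ ¬ G.Adj x y) =
        ∑ x ∈ S i, (((S i).filter (fun y => ¬ G.Adj x y)).card : ℝ) := by
      simp only [Jp]
      simp only [S]
      rw [Finset.sum_filter]
      refine Finset.sum_congr rfl fun x _ => ?_
      split_ifs with h
      · rw [card_filter_ind, Finset.sum_filter]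
        refine Finset.sum_congr rfl fun y _ => ?_
        by_cases h2 : κ y = some i
        · rw [if_pos h2]
          by_cases h3 : ¬ G.Adj x y
          · rw [ind_pos ⟨h, h2, h3⟩, ind_pos h3]
          · rw [ind_neg (fun h' => h3 h'.2.2), ind_neg h3]
        · rw [if_neg h2, ind_neg (fun h' => h2 h'.2.1)]
      · rw [Finset.sum_eq_zero]
        intro y _
        exact ind_neg (fun h' => h h'.1)
    have h2 : ∑ x ∈ S i, (((S i).filter (fun y => ¬ G.Adj x y)).card : ℝ) <
        ∑ x ∈ S i, ((n : ℝ) / u - 3 * θ * n) :=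
      Finset.sum_lt_sum_of_nonempty hSne (fun x hx => hcon x (Finset.mem_filter.mp hx).2)
    rw [Finset.sum_const, nsmul_eq_mul, ← h1] at h2
    have h3 := hsplit i
    have h4 := hin_i i
    have h5 : ((S i).card : ℝ) * (((S i).card : ℝ) - (n / u - 3 * θ * n)) < θ ^ 2 * (n : ℝ) ^ 2 := by
      have : ((S i).card : ℝ) * (((S i).card : ℝ) - (n / u - 3 * θ * n)) =
        ((S i).card : ℝ) ^ 2 - ((S i).card : ℝ) * (n / u - 3 * θ * n) := by ring
      rw [this]
      linarith
    have h6 : ((n : ℝ) / (2 * u)) * (θ * n) ≤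
        ((S i).card : ℝ) * (((S i).card : ℝ) - (n / u - 3 * θ * n)) := by
      apply mul_le_mul (hSi_low2 i)
      · have := hSi_low i
        linarith
      · positivity
      · exact hSpos.le
    have h7 : θ ^ 2 * (n : ℝ) ^ 2 ≤ ((n : ℝ) / (2 * u)) * (θ * n) := by
      rw [div_mul_eq_mul_div, le_div_iff₀ (by positivity)]
      have e : θ ^ 2 * (n : ℝ) ^ 2 * (2 * u) = (θ * (2 * u)) * (θ * (n : ℝ) ^ 2) := by ring
      have e2 : (n : ℝ) * (θ * n) = 1 * (θ * (n : ℝ) ^ 2) := by ring
      rw [e, e2]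
      exact mul_le_mul_of_nonneg_right (by linarith) (by positivity)
    linarith
  choose a ha haN using hrep
  -- distinct classes have adjacent representatives
  have hadj_rep : ∀ i j, i ≠ j → G.Adj (a i) (a j) := by
    intro i j hij
    by_contra hna
    have hna' : ¬ G.Adj (a j) (a i) := fun h => hna h.symm
    have h1 : (((S i).filter (fun y => ¬ G.Adj (a i) y)).card : ℝ) *
        (((S j).filter (fun y => ¬ G.Adj (a j) y)).card : ℝ) ≤
        Jp (fun x y => κ x = some i ∧ κ y = some j ∧ ¬ G.Adj x y) := by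
      simp only [S]
      rw [Finset.filter_filter, Finset.filter_filter, ← Jp_prod]
      apply Jp_mono
      rintro x y ⟨⟨h1, h2⟩, h3, h4⟩
      refine ⟨h1, h3, ?_⟩
      have e1 : ¬ G.Adj x (a i) := fun h => h2 h.symm
      exact hcm _ _ _ (hcm _ _ _ e1 hna) h4
    have h2 : Jp (fun x y => κ x = some i ∧ κ y = some j ∧ ¬ G.Adj x y) +
        Jp (fun x y => κ x = some j ∧ κ y = some i ∧ ¬ G.Adj x y) +
        Jp (fun x y => κ x = κ y ∧ ¬ G.Adj x y) ≤ Jp (fun x y => ¬ G.Adj x y) := by
      simp only [Jp]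
      rw [← Finset.sum_add_distrib, ← Finset.sum_add_distrib]
      refine Finset.sum_le_sum fun x _ => ?_
      rw [← Finset.sum_add_distrib, ← Finset.sum_add_distrib]
      refine Finset.sum_le_sum fun y _ => ?_
      by_cases h : G.Adj x y
      · rw [ind_neg (fun h' => h'.2.2 h), ind_neg (fun h' => h'.2.2 h), ind_neg (fun h' => h'.2 h),
          ind_neg (not_not.mpr h)]
        norm_num
      · rw [ind_pos h]
        by_cases c1 : κ x = some i ∧ κ y = some j
        · rw [ind_pos ⟨c1.1, c1.2, h⟩, ind_neg (fun h' => hij (by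
            have := h'.1; rw [c1.1] at this; exact Option.some_injective _ this)),
            ind_neg (fun h' => hij (by
              have := h'.1; rw [c1.1, c1.2] at this; exact Option.some_injective _ this))]
          norm_num
        · rw [ind_neg (fun h' => c1 ⟨h'.1, h'.2.1⟩)]
          by_cases c2 : κ x = some j ∧ κ y = some i
          · rw [ind_pos ⟨c2.1, c2.2, h⟩, ind_neg (fun h' => hij (by
              have := h'.1; rw [c2.1, c2.2] at this; exact (Option.some_injective _ this).symm))]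
            norm_num
          · rw [ind_neg (fun h' => c2 ⟨h'.1, h'.2.1⟩)]
            have := ind_le_one (κ x = κ y ∧ ¬ G.Adj x y)
            linarith
    have h3 : Jp (fun x y => κ x = some i ∧ κ y = some j ∧ ¬ G.Adj x y) ≤
        Jp (fun x y => κ x = some j ∧ κ y = some i ∧ ¬ G.Adj x y) := by
      simp only [Jp]
      rw [Finset.sum_comm]
      refine Finset.sum_le_sum fun x _ => Finset.sum_le_sum fun y _ => ?_
      by_cases h : κ y = some i ∧ κ x = some j ∧ ¬ G.Adj y x
      · rw [ind_pos h, ind_pos ⟨h.2.1, h.1, fun h' => h.2.2 h'.symm⟩]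
      · rw [ind_neg h]; exact ind_nonneg _
    -- lower bound for the sum of squares
    have h4 : (1 - 2 * θ ^ 2) * (n : ℝ) ^ 2 / u ≤ ∑ l, ((S l).card : ℝ) ^ 2 := by
      have h5 := sq_sum_le_card_mul_sum_sq (s := (univ : Finset (Fin u)))
        (f := fun l => ((S l).card : ℝ))
      rw [Finset.card_univ, Fintype.card_fin] at h5
      have hθ2' : θ ^ 2 ≤ 1 := by
        have : θ ≤ 1 := by nlinarith
        calc θ ^ 2 ≤ 1 ^ 2 := pow_le_pow_left₀ hθ0.le this 2
          _ = 1 := by norm_num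
      have h6 : ((1 - θ ^ 2) * n) ^ 2 ≤ (∑ l, ((S l).card : ℝ)) ^ 2 :=
        pow_le_pow_left₀ (mul_nonneg (by linarith) hn0.le) hsum_ge 2
      rw [div_le_iff₀ hu0]
      have h7 : (1 - 2 * θ ^ 2) * (n : ℝ) ^ 2 ≤ ((1 - θ ^ 2) * n) ^ 2 := by
        have e : ((1 - θ ^ 2) * n) ^ 2 = (1 - 2 * θ ^ 2) * (n : ℝ) ^ 2 + (θ ^ 2 * n) ^ 2 := by ring
        rw [e]
        have : 0 ≤ (θ ^ 2 * n) ^ 2 := by positivity
        linarith
      linarith
    have h8 : ((n : ℝ) / (2 * u)) * ((n : ℝ) / (2 * u)) ≤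
        (((S i).filter (fun y => ¬ G.Adj (a i) y)).card : ℝ) *
        (((S j).filter (fun y => ¬ G.Adj (a j) y)).card : ℝ) := by
      apply mul_le_mul (hnu.trans (haN i)) (hnu.trans (haN j)) (by positivity) (by positivity)
    have h9 : (1 - 2 * θ ^ 2) * (n : ℝ) ^ 2 / u = (n : ℝ) ^ 2 / u - 2 * θ ^ 2 / u * (n : ℝ) ^ 2 := by
      ring
    have h10 : 2 * θ ^ 2 / u * (n : ℝ) ^ 2 ≤ θ ^ 2 * (n : ℝ) ^ 2 := by
      apply mul_le_mul_of_nonneg_right _ (by positivity)
      rw [div_le_iff₀ hu0]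
      have := mul_le_mul_of_nonneg_left hu2 (sq_nonneg θ)
      linarith
    have h11 : (1 / u + θ ^ 2) * (n : ℝ) ^ 2 = (n : ℝ) ^ 2 / u + θ ^ 2 * (n : ℝ) ^ 2 := by ring
    rw [h11] at hnadj
    rw [h9] at h4
    have h12 : 2 * (((n : ℝ) / (2 * u)) * ((n : ℝ) / (2 * u))) ≤ 3 * θ ^ 2 * (n : ℝ) ^ 2 := by
      linarith
    have h13 : 3 * θ ^ 2 * (n : ℝ) ^ 2 < 2 * (((n : ℝ) / (2 * u)) * ((n : ℝ) / (2 * u))) := by
      have e : 2 * (((n : ℝ) / (2 * u)) * ((n : ℝ) / (2 * u))) = (n : ℝ) ^ 2 / (2 * u ^ 2) := by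
        field_simp
      rw [e, lt_div_iff₀ (by positivity)]
      have e2 : 3 * θ ^ 2 * (n : ℝ) ^ 2 * (2 * u ^ 2) = 6 * (u * θ) ^ 2 * (n : ℝ) ^ 2 := by ring
      rw [e2]
      have h14 : (u * θ) ^ 2 ≤ (1 / 8) ^ 2 := pow_le_pow_left₀ (by positivity) hθ1 2
      have h15 : 6 * (u * θ) ^ 2 * (n : ℝ) ^ 2 ≤ 6 * (1 / 8) ^ 2 * (n : ℝ) ^ 2 :=
        mul_le_mul_of_nonneg_right (by linarith) (by positivity)
      have h16 : (0 : ℝ) < (n : ℝ) ^ 2 := by positivity
      linarith
    linarith
  -- the classes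
  let cls : Fin n → Option (Fin u) := fun y =>
    if h : ∃ i, ¬ G.Adj (a i) y then some h.choose else none
  have hcls : ∀ y i, cls y = some i ↔ ¬ G.Adj (a i) y := by
    intro y i
    simp only [cls]
    constructor
    · intro h
      by_cases h1 : ∃ i, ¬ G.Adj (a i) y
      · rw [dif_pos h1] at h
        have := Option.some_injective _ h
        rw [← this]
        exact h1.choose_spec
      · rw [dif_neg h1] at h
        exact absurd h (by simp)
    · intro h
      have h1 : ∃ i, ¬ G.Adj (a i) y := ⟨i, h⟩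
      rw [dif_pos h1]
      congr 1
      by_contra hne
      have h2 := h1.choose_spec
      have h3 : ¬ G.Adj y (a i) := fun h' => h h'.symm
      exact hcm _ _ _ h2 h3 (hadj_rep _ _ hne)
  refine ⟨cls, ?_, ?_⟩
  · have hlow : ∀ i, (n : ℝ) / u - 3 * θ * n ≤
        ((univ.filter (fun y => cls y = some i)).card : ℝ) := by
      intro i
      refine (haN i).trans ?_
      norm_cast
      apply Finset.card_le_card
      intro y hy
      rw [Finset.mem_filter] at hy ⊢
      exact ⟨Finset.mem_univ _, (hcls y i).mpr hy.2⟩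
    have hsum : ∑ i, ((univ.filter (fun y => cls y = some i)).card : ℝ) ≤ n := by
      have h1 : (univ : Finset (Fin n)).card =
          ∑ o : Option (Fin u), (univ.filter (fun x => cls x = o)).card :=
        Finset.card_eq_sum_card_fiberwise (fun _ _ => Finset.mem_coe.mpr (Finset.mem_univ _))
      rw [Finset.card_univ, Fintype.card_fin, Fintype.sum_option] at h1
      have h2 : (n : ℝ) = ((univ.filter (fun x => cls x = none)).card : ℝ) +
          ∑ i, ((univ.filter (fun y => cls y = some i)).card : ℝ) := by exact_mod_cast h1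
      have : (0 : ℝ) ≤ ((univ.filter (fun x => cls x = none)).card : ℝ) := by positivity
      linarith
    intro i
    rw [abs_le]
    have h3θ : 3 * θ ≤ η := by
      have : 3 * θ ≤ 3 * u * θ := by nlinarith
      linarith
    constructor
    · have h1 := hlow i
      have : 3 * θ * n ≤ η * n := mul_le_mul_of_nonneg_right h3θ hn0.le
      linarith
    · have h1 : ((univ.filter (fun y => cls y = some i)).card : ℝ) +
          ∑ j ∈ univ.erase i, ((univ.filter (fun y => cls y = some j)).card : ℝ) ≤ n := by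
        rw [Finset.add_sum_erase univ
          (fun j => ((univ.filter (fun y => cls y = some j)).card : ℝ)) (Finset.mem_univ i)]
        exact hsum
      have h2 : ((u : ℝ) - 1) * ((n : ℝ) / u - 3 * θ * n) ≤
          ∑ j ∈ univ.erase i, ((univ.filter (fun y => cls y = some j)).card : ℝ) := by
        calc ((u : ℝ) - 1) * ((n : ℝ) / u - 3 * θ * n)
            = ∑ j ∈ univ.erase i, ((n : ℝ) / u - 3 * θ * n) := by
              rw [Finset.sum_const, Finset.card_erase_of_mem (Finset.mem_univ i), Finset.card_univ,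
                Fintype.card_fin, nsmul_eq_mul, Nat.cast_sub (by omega)]
              simp
          _ ≤ _ := Finset.sum_le_sum fun j _ => hlow j
      have h3 : ((u : ℝ) - 1) * ((n : ℝ) / u - 3 * θ * n) =
          n - n / u - 3 * (u - 1) * θ * n := by
        field_simp
      have h4 : 3 * ((u : ℝ) - 1) * θ * n ≤ η * n := by
        apply mul_le_mul_of_nonneg_right _ hn0.le
        have : 3 * ((u : ℝ) - 1) * θ ≤ 3 * u * θ := by nlinarith
        linarith
      linarith
  · intro x y i hx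
    rw [hcls] at hx
    constructor
    · intro hxy h
      rw [hcls] at h
      have h1 : ¬ G.Adj x (a i) := fun h' => hx h'.symm
      exact hcm _ _ _ h1 h hxy
    · intro h
      by_contra hxy
      apply h
      rw [hcls]
      exact hcm _ _ _ hx hxy

end Pool.Agent.TH477.RB
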