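import Pool.Agent.TH477.RB.Stab2

/-!
Stability: choice of a good full tuple and the final statement.
-/

set_option autoImplicit false

namespace Pool.Agent.TH477.RB

open Finset

open Classical in
theorem good_full (k r : ℕ) (hk : 4 ≤ k) (V : Type) (P : V → V → Finset (Fin r)) (W : Finset V)
    (hW : 1 ≤ W.card) (F : Finset (Fin k → V)) (hF : F ⊆ tup k W) (c ε' : ℝ) (hc : 0 < c)
    (hcount : c * (W.card : ℝ) ^ k ≤ (F.card : ℝ))
    (last : Fin k) (hlast : last.val = k - 1)
    (hR : (((tup k W).filter (fun x => Rainbowable k P x)).card : ℝ) ≤ ε' * (W.card : ℝ) ^ k) :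
    ∃ x ∈ F, ((W.filter (fun y => Rainbowable k P (Function.update x last y))).card : ℝ) ≤
        (k * ε' / c) * (W.card : ℝ) ∧
      ∑ i ∈ univ.filter (fun i : Fin k => i.val < k - 1),
        (((W ×ˢ W).filter (fun p => Rainbowable k P
          (Function.update (Function.update x i p.1) last p.2))).card : ℝ) ≤
        (k * ε' / c) * (W.card : ℝ) ^ 2 := by
  set n' : ℝ := (W.card : ℝ) with hn'
  have hn'0 : 0 < n' := by rw [hn']; exact_mod_cast hW
  set R : ℝ := (((tup k W).filter (fun x => Rainbowable k P x)).card : ℝ) with hRdef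
  have hR0 : 0 ≤ R := by positivity
  let G : (Fin k → V) → ℝ := fun x => if Rainbowable k P x then (1 : ℝ) else 0
  have hG0 : ∀ x, 0 ≤ G x := by intro x; simp only [G]; split_ifs <;> norm_num
  have hGsum : ∑ x ∈ tup k W, G x = R := by
    rw [hRdef, Finset.card_filter]; push_cast; rfl
  let b : (Fin k → V) → ℝ := fun x => ∑ y ∈ W, G (Function.update x last y)
  let d : Fin k → (Fin k → V) → ℝ := fun i x =>
    ∑ y ∈ W, ∑ y' ∈ W, G (Function.update (Function.update x i y) last y')
  have hb0 : ∀ x, 0 ≤ b x := fun x => Finset.sum_nonneg fun y _ => hG0 _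
  have hd0 : ∀ i x, 0 ≤ d i x := fun i x =>
    Finset.sum_nonneg fun y _ => Finset.sum_nonneg fun y' _ => hG0 _
  have hbs : ∑ x ∈ tup k W, b x = n' * R := by
    rw [← hGsum]
    exact sum_update W last G
  have hds : ∀ i, ∑ x ∈ tup k W, d i x = n' ^ 2 * R := by
    intro i
    have h1 := sum_update W i (fun x => ∑ y' ∈ W, G (Function.update x last y'))
    rw [← hn'] at h1
    have h2 : ∑ x ∈ tup k W, (fun x => ∑ y' ∈ W, G (Function.update x last y')) x = n' * R := hbs
    rw [h2] at h1
    rw [pow_two, mul_assoc]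
    exact h1
  let Φ : (Fin k → V) → ℝ := fun x => n' * b x +
    ∑ i ∈ univ.filter (fun i : Fin k => i.val < k - 1), d i x
  have hΦ0 : ∀ x, 0 ≤ Φ x := fun x => add_nonneg (mul_nonneg hn'0.le (hb0 x))
    (Finset.sum_nonneg fun i _ => hd0 i x)
  have hcardI : (univ.filter (fun i : Fin k => i.val < k - 1)).card = k - 1 := by
    have : univ.filter (fun i : Fin k => i.val < k - 1) = Finset.Iio last := by
      ext i; simp [Fin.lt_def, hlast]
    rw [this, Fin.card_Iio, hlast]
  have hΦs : ∑ x ∈ tup k W, Φ x = k * (n' ^ 2 * R) := by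
    simp only [Φ]
    rw [Finset.sum_add_distrib, ← Finset.mul_sum, hbs, Finset.sum_comm,
      Finset.sum_congr rfl (fun i _ => hds i), Finset.sum_const, nsmul_eq_mul, hcardI]
    have : ((k - 1 : ℕ) : ℝ) = (k : ℝ) - 1 := by
      rw [Nat.cast_sub (by omega)]; simp
    rw [this]; ring
  have hFne : F.Nonempty := by
    rw [← Finset.card_pos]
    have : (0 : ℝ) < (F.card : ℝ) := lt_of_lt_of_le (by positivity) hcount
    exact_mod_cast this
  have hFΦ : ∑ x ∈ F, Φ x ≤ k * (n' ^ 2 * (ε' * n' ^ k)) := by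
    calc ∑ x ∈ F, Φ x ≤ ∑ x ∈ tup k W, Φ x :=
          Finset.sum_le_sum_of_subset_of_nonneg hF fun x _ _ => hΦ0 x
      _ = k * (n' ^ 2 * R) := hΦs
      _ ≤ _ := by
          apply mul_le_mul_of_nonneg_left _ (by positivity)
          exact mul_le_mul_of_nonneg_left hR (by positivity)
  have hε' : 0 ≤ ε' := by
    by_contra h
    have : ε' * n' ^ k < 0 := mul_neg_of_neg_of_pos (not_le.mp h) (by positivity)
    linarith
  obtain ⟨x, hx, hxΦ⟩ : ∃ x ∈ F, Φ x ≤ (k * ε' / c) * n' ^ 2 := by
    by_contra hcon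
    push Not at hcon
    have h1 : ∑ x ∈ F, (k * ε' / c) * n' ^ 2 < ∑ x ∈ F, Φ x :=
      Finset.sum_lt_sum_of_nonempty hFne hcon
    rw [Finset.sum_const, nsmul_eq_mul] at h1
    have h2 : c * n' ^ k * ((k * ε' / c) * n' ^ 2) ≤ (F.card : ℝ) * ((k * ε' / c) * n' ^ 2) :=
      mul_le_mul_of_nonneg_right hcount (by positivity)
    have h3 : c * n' ^ k * ((k * ε' / c) * n' ^ 2) = k * (n' ^ 2 * (ε' * n' ^ k)) := by
      field_simp
    rw [h3] at h2
    linarith
  refine ⟨x, hx, ?_, ?_⟩
  · have e1 : ((W.filter (fun y => Rainbowable k P (Function.update x last y))).card : ℝ) = b x := by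
      simp only [b, G]
      rw [Finset.card_filter]; push_cast; rfl
    rw [e1]
    have h1 : n' * b x ≤ n' * ((k * ε' / c) * n') := by
      have h2 : 0 ≤ ∑ i ∈ univ.filter (fun i : Fin k => i.val < k - 1), d i x :=
        Finset.sum_nonneg fun i _ => hd0 i x
      have h3 : n' * ((k * ε' / c) * n') = (k * ε' / c) * n' ^ 2 := by ring
      rw [h3]
      have h4 : Φ x = n' * b x + ∑ i ∈ univ.filter (fun i : Fin k => i.val < k - 1), d i x := rfl
      linarith
    exact le_of_mul_le_mul_left h1 hn'0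
  · have e1 : ∀ i, (((W ×ˢ W).filter (fun p => Rainbowable k P
          (Function.update (Function.update x i p.1) last p.2))).card : ℝ) = d i x := by
      intro i
      simp only [d, G]
      rw [Finset.card_filter, Finset.sum_product]; push_cast; rfl
    rw [Finset.sum_congr rfl (fun i _ => e1 i)]
    have h2 : 0 ≤ n' * b x := mul_nonneg hn'0.le (hb0 x)
    have h4 : Φ x = n' * b x + ∑ i ∈ univ.filter (fun i : Fin k => i.val < k - 1), d i x := rfl
    linarith

open Classical in
/-- two vertices of the same class with a nonempty palette give a rainbowable tuple -/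
theorem same_class (k r : ℕ) (hk : 4 ≤ k) (hr : k.choose 2 ≤ r) (V : Type)
    (P : V → V → Finset (Fin r)) (hsymm : ∀ x y, P x y = P y x) (x : Fin k → V)
    (hfull : ∀ i j : Fin k, i < j → j.val < k - 1 → P (x i) (x j) = univ)
    (last : Fin k) (hlast : last.val = k - 1) (i : Fin k) (hi : i.val < k - 1) (y y' : V)
    (hy : ∀ j : Fin k, j.val < k - 1 → j ≠ i → P (x j) y = univ)
    (hy' : ∀ j : Fin k, j.val < k - 1 → j ≠ i → P (x j) y' = univ)
    (hne : P y y' ≠ ∅) :
    Rainbowable k P (Function.update (Function.update x i y) last y') := by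
  have hil : i ≠ last := by
    intro h; rw [h, hlast] at hi; exact absurd hi (lt_irrefl _)
  have hl : (Function.update (Function.update x i y) last y') last = y' := Function.update_self _ _ _
  have hii : (Function.update (Function.update x i y) last y') i = y := by
    rw [Function.update_of_ne hil, Function.update_self]
  have hoth : ∀ j, j ≠ last → j ≠ i →
      (Function.update (Function.update x i y) last y') j = x j := by
    intro j h1 h2
    rw [Function.update_of_ne h1, Function.update_of_ne h2]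
  have hlt : ∀ j : Fin k, j ≠ last → j.val < k - 1 := by
    intro j hj
    have h1 := j.isLt
    have h2 : j.val ≠ last.val := fun h => hj (Fin.ext h)
    omega
  apply rainbow_one_special hr P _ i last (by rw [Fin.lt_def, hlast]; exact hi)
  · rw [hl, hii]; exact hne
  · intro a b hab hne2
    by_cases hb : b = last
    · subst hb
      have ha : a ≠ b := ne_of_lt hab
      have hai : a ≠ i := by
        intro h; apply hne2; rw [h]
      rw [hl, hoth a ha hai]
      exact hy' a (hlt a ha) hai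
    · have ha : a ≠ last := by
        intro h
        have h1 := hlt b hb
        rw [Fin.lt_def, h, hlast] at hab
        omega
      by_cases hbi : b = i
      · have hai : a ≠ i := by
          intro h; rw [h, hbi] at hab; exact absurd hab (lt_irrefl _)
        rw [hbi, hii, hoth a ha hai]
        exact hy a (hlt a ha) hai
      · by_cases hai : a = i
        · rw [hai, hii, hoth b hb hbi, hsymm]
          exact hy b (hlt b hb) hbi
        · rw [hoth a ha hai, hoth b hb hbi]
          exact hfull a b hab (hlt b hb)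

open Classical in
theorem stability (k r : ℕ) (hk : 4 ≤ k) (hr : k.choose 2 ≤ r) (hA : ArithOK k r) (η : ℝ)
    (hη : 0 < η) :
    ∃ ε : ℝ, 0 < ε ∧ ∃ n0 : ℕ, ∀ (V : Type) (P : V → V → Finset (Fin r)),
      (∀ x y, P x y = P y x) → (∀ x, P x x = ∅) → ∀ W0 : Finset V, n0 ≤ W0.card →
      (((tup k W0).filter (fun x => Rainbowable k P x)).card : ℝ) ≤ ε * (W0.card : ℝ) ^ k →
      ((1 - 1 / ((k - 1 : ℕ) : ℝ)) * Real.log r - ε) * (W0.card : ℝ) ^ 2 ≤
        ∑ x ∈ W0, ∑ y ∈ W0, wt P x y →
      ∃ κ : V → Option (Fin (k - 1)),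
        ((W0.filter (fun v => κ v = none)).card : ℝ) ≤ η * (W0.card : ℝ) ∧
        (((W0 ×ˢ W0).filter (fun p => κ p.1 = κ p.2 ∧ κ p.1 ≠ none ∧ P p.1 p.2 ≠ ∅)).card : ℝ) ≤
          η * (W0.card : ℝ) ^ 2 := by
  have hr6 : 6 ≤ r := by
    have : (4).choose 2 ≤ k.choose 2 := Nat.choose_le_choose 2 hk
    have h6 : (4).choose 2 = 6 := by decide
    omega
  have hr2 : 2 ≤ r := by omega
  set L := Real.log r with hL
  have hLpos : 0 < L := Real.log_pos (by exact_mod_cast (by omega : 1 < r))
  set u : ℝ := ((k - 1 : ℕ) : ℝ) with hu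
  have hu3 : (3 : ℝ) ≤ u := by rw [hu]; exact_mod_cast (by omega : 3 ≤ k - 1)
  have hu0 : 0 < u := by linarith
  obtain ⟨γ0, hγ0, hgap0⟩ := loss_gap k r
  set γ : ℝ := min γ0 (L / u) with hγdef
  have hγ : 0 < γ := lt_min hγ0 (by positivity)
  have hγL : γ ≤ L / u := min_le_right _ _
  have hgap : ∀ (V : Type) (P : V → V → Finset (Fin r))
    (x : Fin k → V) (y : V) (j : Fin k),
    ∑ i ∈ univ.filter (fun i => i < j), loss P (x i) y ≤
      (j.val : ℝ) / ((k - 1 : ℕ) : ℝ) * Real.log r ∨
    (j.val : ℝ) / ((k - 1 : ℕ) : ℝ) * Real.log r + γ ≤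
      ∑ i ∈ univ.filter (fun i => i < j), loss P (x i) y := by
    intro V P x y j
    rcases hgap0 V P x y j with h | h
    · exact Or.inl h
    · right
      have := min_le_left γ0 (L / u)
      rw [← hγdef] at this
      linarith
  -- constants
  set η' : ℝ := min η 1 with hη'
  have hη'0 : 0 < η' := lt_min hη one_pos
  have hη'η : η' ≤ η := min_le_left _ _
  have hη'1 : η' ≤ 1 := min_le_right _ _
  set ε6 : ℝ := min (η' / 4) (1 / (8 * u ^ 2)) with hε6
  have hε60 : 0 < ε6 := lt_min (by positivity) (by positivity)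
  have hε6a : ε6 ≤ η' / 4 := min_le_left _ _
  have hε6b : ε6 ≤ 1 / (8 * u ^ 2) := min_le_right _ _
  set ε3 : ℝ := min (γ / (2 * u)) (min (γ * ε6 / (2 * u)) (L / (8 * u ^ 2))) with hε3
  have hε30 : 0 < ε3 := lt_min (by positivity) (lt_min (by positivity) (by positivity))
  have hε3a : u * ε3 ≤ γ / 2 := by
    have : ε3 ≤ γ / (2 * u) := min_le_left _ _
    rw [le_div_iff₀ (by positivity)] at this
    linarith
  have hε3b : u * ε3 ≤ γ * ε6 / 2 := by
    have : ε3 ≤ γ * ε6 / (2 * u) := (min_le_right _ _).trans (min_le_left _ _)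
    rw [le_div_iff₀ (by positivity)] at this
    linarith
  have hε3c : ε3 / L ≤ 1 / (8 * u ^ 2) := by
    have : ε3 ≤ L / (8 * u ^ 2) := (min_le_right _ _).trans (min_le_right _ _)
    rw [div_le_iff₀ hLpos]
    refine this.trans (le_of_eq ?_)
    ring
  set ε5 : ℝ := γ * ε6 / (2 * (L + γ)) with hε5
  have hε50 : 0 < ε5 := by positivity
  have hε5a : (L + γ) * ε5 = γ * ε6 / 2 := by rw [hε5]; field_simp
  have hε56 : u * ε3 + (L + γ) * ε5 ≤ γ * ε6 := by rw [hε5a]; linarith
  set ε9 : ℝ := 1 / (8 * u) with hε9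
  have hε90 : 0 < ε9 := by positivity
  have hc9 : ε9 + u * (ε3 / L + ε6) ≤ 1 / (2 * u) := by
    have h1 : u * (ε3 / L + ε6) ≤ u * (1 / (8 * u ^ 2) + 1 / (8 * u ^ 2)) :=
      mul_le_mul_of_nonneg_left (by linarith) hu0.le
    have h2 : u * (1 / (8 * u ^ 2) + 1 / (8 * u ^ 2)) = 1 / (4 * u) := by
      field_simp; norm_num
    have h3 : 1 / (8 * u) + 1 / (4 * u) ≤ 1 / (2 * u) := by
      have e : 1 / (2 * u) = 1 / (8 * u) + 1 / (4 * u) + 1 / (8 * u) := by field_simp; norm_num
      rw [e]
      have : 0 < 1 / (8 * u) := by positivity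
      linarith
    rw [hε9]
    linarith
  set δ : ℝ := γ / (2 * (L + γ)) with hδ
  have hδ0 : 0 < δ := by positivity
  set c : ℝ := (1 / (2 * u)) ^ (k - 1) with hc
  have hc0 : 0 < c := by positivity
  set ε8 : ℝ := min ε5 η' with hε8
  have hε80 : 0 < ε8 := lt_min hε50 hη'0
  have hkr : (0 : ℝ) < k := by exact_mod_cast (by omega : 0 < k)
  set ε' : ℝ := min (ε9 * δ ^ (k - 2) * ε5) (ε8 * c / k) with hε'
  have hε'0 : 0 < ε' := lt_min (by positivity) (by positivity)
  have hε'a : ε' ≤ ε9 * δ ^ (k - 2) * ε5 := min_le_left _ _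
  have hε'b : k * ε' / c ≤ ε8 := by
    have : ε' ≤ ε8 * c / k := min_le_right _ _
    rw [div_le_iff₀ hc0]
    rw [le_div_iff₀ hkr] at this
    linarith
  obtain ⟨ε1, hε1, n1, hlarge⟩ := large_subset k r hk hr2 hA (η' / 4) ε3 (by positivity)
    (by linarith) hε30
  refine ⟨min ε1 (ε' / 2 ^ k), lt_min hε1 (by positivity), n1 + 1, ?_⟩
  intro V P hsymm hdiag W0 hn0 hrain hwt
  set ε : ℝ := min ε1 (ε' / 2 ^ k) with hε
  set n : ℝ := (W0.card : ℝ) with hn
  have hn1 : (1 : ℝ) ≤ n := by rw [hn]; exact_mod_cast (by omega : 1 ≤ W0.card)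
  obtain ⟨W, hWW, hWn, hloss⟩ := hlarge V P hsymm hdiag W0 (by omega)
    (by
      rw [← hn]
      exact hrain.trans (mul_le_mul_of_nonneg_right (min_le_left _ _) (by positivity)))
    (by
      rw [← hn]
      refine le_trans ?_ hwt
      apply mul_le_mul_of_nonneg_right _ (by positivity)
      have := min_le_left ε1 (ε' / 2 ^ k)
      rw [← hε] at this
      linarith)
  rw [← hn] at hWn
  set n' : ℝ := (W.card : ℝ) with hn'
  have hhalf : n / 2 ≤ n' := by
    have h1 : η' / 4 * n ≤ 1 / 4 * n := mul_le_mul_of_nonneg_right (by linarith) (by linarith)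
    linarith
  have hn'0 : 0 < n' := by linarith
  have hW1 : 1 ≤ W.card := by
    have h0 : (0 : ℝ) < (W.card : ℝ) := hn'0
    exact_mod_cast h0
  -- few rainbowable tuples in `W`
  have hRW : (((tup k W).filter (fun x => Rainbowable k P x)).card : ℝ) ≤ ε' * n' ^ k := by
    have h1 : (((tup k W).filter (fun x => Rainbowable k P x)).card : ℝ) ≤
        (((tup k W0).filter (fun x => Rainbowable k P x)).card : ℝ) := by
      norm_cast
      apply Finset.card_le_card
      intro x hx
      rw [Finset.mem_filter] at hx ⊢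
      exact ⟨mem_tup.mpr fun i => hWW (mem_tup.mp hx.1 i), hx.2⟩
    calc (((tup k W).filter (fun x => Rainbowable k P x)).card : ℝ)
        ≤ ε * n ^ k := h1.trans hrain
      _ ≤ (ε' / 2 ^ k) * n ^ k := mul_le_mul_of_nonneg_right (min_le_right _ _) (by positivity)
      _ = ε' * (n / 2) ^ k := by rw [div_pow]; ring
      _ ≤ ε' * n' ^ k := by
        apply mul_le_mul_of_nonneg_left _ hε'0.le
        exact pow_le_pow_left₀ (by positivity) hhalf k
  -- `B` is small
  have hBs := bset_small k r hk hr2 hA γ ε3 ε5 ε6 hγ hγL hε3a hε56 hε50.le hgap V P W hW1 hloss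
  rw [← hL, ← hn', ← hδ] at hBs
  have hB : ((Bset P W ε6).card : ℝ) ≤ ε9 * n' := by
    have h1 := hBs.trans hRW
    have h2 : ε' * n' ^ k ≤ (ε9 * δ ^ (k - 2) * ε5) * (n' * n' ^ (k - 1)) := by
      have : n' ^ k = n' * n' ^ (k - 1) := by
        rw [← pow_succ']; congr 1; omega
      rw [this]
      exact mul_le_mul_of_nonneg_right hε'a (by positivity)
    have h3 : (δ ^ (k - 2) * ε5 * n' ^ (k - 1)) * ((Bset P W ε6).card : ℝ) ≤
        (δ ^ (k - 2) * ε5 * n' ^ (k - 1)) * (ε9 * n') := by
      refine h1.trans (h2.trans (le_of_eq ?_))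
      ring
    exact le_of_mul_le_mul_left h3 (by positivity)
  have hfull := full_count k r hk hr2 ε3 ε6 ε9 hc9 hε30.le hε60.le V P W hloss hB
  rw [← hu, ← hc, ← hn'] at hfull
  let last : Fin k := ⟨k - 1, by omega⟩
  obtain ⟨x, hxF, hxb, hxd⟩ := good_full k r hk V P W hW1 _ (Finset.filter_subset _ _) c ε' hc0
    hfull last rfl hRW
  rw [Finset.mem_filter] at hxF
  obtain ⟨hxW, hxfull⟩ := hxF
  have hxfull' : ∀ i j : Fin k, i < j → j.val < k - 1 → P (x i) (x j) = univ := by
    intro i j hij hj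
    exact full_of_loss hr2 P _ _ ((hxfull j hj).2 i hij)
  have hgr : ∀ j : Fin k, j.val < k - 1 → Rg k P j x (x j) := by
    intro j hj
    refine ⟨fun i hij => ?_, ?_⟩
    · rw [hxfull' i j hij hj, Finset.card_univ, Fintype.card_fin]; exact hr2
    · rw [Finset.sum_eq_zero]
      · positivity
      · intro i hi
        exact (hxfull j hj).2 i (Finset.mem_filter.mp hi).2
  have htyp := typical k r hk hr2 hA γ ε3 hγ hgap V P W hloss last rfl x hxW hgr ε5
    (hxb.trans (mul_le_mul_of_nonneg_right (hε'b.trans (min_le_left _ _)) hn'0.le))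
  rw [← hu, ← hL, ← hn'] at htyp
  have hnt : ((W.filter (fun y => ¬ Typ k P x y)).card : ℝ) ≤ ε6 * n' := by
    have h1 : γ * ((W.filter (fun y => ¬ Typ k P x y)).card : ℝ) ≤ γ * (ε6 * n') := by
      refine htyp.trans ?_
      rw [← mul_assoc]
      exact mul_le_mul_of_nonneg_right hε56 hn'0.le
    exact le_of_mul_le_mul_left h1 hγ
  -- the classes
  let κ : V → Option (Fin (k - 1)) := fun y =>
    if h : y ∈ W ∧ Typ k P x y then some ⟨h.2.choose.val, h.2.choose_spec.1⟩ else none
  have hκ : ∀ y i, κ y = some i → y ∈ W ∧ ∀ j : Fin k, j.val < k - 1 → j.val ≠ i.val →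
      P (x j) y = univ := by
    intro y i hi
    by_cases h : y ∈ W ∧ Typ k P x y
    · simp only [κ, dif_pos h, Option.some.injEq] at hi
      refine ⟨h.1, fun j hj hji => ?_⟩
      apply full_of_loss hr2
      apply h.2.choose_spec.2.2 j hj
      intro hjc
      apply hji
      rw [← hi, hjc]
    · simp only [κ, dif_neg h] at hi
      exact absurd hi (by simp)
  refine ⟨κ, ?_, ?_⟩
  · -- exceptional vertices
    have h1 : (W0.filter (fun v => κ v = none)).card ≤ (W0 \ W).card +
        (W.filter (fun y => ¬ Typ k P x y)).card := by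
      refine le_trans (Finset.card_le_card ?_) (Finset.card_union_le _ _)
      intro y hy
      rw [Finset.mem_filter] at hy
      rw [Finset.mem_union, Finset.mem_sdiff, Finset.mem_filter]
      by_cases hyW : y ∈ W
      · right
        refine ⟨hyW, fun hT => ?_⟩
        have h2 : κ y = some ⟨(⟨hyW, hT⟩ : y ∈ W ∧ Typ k P x y).2.choose.val,
          (⟨hyW, hT⟩ : y ∈ W ∧ Typ k P x y).2.choose_spec.1⟩ := dif_pos ⟨hyW, hT⟩
        rw [h2] at hy
        exact absurd hy.2 (by simp)
      · exact Or.inl ⟨hy.1, hyW⟩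
    have h2 : ((W0 \ W).card : ℝ) = n - n' := by
      rw [Finset.card_sdiff_of_subset hWW, Nat.cast_sub (Finset.card_le_card hWW)]
    have h3 : ((W0.filter (fun v => κ v = none)).card : ℝ) ≤ (n - n') + ε6 * n' := by
      have : ((W0.filter (fun v => κ v = none)).card : ℝ) ≤ ((W0 \ W).card : ℝ) +
        ((W.filter (fun y => ¬ Typ k P x y)).card : ℝ) := by exact_mod_cast h1
      rw [h2] at this
      linarith
    have hn'n : n' ≤ n := by
      rw [hn, hn']; exact_mod_cast Finset.card_le_card hWW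
    have h4 : ε6 * n' ≤ η' / 4 * n :=
      mul_le_mul hε6a hn'n hn'0.le (by positivity)
    have h5 : η' / 4 * n + η' / 4 * n ≤ η * n := by
      have : (η' / 4 + η' / 4) * n ≤ η * n := mul_le_mul_of_nonneg_right (by linarith) (by linarith)
      linarith
    linarith
  · -- pairs inside a class
    have h1 : ((W0 ×ˢ W0).filter (fun p => κ p.1 = κ p.2 ∧ κ p.1 ≠ none ∧ P p.1 p.2 ≠ ∅)).card ≤
        ∑ i ∈ univ.filter (fun i : Fin k => i.val < k - 1),
        ((W ×ˢ W).filter (fun p => Rainbowable k P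
          (Function.update (Function.update x i p.1) last p.2))).card := by
      refine le_trans (Finset.card_le_card ?_) Finset.card_biUnion_le
      intro p hp
      rw [Finset.mem_filter] at hp
      obtain ⟨_, hp1, hp2, hp3⟩ := hp
      obtain ⟨i, hi⟩ := Option.ne_none_iff_exists'.mp hp2
      have h2 := hκ p.1 i hi
      have h3 := hκ p.2 i (by rw [← hp1]; exact hi)
      have hik : i.val < k := by have := i.isLt; omega
      rw [Finset.mem_biUnion]
      refine ⟨⟨i.val, hik⟩, Finset.mem_filter.mpr ⟨Finset.mem_univ _, i.isLt⟩, ?_⟩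
      rw [Finset.mem_filter, Finset.mem_product]
      refine ⟨⟨h2.1, h3.1⟩, ?_⟩
      apply same_class k r hk hr V P hsymm x hxfull' last rfl ⟨i.val, hik⟩ i.isLt p.1 p.2
      · intro j hj hji
        exact h2.2 j hj (fun h => hji (Fin.ext h))
      · intro j hj hji
        exact h3.2 j hj (fun h => hji (Fin.ext h))
      · exact hp3
    have h2 : (((W0 ×ˢ W0).filter (fun p => κ p.1 = κ p.2 ∧ κ p.1 ≠ none ∧
        P p.1 p.2 ≠ ∅)).card : ℝ) ≤ (k * ε' / c) * n' ^ 2 := by
      refine le_trans ?_ hxd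
      exact_mod_cast h1
    have hn'n : n' ≤ n := by
      rw [hn, hn']; exact_mod_cast Finset.card_le_card hWW
    calc _ ≤ (k * ε' / c) * n' ^ 2 := h2
      _ ≤ η * n ^ 2 := by
        apply mul_le_mul
        · exact (hε'b.trans (min_le_right _ _)).trans hη'η
        · exact pow_le_pow_left₀ hn'0.le hn'n 2
        · positivity
        · exact hη.le

end Pool.Agent.TH477.RB
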