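import Pool.Agent.TH477.RB.Near1
import Pool.Agent.TH477.RB.Stab3

/-!
Complete multipartite graphs with many colourings are close to the Turán graph.
-/

set_option autoImplicit false

namespace Pool.Agent.TH477.RB

open Finset

open Classical in
/-- logarithmic lower bound coming from the Turán graph -/
theorem log_cc_ge (k r n : ℕ) (hk : 4 ≤ k) (hr : 2 ≤ r) (G : SimpleGraph (Fin n))
    (h : cc r k (SimpleGraph.turanGraph n (k - 1)) ≤ cc r k G) :
    1 ≤ cc r k G ∧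
    ((1 - 1 / ((k - 1 : ℕ) : ℝ)) * (n : ℝ) ^ 2 - (((k - 1 : ℕ) : ℝ) ^ 2 + 2)) / 2 * Real.log r ≤
      Real.log (cc r k G) := by
  have hLpos : 0 < Real.log r := Real.log_pos (by exact_mod_cast (by omega : 1 < r))
  have hcf : (SimpleGraph.turanGraph n (k - 1)).CliqueFree k := by
    have := SimpleGraph.turanGraph_cliqueFree (n := n) (r := k - 1) (by omega)
    rwa [Nat.sub_add_cancel (by omega : 1 ≤ k)] at this
  have h1 := cc_eq_pow r k _ hcf
  have h2 := turan_lower (k - 1) n (by omega)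
  set e := Fintype.card (SimpleGraph.turanGraph n (k - 1)).edgeSet with he
  have hpos : 1 ≤ cc r k (SimpleGraph.turanGraph n (k - 1)) := by
    rw [h1]; exact Nat.one_le_pow _ _ (by omega)
  refine ⟨hpos.trans h, ?_⟩
  have h3 : Real.log (cc r k (SimpleGraph.turanGraph n (k - 1)) : ℝ) ≤ Real.log (cc r k G) := by
    apply Real.log_le_log
    · exact_mod_cast (by omega : 0 < cc r k (SimpleGraph.turanGraph n (k - 1)))
    · exact_mod_cast h
  have h4 : Real.log (cc r k (SimpleGraph.turanGraph n (k - 1)) : ℝ) = e * Real.log r := by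
    rw [h1]; push_cast; rw [Real.log_pow]
  rw [h4] at h3
  refine le_trans ?_ h3
  apply mul_le_mul_of_nonneg_right _ hLpos.le
  linarith

open Classical in
theorem edges_ge (k r n : ℕ) (hk : 4 ≤ k) (hr : 2 ≤ r) (G : SimpleGraph (Fin n))
    (h : cc r k (SimpleGraph.turanGraph n (k - 1)) ≤ cc r k G) :
    (1 - 1 / ((k - 1 : ℕ) : ℝ)) * (n : ℝ) ^ 2 - (((k - 1 : ℕ) : ℝ) ^ 2 + 2) ≤
      2 * (Fintype.card G.edgeSet : ℝ) := by
  have hcf : (SimpleGraph.turanGraph n (k - 1)).CliqueFree k := by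
    have := SimpleGraph.turanGraph_cliqueFree (n := n) (r := k - 1) (by omega)
    rwa [Nat.sub_add_cancel (by omega : 1 ≤ k)] at this
  have h1 := cc_eq_pow r k _ hcf
  have h2 := turan_lower (k - 1) n (by omega)
  have h3 := cc_le_pow r k G
  rw [h1] at h
  have h4 := h.trans h3
  have h5 := (Nat.pow_le_pow_iff_right (by omega : 1 < r)).mp h4
  have h6 : (Fintype.card (SimpleGraph.turanGraph n (k - 1)).edgeSet : ℝ) ≤
      (Fintype.card G.edgeSet : ℝ) := by exact_mod_cast h5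
  linarith

open Classical in
theorem near_turan (k r : ℕ) (hk : 4 ≤ k) (hr : k.choose 2 ≤ r) (hA : ArithOK k r) (η : ℝ)
    (hη : 0 < η) :
    ∃ n0 : ℕ, ∀ n : ℕ, n0 ≤ n → ∀ G : SimpleGraph (Fin n),
      cc r k (SimpleGraph.turanGraph n (k - 1)) ≤ cc r k G →
      (∀ x y z, ¬ G.Adj x y → ¬ G.Adj y z → ¬ G.Adj x z) →
      ∃ cls : Fin n → Option (Fin (k - 1)),
        (∀ i, |((univ.filter (fun y => cls y = some i)).card : ℝ) - n / ((k - 1 : ℕ) : ℝ)| ≤
          η * n) ∧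
        ∀ x y i, cls x = some i → (G.Adj x y ↔ cls y ≠ some i) := by
  have hr6 : 6 ≤ r := by
    have : (4).choose 2 ≤ k.choose 2 := Nat.choose_le_choose 2 hk
    have h6 : (4).choose 2 = 6 := by decide
    omega
  have hr2 : 2 ≤ r := by omega
  set L := Real.log r with hL
  have hLpos : 0 < L := Real.log_pos (by exact_mod_cast (by omega : 1 < r))
  set u : ℝ := ((k - 1 : ℕ) : ℝ) with hu
  have hu3 : (3 : ℝ) ≤ u := by rw [hu]; exact_mod_cast (by omega : 3 ≤ k - 1)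
  have hu0 : 0 < u := by linarith
  obtain ⟨η1, hη1, hgraph⟩ := near_turan_graph (k - 1) (by omega) η hη
  obtain ⟨ε1, hε1, n1, hstab⟩ := stability k r hk hr hA (η1 / 2) (by positivity)
  set ε : ℝ := min (ε1 / 4) (η1 / 2) with hε
  have hε0 : 0 < ε := lt_min (by positivity) (by positivity)
  have hεa : ε ≤ ε1 / 4 := min_le_left _ _
  have hεb : ε ≤ η1 / 2 := min_le_right _ _
  obtain ⟨n2, hcont⟩ := container k r hk hr2 ε hε0
  set C : ℝ := u ^ 2 + 2 with hC
  have hC0 : 0 < C := by positivity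
  refine ⟨max (max n1 n2) (max (⌈2 * C * L / ε1⌉₊ + 1) (⌈C / η1⌉₊ + 1)), ?_⟩
  intro n hn G hcc hcm
  have hn1 : n1 ≤ n := (le_max_left _ _).trans ((le_max_left _ _).trans hn)
  have hn2 : n2 ≤ n := (le_max_right _ _).trans ((le_max_left _ _).trans hn)
  have hn3 : ⌈2 * C * L / ε1⌉₊ + 1 ≤ n := (le_max_left _ _).trans ((le_max_right _ _).trans hn)
  have hn4 : ⌈C / η1⌉₊ + 1 ≤ n := (le_max_right _ _).trans ((le_max_right _ _).trans hn)
  have hnr : (1 : ℝ) ≤ (n : ℝ) := by exact_mod_cast (by omega : 1 ≤ n)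
  have hnn : (n : ℝ) ≤ (n : ℝ) ^ 2 := by
    rw [pow_two]
    exact le_mul_of_one_le_left (by linarith) hnr
  have hn3' : C * L ≤ ε1 / 2 * (n : ℝ) ^ 2 := by
    have h1 : 2 * C * L / ε1 ≤ n := (Nat.le_ceil _).trans (by exact_mod_cast (by omega))
    rw [div_le_iff₀ hε1] at h1
    have h2 : n * ε1 ≤ (n : ℝ) ^ 2 * ε1 := mul_le_mul_of_nonneg_right hnn hε1.le
    linarith
  have hn4' : C ≤ η1 * (n : ℝ) ^ 2 := by
    have h1 : C / η1 ≤ n := (Nat.le_ceil _).trans (by exact_mod_cast (by omega))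
    rw [div_le_iff₀ hη1] at h1
    have h2 : n * η1 ≤ (n : ℝ) ^ 2 * η1 := mul_le_mul_of_nonneg_right hnn hη1.le
    linarith
  obtain ⟨hcc1, hlog⟩ := log_cc_ge k r n hk hr2 G hcc
  rw [← hu, ← hC, ← hL] at hlog
  obtain ⟨P, hsymm, hPadj, hPe, hPr, hPlog⟩ := hcont n hn2 G hcc1
  have hPdiag : ∀ x, P x x = ∅ := fun x => hPadj x x (G.irrefl)
  have hcardU : ((univ : Finset (Fin n)).card : ℝ) = n := by simp
  obtain ⟨κ, hκ1, hκ2⟩ := hstab (Fin n) P hsymm hPdiag univ (by simpa using hn1)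
    (by
      rw [hcardU]
      refine hPr.trans (mul_le_mul_of_nonneg_right ?_ (by positivity))
      linarith)
    (by
      rw [hcardU]
      have h1 := hlog.trans hPlog
      have h2 : ε * (n : ℝ) ^ 2 ≤ ε1 / 4 * (n : ℝ) ^ 2 :=
        mul_le_mul_of_nonneg_right hεa (by positivity)
      have e1 : ((1 - 1 / u) * (n : ℝ) ^ 2 - C) / 2 * L =
        (1 - 1 / u) * L * (n : ℝ) ^ 2 / 2 - C * L / 2 := by ring
      rw [e1] at h1
      rw [sub_mul]
      linarith)
  rw [hcardU] at hκ1 hκ2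
  apply hgraph n (by exact_mod_cast hnr) G hcm κ
  · refine hκ1.trans (mul_le_mul_of_nonneg_right (by linarith) (by positivity))
  · have h1 : (univ.filter (fun p : Fin n × Fin n => κ p.1 = κ p.2 ∧ κ p.1 ≠ none ∧
        G.Adj p.1 p.2)).card ≤
        ((univ ×ˢ univ).filter (fun p : Fin n × Fin n => κ p.1 = κ p.2 ∧ κ p.1 ≠ none ∧
          P p.1 p.2 ≠ ∅)).card +
        (univ.filter (fun p : Fin n × Fin n => G.Adj p.1 p.2 ∧ P p.1 p.2 = ∅)).card := by
      refine le_trans (Finset.card_le_card ?_) (Finset.card_union_le _ _)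
      intro p hp
      rw [Finset.mem_filter] at hp
      rw [Finset.mem_union, Finset.mem_filter, Finset.mem_filter]
      by_cases h : P p.1 p.2 = ∅
      · exact Or.inr ⟨Finset.mem_univ _, hp.2.2.2, h⟩
      · exact Or.inl ⟨by simp, hp.2.1, hp.2.2.1, h⟩
    have h2 : ((univ.filter (fun p : Fin n × Fin n => κ p.1 = κ p.2 ∧ κ p.1 ≠ none ∧
        G.Adj p.1 p.2)).card : ℝ) ≤
        (((univ ×ˢ univ).filter (fun p : Fin n × Fin n => κ p.1 = κ p.2 ∧ κ p.1 ≠ none ∧
          P p.1 p.2 ≠ ∅)).card : ℝ) +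
        ((univ.filter (fun p : Fin n × Fin n => G.Adj p.1 p.2 ∧ P p.1 p.2 = ∅)).card : ℝ) := by
      exact_mod_cast h1
    have h3 : ε * (n : ℝ) ^ 2 ≤ η1 / 2 * (n : ℝ) ^ 2 :=
      mul_le_mul_of_nonneg_right hεb (by positivity)
    linarith
  · have h1 := edges_ge k r n hk hr2 G hcc
    rw [← hu, ← hC] at h1
    rw [card_adj_pairs]
    have e1 : (1 - 1 / u - η1) * (n : ℝ) ^ 2 = (1 - 1 / u) * (n : ℝ) ^ 2 - η1 * (n : ℝ) ^ 2 := by
      ring
    rw [e1]
    linarith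

end Pool.Agent.TH477.RB
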