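import Pool.Agent.TH477.RB.Dense

/-!
Stability: auxiliary lemmas.
-/

set_option autoImplicit false

namespace Pool.Agent.TH477.RB

open Finset

theorem full_of_loss {V : Type} {r : ℕ} (hr : 2 ≤ r) (P : V → V → Finset (Fin r)) (x y : V)
    (h : loss P x y = 0) : P x y = univ := by
  unfold loss wt at h
  have hr0 : (0 : ℝ) < r := by exact_mod_cast (by omega : 0 < r)
  have hL : 0 < Real.log r := Real.log_pos (by exact_mod_cast (by omega : 1 < r))
  have h1 : Real.log ((P x y).card : ℝ) = Real.log r := by linarith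
  have h2 : 0 < (P x y).card := by
    rcases Nat.eq_zero_or_pos (P x y).card with h3 | h3
    · rw [h3] at h1
      simp only [Nat.cast_zero, Real.log_zero] at h1
      linarith
    · exact h3
  have h3 := Real.log_injOn_pos (Set.mem_Ioi.mpr (by exact_mod_cast h2)) (Set.mem_Ioi.mpr hr0) h1
  have h4 : (P x y).card = r := by exact_mod_cast h3
  rw [← Finset.card_eq_iff_eq_univ, Fintype.card_fin]
  exact h4

/-- one special pair, all other pairs full -/
theorem rainbow_one_special {V : Type} {r k : ℕ} (hr : k.choose 2 ≤ r)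
    (P : V → V → Finset (Fin r)) (x : Fin k → V) (i0 j0 : Fin k) (h0 : i0 < j0)
    (hne : P (x i0) (x j0) ≠ ∅)
    (hfull : ∀ i j, i < j → (i, j) ≠ (i0, j0) → P (x i) (x j) = univ) : Rainbowable k P x := by
  classical
  obtain ⟨c0, hc0⟩ := Finset.nonempty_iff_ne_empty.mpr hne
  have hcard : Fintype.card {p : Fin k × Fin k // p.1 < p.2} ≤ Fintype.card (Fin r) := by
    rw [Fintype.card_subtype, card_pairs, Fintype.card_fin]
    exact hr
  obtain ⟨f⟩ := Function.Embedding.nonempty_of_card_le hcard
  let p0 : {p : Fin k × Fin k // p.1 < p.2} := ⟨(i0, j0), h0⟩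
  let g : {p : Fin k × Fin k // p.1 < p.2} → Fin r := fun p => Equiv.swap (f p0) c0 (f p)
  have hg : Function.Injective g := (Equiv.injective _).comp f.injective
  have hg0 : g p0 = c0 := Equiv.swap_apply_left _ _
  refine ⟨fun i j => if hij : i < j then g ⟨(i, j), hij⟩ else c0, ?_, ?_⟩
  · intro i j hij
    simp only [hij, dif_pos]
    by_cases hh : (i, j) = (i0, j0)
    · have h1 : (⟨(i, j), hij⟩ : {p : Fin k × Fin k // p.1 < p.2}) = p0 := Subtype.ext hh
      rw [h1, hg0]
      simp only [Prod.mk.injEq] at hh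
      rw [hh.1, hh.2]
      exact hc0
    · rw [hfull i j hij hh]
      exact Finset.mem_univ _
  · intro i j i' j' hij hij' heq
    simp only [hij, hij', dif_pos] at heq
    have := hg heq
    simp only [Subtype.mk.injEq, Prod.mk.injEq] at this
    exact this

open Classical in
/-- extension of greedy tuples when the average losses are about `L/u` -/
theorem greedy_ext (k r : ℕ) (hk : 4 ≤ k) (hr : 2 ≤ r) (γ ε3 : ℝ) (hγ : 0 < γ)
    (hγL : γ ≤ Real.log r / ((k - 1 : ℕ) : ℝ)) (hε3 : ((k - 1 : ℕ) : ℝ) * ε3 ≤ γ / 2)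
    (hgap : ∀ (V : Type) (P : V → V → Finset (Fin r))
    (x : Fin k → V) (y : V) (j : Fin k),
    ∑ i ∈ univ.filter (fun i => i < j), loss P (x i) y ≤
      (j.val : ℝ) / ((k - 1 : ℕ) : ℝ) * Real.log r ∨
    (j.val : ℝ) / ((k - 1 : ℕ) : ℝ) * Real.log r + γ ≤
      ∑ i ∈ univ.filter (fun i => i < j), loss P (x i) y)
    (V : Type) (P : V → V → Finset (Fin r)) (W : Finset V)
    (hloss : ∀ x ∈ W, ∑ y ∈ W, loss P x y ≤
      (Real.log r / ((k - 1 : ℕ) : ℝ) + ε3) * (W.card : ℝ))
    (x : Fin k → V) (hx : x ∈ tup k W) (t : Fin k) (ht : t.val < k - 1) :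
    γ / (2 * (Real.log r + γ)) * (W.card : ℝ) ≤ ((W.filter (fun y => Rg k P t x y)).card : ℝ) := by
  set L := Real.log r with hL
  have hLpos : 0 < L := Real.log_pos (by exact_mod_cast (by omega : 1 < r))
  set u : ℝ := ((k - 1 : ℕ) : ℝ) with hu
  have hu3 : (3 : ℝ) ≤ u := by rw [hu]; exact_mod_cast (by omega : 3 ≤ k - 1)
  have hu0 : 0 < u := by linarith
  set n' : ℝ := (W.card : ℝ) with hn'
  have hn'0 : 0 ≤ n' := by positivity
  set T : ℝ := (t.val : ℝ) with hT
  have hT0 : 0 ≤ T := by positivity
  have hTu : T + 1 ≤ u := by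
    rw [hT, hu]
    exact_mod_cast (by omega : t.val + 1 ≤ k - 1)
  -- total loss
  have h1 : ∑ y ∈ W, ∑ i ∈ univ.filter (fun i => i < t), loss P (x i) y ≤
      T * ((L / u + ε3) * n') := by
    rw [Finset.sum_comm]
    calc ∑ i ∈ univ.filter (fun i => i < t), ∑ y ∈ W, loss P (x i) y
        ≤ ∑ i ∈ univ.filter (fun i => i < t), (L / u + ε3) * n' :=
          Finset.sum_le_sum fun i _ => hloss (x i) (mem_tup.mp hx i)
      _ = T * ((L / u + ε3) * n') := by
          rw [Finset.sum_const, nsmul_eq_mul]
          have : univ.filter (fun i => i < t) = Finset.Iio t := by ext; simp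
          rw [this, Fin.card_Iio]
  -- bad vertices
  have h2 : (T / u * L + γ) * ((W.filter (fun y => ¬ Rg k P t x y)).card : ℝ) ≤
      ∑ y ∈ W, ∑ i ∈ univ.filter (fun i => i < t), loss P (x i) y := by
    calc (T / u * L + γ) * ((W.filter (fun y => ¬ Rg k P t x y)).card : ℝ)
        = ∑ y ∈ W.filter (fun y => ¬ Rg k P t x y), (T / u * L + γ) := by
          rw [Finset.sum_const, nsmul_eq_mul]; ring
      _ ≤ ∑ y ∈ W.filter (fun y => ¬ Rg k P t x y),
            ∑ i ∈ univ.filter (fun i => i < t), loss P (x i) y := by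
          refine Finset.sum_le_sum fun y hy => ?_
          have hy' := (Finset.mem_filter.mp hy).2
          unfold Rg at hy'
          by_cases hc : ∀ i, i < t → 2 ≤ (P (x i) y).card
          · have : ¬ _ := fun h => hy' ⟨hc, h⟩
            rcases hgap V P x y t with h5 | h5
            · exact absurd h5 this
            · exact h5
          · push Not at hc
            obtain ⟨i, hi, hc⟩ := hc
            calc T / u * L + γ ≤ T / u * L + L / u := by linarith
              _ = (T + 1) / u * L := by ring
              _ ≤ 1 * L := by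
                  apply mul_le_mul_of_nonneg_right _ hLpos.le
                  rwa [div_le_one hu0]
              _ = loss P (x i) y := by
                  rw [one_mul, loss_eq_of_card_lt P _ _ hc]
              _ ≤ _ := Finset.single_le_sum (f := fun i => loss P (x i) y)
                  (fun i _ => loss_nonneg P _ _)
                  (Finset.mem_filter.mpr ⟨Finset.mem_univ _, hi⟩)
      _ ≤ _ := Finset.sum_le_sum_of_subset_of_nonneg (Finset.filter_subset _ _)
          fun y _ _ => Finset.sum_nonneg fun i _ => loss_nonneg P _ _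
  have h3 : ((W.filter (fun y => Rg k P t x y)).card : ℝ) +
      ((W.filter (fun y => ¬ Rg k P t x y)).card : ℝ) = n' := by
    rw [hn']
    exact_mod_cast Finset.card_filter_add_card_filter_not (s := W) (fun y => Rg k P t x y)
  set g : ℝ := ((W.filter (fun y => Rg k P t x y)).card : ℝ) with hg
  set b : ℝ := ((W.filter (fun y => ¬ Rg k P t x y)).card : ℝ) with hb
  have hg0 : 0 ≤ g := by positivity
  have h4 : (T / u * L + γ) * b ≤ T * ((L / u + ε3) * n') := h2.trans h1
  have h5 : (T / u * L + γ) * g ≥ γ / 2 * n' := by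
    have hb' : b = n' - g := by linarith
    rw [hb'] at h4
    have e1 : T * ((L / u + ε3) * n') = T / u * L * n' + T * ε3 * n' := by ring
    have e2 : (T / u * L + γ) * (n' - g) = T / u * L * n' + γ * n' - (T / u * L + γ) * g := by
      ring
    rw [e1, e2] at h4
    have h6 : T * ε3 * n' ≤ γ / 2 * n' := by
      apply mul_le_mul_of_nonneg_right _ hn'0
      rcases le_or_gt 0 ε3 with h7 | h7
      · exact le_trans (mul_le_mul_of_nonneg_right (by linarith) h7) hε3
      · have : T * ε3 ≤ 0 := mul_nonpos_of_nonneg_of_nonpos hT0 h7.le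
        linarith
    linarith
  have h6 : T / u * L + γ ≤ L + γ := by
    have : T / u * L ≤ 1 * L := by
      apply mul_le_mul_of_nonneg_right _ hLpos.le
      rw [div_le_one hu0]; linarith
    linarith
  have h7 : γ / 2 * n' ≤ (L + γ) * g := h5.le.trans (mul_le_mul_of_nonneg_right h6 hg0)
  have hLγ : 0 < L + γ := by linarith
  rw [div_mul_eq_mul_div, div_le_iff₀ (by positivity)]
  linarith

/-- `y` is typical with respect to the first `k-1` vertices of `x`: exactly one palette is small and the
others are full -/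
def Typ {V : Type} {r : ℕ} (k : ℕ) (P : V → V → Finset (Fin r)) (x : Fin k → V) (y : V) : Prop :=
  ∃ i : Fin k, i.val < k - 1 ∧ (P (x i) y).card < 2 ∧
    ∀ j : Fin k, j.val < k - 1 → j ≠ i → loss P (x j) y = 0

open Classical in
theorem typical (k r : ℕ) (hk : 4 ≤ k) (hr : 2 ≤ r) (hA : ArithOK k r) (γ ε3 : ℝ) (hγ : 0 < γ)
    (hgap : ∀ (V : Type) (P : V → V → Finset (Fin r))
    (x : Fin k → V) (y : V) (j : Fin k),
    ∑ i ∈ univ.filter (fun i => i < j), loss P (x i) y ≤
      (j.val : ℝ) / ((k - 1 : ℕ) : ℝ) * Real.log r ∨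
    (j.val : ℝ) / ((k - 1 : ℕ) : ℝ) * Real.log r + γ ≤
      ∑ i ∈ univ.filter (fun i => i < j), loss P (x i) y)
    (V : Type) (P : V → V → Finset (Fin r)) (W : Finset V)
    (hloss : ∀ x ∈ W, ∑ y ∈ W, loss P x y ≤
      (Real.log r / ((k - 1 : ℕ) : ℝ) + ε3) * (W.card : ℝ))
    (last : Fin k) (hlast : last.val = k - 1)
    (x : Fin k → V) (hx : x ∈ tup k W) (hgr : ∀ j : Fin k, j.val < k - 1 → Rg k P j x (x j))
    (ε5 : ℝ)
    (hb : ((W.filter (fun y => Rainbowable k P (Function.update x last y))).card : ℝ) ≤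
      ε5 * (W.card : ℝ)) :
    γ * ((W.filter (fun y => ¬ Typ k P x y)).card : ℝ) ≤
      (((k - 1 : ℕ) : ℝ) * ε3 + (Real.log r + γ) * ε5) * (W.card : ℝ) := by
  set L := Real.log r with hL
  have hLpos : 0 < L := Real.log_pos (by exact_mod_cast (by omega : 1 < r))
  set u : ℝ := ((k - 1 : ℕ) : ℝ) with hu
  have hu3 : (3 : ℝ) ≤ u := by rw [hu]; exact_mod_cast (by omega : 3 ≤ k - 1)
  have hu0 : 0 < u := by linarith
  set n' : ℝ := (W.card : ℝ) with hn'
  have hn'0 : 0 ≤ n' := by positivity
  have hlu : (last.val : ℝ) / u * L = L := by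
    rw [hlast, ← hu]; field_simp
  let F : V → ℝ := fun y => ∑ i ∈ univ.filter (fun i => i < last), loss P (x i) y
  have hF0 : ∀ y, 0 ≤ F y := fun y => Finset.sum_nonneg fun i _ => loss_nonneg P _ _
  -- total loss
  have h1 : ∑ y ∈ W, F y ≤ (L + u * ε3) * n' := by
    simp only [F]
    rw [Finset.sum_comm]
    calc ∑ i ∈ univ.filter (fun i => i < last), ∑ y ∈ W, loss P (x i) y
        ≤ ∑ i ∈ univ.filter (fun i => i < last), (L / u + ε3) * n' :=
          Finset.sum_le_sum fun i _ => hloss (x i) (mem_tup.mp hx i)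
      _ = (L + u * ε3) * n' := by
          rw [Finset.sum_const, nsmul_eq_mul]
          have : univ.filter (fun i => i < last) = Finset.Iio last := by ext; simp
          rw [this, Fin.card_Iio, hlast, ← hu]
          field_simp
  -- not rainbowable: large loss
  have hlast_lt : ∀ i : Fin k, i < last ↔ i.val < k - 1 := by
    intro i; rw [Fin.lt_def, hlast]
  have hRg : ∀ y, ¬ Rainbowable k P (Function.update x last y) → ¬ Rg k P last x y := by
    intro y hy hR
    apply hy
    apply greedy_rainbow' (by omega) hr hA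
    intro j
    by_cases hj : j = last
    · subst hj
      rw [Function.update_self, Rg_update P j x j y y le_rfl]
      exact hR
    · have hj' : j.val < k - 1 := by
        have := j.isLt
        have h2 : j.val ≠ last.val := fun h => hj (Fin.ext h)
        omega
      rw [Function.update_of_ne hj, Rg_update P j x last y (x j) (by rw [Fin.le_def]; omega)]
      exact hgr j hj'
  have hnr : ∀ y, ¬ Rainbowable k P (Function.update x last y) → L ≤ F y ∧
      (¬ Typ k P x y → L + γ ≤ F y) := by
    intro y hy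
    have h2 := hRg y hy
    unfold Rg at h2
    rw [← hu, hlu] at h2
    have hg := hgap V P x y last
    rw [hlu] at hg
    by_cases hc : ∀ i, i < last → 2 ≤ (P (x i) y).card
    · have h3 : ¬ (F y ≤ L) := fun h => h2 ⟨hc, h⟩
      refine ⟨(not_le.mp h3).le, fun _ => ?_⟩
      rcases hg with h5 | h5
      · exact absurd h5 h3
      · exact h5
    · push Not at hc
      obtain ⟨i, hi, hc⟩ := hc
      have h3 : loss P (x i) y = L := loss_eq_of_card_lt P _ _ hc
      have himem : i ∈ univ.filter (fun i => i < last) :=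
        Finset.mem_filter.mpr ⟨Finset.mem_univ _, hi⟩
      have h4 : L ≤ F y := by
        rw [← h3]
        exact Finset.single_le_sum (f := fun i => loss P (x i) y)
          (fun i _ => loss_nonneg P _ _) himem
      refine ⟨h4, fun hT => ?_⟩
      rcases hg with h5 | h5
      · exfalso
        apply hT
        refine ⟨i, (hlast_lt i).mp hi, hc, ?_⟩
        intro j hj hji
        have h6 : F y = loss P (x i) y +
            ∑ i' ∈ (univ.filter (fun i => i < last)).erase i, loss P (x i') y :=
          (Finset.add_sum_erase _ (fun i => loss P (x i) y) himem).symm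
        have h7 : ∑ i' ∈ (univ.filter (fun i => i < last)).erase i, loss P (x i') y ≤ 0 := by
          have : F y ≤ L := h5
          linarith
        have h8 : loss P (x j) y ≤
            ∑ i' ∈ (univ.filter (fun i => i < last)).erase i, loss P (x i') y :=
          Finset.single_le_sum (f := fun i => loss P (x i) y)
            (fun i _ => loss_nonneg P _ _)
            (Finset.mem_erase.mpr ⟨hji, Finset.mem_filter.mpr ⟨Finset.mem_univ _,
              (hlast_lt j).mpr hj⟩⟩)
        exact le_antisymm (h8.trans h7) (loss_nonneg P _ _)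
      · exact h5
  -- counting
  let Rb : V → Prop := fun y => Rainbowable k P (Function.update x last y)
  have hpt : ∀ y ∈ W, L + γ * (if ¬ Typ k P x y then (1 : ℝ) else 0) -
      (L + γ) * (if Rb y then (1 : ℝ) else 0) ≤ F y := by
    intro y _
    by_cases hR : Rb y
    · have := hF0 y
      rw [if_pos hR]
      split_ifs <;> nlinarith
    · rw [if_neg hR]
      have h2 := hnr y hR
      by_cases hT : Typ k P x y
      · rw [if_neg (not_not.mpr hT)]
        have := h2.1
        linarith
      · rw [if_pos hT]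
        have := h2.2 hT
        linarith
  have hsum := Finset.sum_le_sum hpt
  rw [Finset.sum_sub_distrib, Finset.sum_add_distrib, ← Finset.mul_sum, ← Finset.mul_sum,
    Finset.sum_const, nsmul_eq_mul] at hsum
  have e1 : ∑ y ∈ W, (if ¬ Typ k P x y then (1 : ℝ) else 0) =
      ((W.filter (fun y => ¬ Typ k P x y)).card : ℝ) := by
    rw [Finset.card_filter]; push_cast; rfl
  have e2 : ∑ y ∈ W, (if Rb y then (1 : ℝ) else 0) =
      ((W.filter (fun y => Rb y)).card : ℝ) := by
    rw [Finset.card_filter]; push_cast; rfl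
  rw [e1, e2] at hsum
  have hb' : (L + γ) * ((W.filter (fun y => Rb y)).card : ℝ) ≤ (L + γ) * (ε5 * n') :=
    mul_le_mul_of_nonneg_left hb (by linarith)
  have e3 : (u * ε3 + (L + γ) * ε5) * n' = (L + u * ε3) * n' - n' * L + (L + γ) * (ε5 * n') := by
    ring
  rw [e3]
  linarith

end Pool.Agent.TH477.RB
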