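import Pool.Agent.TH477.RB.Stab1

/-!
Stability: main counting lemmas.
-/

set_option autoImplicit false

namespace Pool.Agent.TH477.RB

open Finset

open Classical in
theorem large_subset (k r : ℕ) (hk : 4 ≤ k) (hr : 2 ≤ r) (hA : ArithOK k r) (η ε3 : ℝ)
    (hη : 0 < η) (hη1 : η ≤ 1) (hε3 : 0 < ε3) :
    ∃ ε : ℝ, 0 < ε ∧ ∃ n0 : ℕ, ∀ (V : Type) (P : V → V → Finset (Fin r)),
      (∀ x y, P x y = P y x) → (∀ x, P x x = ∅) → ∀ W0 : Finset V, n0 ≤ W0.card →
      (((tup k W0).filter (fun x => Rainbowable k P x)).card : ℝ) ≤ ε * (W0.card : ℝ) ^ k →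
      ((1 - 1 / ((k - 1 : ℕ) : ℝ)) * Real.log r - ε) * (W0.card : ℝ) ^ 2 ≤
        ∑ x ∈ W0, ∑ y ∈ W0, wt P x y →
      ∃ W, W ⊆ W0 ∧ (1 - η) * (W0.card : ℝ) ≤ (W.card : ℝ) ∧ ∀ x ∈ W, ∑ y ∈ W, loss P x y ≤
        (Real.log r / ((k - 1 : ℕ) : ℝ) + ε3) * (W.card : ℝ) := by
  set L := Real.log r with hL
  have hLpos : 0 < L := Real.log_pos (by exact_mod_cast (by omega : 1 < r))
  set u : ℝ := ((k - 1 : ℕ) : ℝ) with hu
  have hu3 : (3 : ℝ) ≤ u := by rw [hu]; exact_mod_cast (by omega : 3 ≤ k - 1)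
  have hu0 : 0 < u := by linarith
  obtain ⟨ε', hε', n1, hU⟩ := upper k r hk hr hA (ε3 * η / 8) (by positivity)
  rw [← hL, ← hu] at hU
  set c0 : ℝ := Real.sqrt ((ε3 / 4) / (L / u + ε3 / 2)) with hc0
  have hD : 0 < L / u + ε3 / 2 := by positivity
  have hc00 : 0 < c0 := Real.sqrt_pos.mpr (by positivity)
  have hc02 : c0 ^ 2 * (L / u + ε3 / 2) = ε3 / 4 := by
    rw [hc0, Real.sq_sqrt (by positivity)]
    field_simp
  refine ⟨min (ε3 / 4) (min (ε3 * η / 8) (ε' * c0 ^ k)), by positivity,
    ⌈((n1 : ℝ) + L / ε3) / c0⌉₊ + 1, ?_⟩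
  set ε := min (ε3 / 4) (min (ε3 * η / 8) (ε' * c0 ^ k)) with hε
  have he1 : ε ≤ ε3 / 4 := min_le_left _ _
  have he2 : ε ≤ ε3 * η / 8 := (min_le_right _ _).trans (min_le_left _ _)
  have he3 : ε ≤ ε' * c0 ^ k := (min_le_right _ _).trans (min_le_right _ _)
  have he0 : 0 < ε := by positivity
  intro V P hsymm hdiag W0 hWn hrain hwt
  set α : ℝ := (1 - 1 / u) * L - ε3 / 2 with hα
  obtain ⟨W, hWW, hval, hdeg⟩ := dense_subset (wt P) (fun x y => by unfold wt; rw [hsymm])
    (fun x => by unfold wt; rw [hdiag]; simp) W0 α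
  set n : ℝ := (W0.card : ℝ) with hn
  set n' : ℝ := (W.card : ℝ) with hn'
  have hn'00 : 0 ≤ n' := by positivity
  have hn1 : (1 : ℝ) ≤ n := by
    rw [hn]; exact_mod_cast (by omega : 1 ≤ W0.card)
  have hn2 : 0 < n ^ 2 := by positivity
  have hwtsum : ∑ x ∈ W, ∑ y ∈ W, wt P x y ≤ L * n' ^ 2 := by
    calc ∑ x ∈ W, ∑ y ∈ W, wt P x y ≤ ∑ x ∈ W, ∑ y ∈ W, L :=
          Finset.sum_le_sum fun x _ => Finset.sum_le_sum fun y _ => wt_le P x y
      _ = L * n' ^ 2 := by
          simp only [Finset.sum_const, nsmul_eq_mul]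
          rw [hn']; ring
  have hLα : L - α = L / u + ε3 / 2 := by rw [hα]; ring
  have hkey : (ε3 / 2 - ε) * n ^ 2 + α * n' ^ 2 ≤ ∑ x ∈ W, ∑ y ∈ W, wt P x y := by
    have e1 : (ε3 / 2 - ε) * n ^ 2 + α * n' ^ 2 =
        ((1 - 1 / u) * L - ε) * n ^ 2 - α * n ^ 2 + α * n' ^ 2 := by rw [hα]; ring
    rw [e1]
    linarith
  have hn's : c0 * n ≤ n' := by
    have h1 : ε3 / 4 * n ^ 2 ≤ (ε3 / 2 - ε) * n ^ 2 :=
      mul_le_mul_of_nonneg_right (by linarith) hn2.le
    have h2 : ε3 / 4 * n ^ 2 ≤ (L / u + ε3 / 2) * n' ^ 2 := by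
      rw [← hLα, sub_mul]
      linarith
    have h3 : (L / u + ε3 / 2) * (c0 * n) ^ 2 ≤ (L / u + ε3 / 2) * n' ^ 2 := by
      calc (L / u + ε3 / 2) * (c0 * n) ^ 2 = (c0 ^ 2 * (L / u + ε3 / 2)) * n ^ 2 := by ring
        _ = ε3 / 4 * n ^ 2 := by rw [hc02]
        _ ≤ _ := h2
    exact le_of_sq_le_sq (le_of_mul_le_mul_left h3 hD) hn'00
  have hn'0 : 0 < n' := lt_of_lt_of_le (by positivity) hn's
  have hnbig : (n1 : ℝ) + L / ε3 ≤ n' := by
    have h1 : ((n1 : ℝ) + L / ε3) / c0 ≤ n := by
      refine (Nat.le_ceil _).trans ?_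
      rw [hn]
      exact_mod_cast (by omega : ⌈((n1 : ℝ) + L / ε3) / c0⌉₊ ≤ W0.card)
    refine le_trans ?_ hn's
    rw [div_le_iff₀ hc00] at h1
    linarith
  have hLe : 0 < L / ε3 := by positivity
  refine ⟨W, hWW, ?_, ?_⟩
  · -- size
    have hcond : (((tup k W).filter (fun x => Rainbowable k P x)).card : ℝ) ≤ ε' * n' ^ k := by
      have h1 : (((tup k W).filter (fun x => Rainbowable k P x)).card : ℝ) ≤
          (((tup k W0).filter (fun x => Rainbowable k P x)).card : ℝ) := by
        norm_cast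
        apply Finset.card_le_card
        intro x hx
        rw [Finset.mem_filter] at hx ⊢
        exact ⟨mem_tup.mpr fun i => hWW (mem_tup.mp hx.1 i), hx.2⟩
      calc (((tup k W).filter (fun x => Rainbowable k P x)).card : ℝ)
          ≤ ε * n ^ k := h1.trans hrain
        _ ≤ (ε' * c0 ^ k) * n ^ k := mul_le_mul_of_nonneg_right he3 (by positivity)
        _ = ε' * (c0 * n) ^ k := by rw [mul_pow]; ring
        _ ≤ ε' * n' ^ k := by
          apply mul_le_mul_of_nonneg_left _ hε'.le
          exact pow_le_pow_left₀ (by positivity) hn's k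
    have hn1' : n1 ≤ W.card := by
      have : (n1 : ℝ) ≤ n' := by linarith
      rw [hn'] at this
      exact_mod_cast this
    have h2 := hU V P hsymm hdiag W hn1' hcond
    rw [← hn'] at h2
    have h3 : (ε3 / 2 - ε3 * η / 8) * n ^ 2 ≤ (ε3 / 2 + ε3 * η / 8) * n' ^ 2 := by
      have e1 : ((1 - 1 / u) * L + ε3 * η / 8) * n' ^ 2 =
        (ε3 / 2 + ε3 * η / 8) * n' ^ 2 + α * n' ^ 2 := by rw [hα]; ring
      rw [e1] at h2
      have h4 : (ε3 / 2 - ε3 * η / 8) * n ^ 2 ≤ (ε3 / 2 - ε) * n ^ 2 :=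
        mul_le_mul_of_nonneg_right (by linarith) hn2.le
      linarith
    have h4 : (1 - η / 4) * n ^ 2 ≤ (1 + η / 4) * n' ^ 2 := by
      have e1 : (ε3 / 2 - ε3 * η / 8) * n ^ 2 = ε3 / 2 * ((1 - η / 4) * n ^ 2) := by ring
      have e2 : (ε3 / 2 + ε3 * η / 8) * n' ^ 2 = ε3 / 2 * ((1 + η / 4) * n' ^ 2) := by ring
      rw [e1, e2] at h3
      exact le_of_mul_le_mul_left h3 (by positivity)
    have h5 : (1 - η) ^ 2 * (1 + η / 4) ≤ 1 - η / 4 := by
      have e1 : (1 - η) ^ 2 * (1 + η / 4) = 1 - η / 4 - η * (3 / 2 - η / 2 - η ^ 2 / 4) := by ring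
      rw [e1]
      have h6 : η ^ 2 ≤ 1 := by
        calc η ^ 2 ≤ 1 ^ 2 := pow_le_pow_left₀ hη.le hη1 2
          _ = 1 := by norm_num
      have : 0 ≤ η * (3 / 2 - η / 2 - η ^ 2 / 4) := mul_nonneg hη.le (by linarith)
      linarith
    have h6 : ((1 - η) * n) ^ 2 ≤ n' ^ 2 := by
      have h7 : (1 + η / 4) * ((1 - η) * n) ^ 2 ≤ (1 + η / 4) * n' ^ 2 := by
        calc (1 + η / 4) * ((1 - η) * n) ^ 2 = ((1 - η) ^ 2 * (1 + η / 4)) * n ^ 2 := by ring
          _ ≤ (1 - η / 4) * n ^ 2 := mul_le_mul_of_nonneg_right h5 hn2.le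
          _ ≤ _ := h4
      exact le_of_mul_le_mul_left h7 (by positivity)
    exact le_of_sq_le_sq h6 hn'00
  · intro x hx
    have h1 := hdeg x hx
    have h2 : ∑ y ∈ W, loss P x y = L * n' - ∑ y ∈ W, wt P x y := by
      unfold loss
      rw [Finset.sum_sub_distrib]
      simp only [Finset.sum_const, nsmul_eq_mul]
      rw [hn']; ring
    rw [h2]
    have h3 : L ≤ n' * ε3 := by
      have : L / ε3 ≤ n' := by
        have : (0 : ℝ) ≤ (n1 : ℝ) := by positivity
        linarith
      rwa [div_le_iff₀ hε3] at this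
    have h4 : α * n' = L * n' - (L / u + ε3 / 2) * n' := by
      rw [hα]; ring
    have h5 : α ≤ L := by linarith [hLα]
    have e1 : (L / u + ε3) * n' = (L / u + ε3 / 2) * n' + n' * ε3 / 2 := by ring
    rw [e1]
    linarith

open Classical in
/-- vertices with many intermediate losses -/
noncomputable def Bset {V : Type} {r : ℕ} (P : V → V → Finset (Fin r)) (W : Finset V) (ε6 : ℝ) :
    Finset V :=
  W.filter (fun s => ε6 * (W.card : ℝ) <
    ((W.filter (fun y => loss P s y ≠ 0 ∧ 2 ≤ (P s y).card)).card : ℝ))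

open Classical in
theorem bset_small (k r : ℕ) (hk : 4 ≤ k) (hr : 2 ≤ r) (hA : ArithOK k r) (γ ε3 ε5 ε6 : ℝ)
    (hγ : 0 < γ)
    (hγL : γ ≤ Real.log r / ((k - 1 : ℕ) : ℝ)) (hε3 : ((k - 1 : ℕ) : ℝ) * ε3 ≤ γ / 2)
    (hε6 : ((k - 1 : ℕ) : ℝ) * ε3 + (Real.log r + γ) * ε5 ≤ γ * ε6)
    (hε5 : 0 ≤ ε5)
    (hgap : ∀ (V : Type) (P : V → V → Finset (Fin r))
    (x : Fin k → V) (y : V) (j : Fin k),
    ∑ i ∈ univ.filter (fun i => i < j), loss P (x i) y ≤
      (j.val : ℝ) / ((k - 1 : ℕ) : ℝ) * Real.log r ∨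
    (j.val : ℝ) / ((k - 1 : ℕ) : ℝ) * Real.log r + γ ≤
      ∑ i ∈ univ.filter (fun i => i < j), loss P (x i) y)
    (V : Type) (P : V → V → Finset (Fin r)) (W : Finset V) (hW : 1 ≤ W.card)
    (hloss : ∀ x ∈ W, ∑ y ∈ W, loss P x y ≤
      (Real.log r / ((k - 1 : ℕ) : ℝ) + ε3) * (W.card : ℝ)) :
    (γ / (2 * (Real.log r + γ))) ^ (k - 2) * ε5 * (W.card : ℝ) ^ (k - 1) *
      ((Bset P W ε6).card : ℝ) ≤
      (((tup k W).filter (fun x => Rainbowable k P x)).card : ℝ) := by
  set L := Real.log r with hL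
  have hLpos : 0 < L := Real.log_pos (by exact_mod_cast (by omega : 1 < r))
  set u : ℝ := ((k - 1 : ℕ) : ℝ) with hu
  have hu3 : (3 : ℝ) ≤ u := by rw [hu]; exact_mod_cast (by omega : 3 ≤ k - 1)
  have hu0 : 0 < u := by linarith
  set n' : ℝ := (W.card : ℝ) with hn'
  have hn'0 : 0 < n' := by rw [hn']; exact_mod_cast hW
  set δ : ℝ := γ / (2 * (L + γ)) with hδ
  have hδ0 : 0 < δ := by positivity
  set B := Bset P W ε6 with hB
  have h0k : 0 < k := by omega
  let z0 : Fin k := ⟨0, h0k⟩
  let last : Fin k := ⟨k - 1, by omega⟩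
  -- tree counting
  have htree := tree_count (J := k) W 1 (fun x => x z0 ∈ B) (fun j x y => Rg k P j x y) δ hδ0.le
    (by
      intro x t y ht
      have : z0 ≠ t := by
        intro h
        rw [← h] at ht
        simp [z0] at ht
      rw [Function.update_of_ne this])
    (fun j x t y z hjt => Rg_update P j x t y z hjt) (k - 1) (by omega)
    (by omega) (by
      intro x hx _ t _ ht2 _
      exact greedy_ext k r hk hr γ ε3 hγ hγL hε3 hgap V P W hloss x hx t ht2)
  have hk2 : k - 1 - 1 = k - 2 := by omega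
  rw [hk2] at htree
  -- number of tuples starting in `B`
  have hstart : (((tup k W).filter (fun x => x z0 ∈ B)).card : ℝ) = (B.card : ℝ) * n' ^ (k - 1) := by
    have h1 := sum_update W z0 (fun x => if x z0 ∈ B then (1 : ℝ) else 0)
    have h2 : ∑ x ∈ tup k W, ∑ y ∈ W, (if (Function.update x z0 y) z0 ∈ B then (1 : ℝ) else 0) =
        n' ^ k * (B.card : ℝ) := by
      have h3 : ∀ x ∈ tup k W, ∑ y ∈ W, (if (Function.update x z0 y) z0 ∈ B then (1 : ℝ) else 0)
          = (B.card : ℝ) := by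
        intro x _
        simp only [Function.update_self]
        rw [← Finset.sum_filter, Finset.sum_const, nsmul_eq_mul, mul_one]
        congr 2
        ext y
        rw [Finset.mem_filter, hB, Bset, Finset.mem_filter]
        tauto
      rw [Finset.sum_congr rfl h3, Finset.sum_const, nsmul_eq_mul, card_tup]
      push_cast
      rw [hn']
    rw [h2] at h1
    have h4 : ∑ x ∈ tup k W, (if x z0 ∈ B then (1 : ℝ) else 0) =
        (((tup k W).filter (fun x => x z0 ∈ B)).card : ℝ) := by
      rw [Finset.card_filter]; push_cast; rfl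
    rw [h4, ← hn'] at h1
    have h5 : n' ^ k = n' * n' ^ (k - 1) := by
      rw [← pow_succ']; congr 1; omega
    rw [h5] at h1
    have h6 : n' * ((((tup k W).filter (fun x => x z0 ∈ B)).card : ℝ)) =
        n' * ((B.card : ℝ) * n' ^ (k - 1)) := by
      rw [← h1]; ring
    exact mul_left_cancel₀ hn'0.ne' h6
  have htree2 : δ ^ (k - 2) * ((B.card : ℝ) * n' ^ (k - 1)) ≤
      (((tup k W).filter (fun x => x z0 ∈ B ∧ ∀ j : Fin k, 1 ≤ j.val →
      j.val < k - 1 → Rg k P j x (x j))).card : ℝ) := by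
    rw [← hstart]
    convert htree
  -- every such greedy tuple has many rainbow extensions
  have hmany : ∀ x ∈ (tup k W).filter (fun x => x z0 ∈ B ∧ ∀ j : Fin k, 1 ≤ j.val →
      j.val < k - 1 → Rg k P j x (x j)),
      ε5 * n' ≤ ∑ y ∈ W, (if Rainbowable k P (Function.update x last y) then (1 : ℝ) else 0) := by
    intro x hx
    rw [Finset.mem_filter] at hx
    obtain ⟨hxW, hx0, hxg⟩ := hx
    by_contra hcon
    push Not at hcon
    have e1 : ∑ y ∈ W, (if Rainbowable k P (Function.update x last y) then (1 : ℝ) else 0) =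
        ((W.filter (fun y => Rainbowable k P (Function.update x last y))).card : ℝ) := by
      rw [Finset.card_filter]; push_cast; rfl
    rw [e1] at hcon
    have hgr : ∀ j : Fin k, j.val < k - 1 → Rg k P j x (x j) := by
      intro j hj
      rcases Nat.eq_zero_or_pos j.val with h | h
      · have hno : ∀ i : Fin k, ¬ i < j := by
          intro i hi
          rw [Fin.lt_def] at hi
          omega
        refine ⟨fun i hi => absurd hi (hno i), ?_⟩
        rw [Finset.sum_eq_zero]
        · rw [h]; simp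
        · intro i hi
          exact absurd (Finset.mem_filter.mp hi).2 (hno i)
      · exact hxg j h hj
    have h1 := typical k r hk hr hA γ ε3 hγ hgap V P W hloss last rfl x hxW hgr ε5 hcon.le
    rw [← hL, ← hu, ← hn'] at h1
    have h2 : γ * ((W.filter (fun y => ¬ Typ k P x y)).card : ℝ) ≤ γ * (ε6 * n') := by
      calc _ ≤ _ := h1
        _ ≤ (γ * ε6) * n' := mul_le_mul_of_nonneg_right hε6 hn'0.le
        _ = _ := by ring
    have h3 := le_of_mul_le_mul_left h2 hγ
    rw [hB, Bset, Finset.mem_filter] at hx0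
    have h4 : (W.filter (fun y => loss P (x z0) y ≠ 0 ∧ 2 ≤ (P (x z0) y).card)).card ≤
        (W.filter (fun y => ¬ Typ k P x y)).card := by
      apply Finset.card_le_card
      intro y hy
      rw [Finset.mem_filter] at hy ⊢
      refine ⟨hy.1, ?_⟩
      rintro ⟨i, hi, hi2, hi3⟩
      by_cases h : z0 = i
      · rw [← h] at hi2
        omega
      · exact hy.2.1 (hi3 z0 (by simp only [z0]; omega) h)
    have h5 : ((W.filter (fun y => loss P (x z0) y ≠ 0 ∧ 2 ≤ (P (x z0) y).card)).card : ℝ) ≤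
        ((W.filter (fun y => ¬ Typ k P x y)).card : ℝ) := by exact_mod_cast h4
    rw [← hn'] at hx0
    linarith [hx0.2]
  have hsum := sum_update W last (fun x => if Rainbowable k P x then (1 : ℝ) else 0)
  have e2 : ∑ x ∈ tup k W, (if Rainbowable k P x then (1 : ℝ) else 0) =
      (((tup k W).filter (fun x => Rainbowable k P x)).card : ℝ) := by
    rw [Finset.card_filter]; push_cast; rfl
  rw [e2, ← hn'] at hsum
  set R : ℝ := (((tup k W).filter (fun x => Rainbowable k P x)).card : ℝ) with hR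
  set Gr := (tup k W).filter (fun x => x z0 ∈ B ∧ ∀ j : Fin k, 1 ≤ j.val →
      j.val < k - 1 → Rg k P j x (x j)) with hGr
  have h1 : ε5 * n' * (Gr.card : ℝ) ≤ n' * R := by
    rw [← hsum]
    calc ε5 * n' * (Gr.card : ℝ) = ∑ x ∈ Gr, ε5 * n' := by
          rw [Finset.sum_const, nsmul_eq_mul]; ring
      _ ≤ ∑ x ∈ Gr, ∑ y ∈ W, (if Rainbowable k P (Function.update x last y) then (1 : ℝ) else 0) :=
          Finset.sum_le_sum hmany
      _ ≤ _ := by
          apply Finset.sum_le_sum_of_subset_of_nonneg (Finset.filter_subset _ _)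
          intro x _ _
          exact Finset.sum_nonneg fun y _ => by split_ifs <;> norm_num
  have h2 : ε5 * (Gr.card : ℝ) ≤ R := by
    have : n' * (ε5 * (Gr.card : ℝ)) ≤ n' * R := by
      calc n' * (ε5 * (Gr.card : ℝ)) = ε5 * n' * (Gr.card : ℝ) := by ring
        _ ≤ _ := h1
    exact le_of_mul_le_mul_left this hn'0
  calc δ ^ (k - 2) * ε5 * n' ^ (k - 1) * (B.card : ℝ)
      = ε5 * (δ ^ (k - 2) * ((B.card : ℝ) * n' ^ (k - 1))) := by ring
    _ ≤ ε5 * (Gr.card : ℝ) := mul_le_mul_of_nonneg_left htree2 hε5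
    _ ≤ R := h2

/-- the first `k-1` vertices of `x` are normal and have full palettes -/
def FullN {V : Type} {r : ℕ} (k : ℕ) (P : V → V → Finset (Fin r)) (B : Finset V)
    (j : Fin k) (x : Fin k → V) (y : V) : Prop :=
  y ∉ B ∧ ∀ i, i < j → loss P (x i) y = 0

open Classical in
theorem full_count (k r : ℕ) (hk : 4 ≤ k) (hr : 2 ≤ r) (ε3 ε6 ε9 : ℝ)
    (hc : ε9 + ((k - 1 : ℕ) : ℝ) * (ε3 / Real.log r + ε6) ≤ 1 / (2 * ((k - 1 : ℕ) : ℝ)))
    (hε3 : 0 ≤ ε3) (hε6 : 0 ≤ ε6)
    (V : Type) (P : V → V → Finset (Fin r)) (W : Finset V)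
    (hloss : ∀ x ∈ W, ∑ y ∈ W, loss P x y ≤
      (Real.log r / ((k - 1 : ℕ) : ℝ) + ε3) * (W.card : ℝ))
    (hB : ((Bset P W ε6).card : ℝ) ≤ ε9 * (W.card : ℝ)) :
    (1 / (2 * ((k - 1 : ℕ) : ℝ))) ^ (k - 1) * (W.card : ℝ) ^ k ≤
      (((tup k W).filter (fun x => ∀ j : Fin k, j.val < k - 1 →
        FullN k P (Bset P W ε6) j x (x j))).card : ℝ) := by
  set L := Real.log r with hL
  have hLpos : 0 < L := Real.log_pos (by exact_mod_cast (by omega : 1 < r))
  set u : ℝ := ((k - 1 : ℕ) : ℝ) with hu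
  have hu3 : (3 : ℝ) ≤ u := by rw [hu]; exact_mod_cast (by omega : 3 ≤ k - 1)
  have hu0 : 0 < u := by linarith
  set n' : ℝ := (W.card : ℝ) with hn'
  have hn'0 : 0 ≤ n' := by positivity
  set B := Bset P W ε6 with hBdef
  have htree := tree_count (J := k) W 0 (fun _ => True) (fun j x y => FullN k P B j x y)
    (1 / (2 * u)) (by positivity) (fun _ _ _ _ => Iff.rfl)
    (by
      intro j x t y z hjt
      unfold FullN
      have h : ∀ i, i < j → Function.update x t y i = x i := by
        intro i hi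
        exact Function.update_of_ne (by
          intro h; rw [h] at hi; exact absurd (lt_of_lt_of_le hi hjt) (lt_irrefl _)) _ _
      constructor
      · rintro ⟨h1, h2⟩
        exact ⟨h1, fun i hi => by rw [← h i hi]; exact h2 i hi⟩
      · rintro ⟨h1, h2⟩
        exact ⟨h1, fun i hi => by rw [h i hi]; exact h2 i hi⟩)
    (k - 1) (Nat.zero_le _) (by omega) (by
      intro x hx _ t _ ht hprev
      -- non-full vertices for one normal vertex
      have hone : ∀ i : Fin k, i < t →
          ((W.filter (fun y => loss P (x i) y ≠ 0)).card : ℝ) ≤ (1 / u + (ε3 / L + ε6)) * n' := by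
        intro i hi
        have hiW : x i ∈ W := mem_tup.mp hx i
        have hiB : x i ∉ B := (hprev i (Nat.zero_le _) hi).1
        have h1 : ((W.filter (fun y => (P (x i) y).card < 2)).card : ℝ) ≤ (1 / u + ε3 / L) * n' := by
          have h2 : L * ((W.filter (fun y => (P (x i) y).card < 2)).card : ℝ) ≤
              (L / u + ε3) * n' := by
            refine le_trans ?_ (hloss (x i) hiW)
            calc L * ((W.filter (fun y => (P (x i) y).card < 2)).card : ℝ)
                = ∑ y ∈ W.filter (fun y => (P (x i) y).card < 2), L := by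
                  rw [Finset.sum_const, nsmul_eq_mul]; ring
              _ = ∑ y ∈ W.filter (fun y => (P (x i) y).card < 2), loss P (x i) y :=
                  Finset.sum_congr rfl fun y hy =>
                    (loss_eq_of_card_lt P _ _ (Finset.mem_filter.mp hy).2).symm
              _ ≤ _ := Finset.sum_le_sum_of_subset_of_nonneg (Finset.filter_subset _ _)
                  fun y _ _ => loss_nonneg P _ _
          have h3 : L * ((W.filter (fun y => (P (x i) y).card < 2)).card : ℝ) ≤
              L * ((1 / u + ε3 / L) * n') := by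
            refine h2.trans (le_of_eq ?_)
            field_simp
          exact le_of_mul_le_mul_left h3 hLpos
        have h2 : ((W.filter (fun y => loss P (x i) y ≠ 0 ∧ 2 ≤ (P (x i) y).card)).card : ℝ) ≤
            ε6 * n' := by
          by_contra hcon
          apply hiB
          rw [hBdef, Bset, Finset.mem_filter]
          exact ⟨hiW, not_le.mp hcon⟩
        have h3 : (W.filter (fun y => loss P (x i) y ≠ 0)).card ≤
            (W.filter (fun y => (P (x i) y).card < 2)).card +
            (W.filter (fun y => loss P (x i) y ≠ 0 ∧ 2 ≤ (P (x i) y).card)).card := by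
          refine le_trans (Finset.card_le_card ?_) (Finset.card_union_le _ _)
          intro y hy
          rw [Finset.mem_filter] at hy
          rw [Finset.mem_union, Finset.mem_filter, Finset.mem_filter]
          rcases lt_or_ge (P (x i) y).card 2 with h | h
          · exact Or.inl ⟨hy.1, h⟩
          · exact Or.inr ⟨hy.1, hy.2, h⟩
        have h4 : ((W.filter (fun y => loss P (x i) y ≠ 0)).card : ℝ) ≤
            ((W.filter (fun y => (P (x i) y).card < 2)).card : ℝ) +
            ((W.filter (fun y => loss P (x i) y ≠ 0 ∧ 2 ≤ (P (x i) y).card)).card : ℝ) := by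
          exact_mod_cast h3
        have e : (1 / u + (ε3 / L + ε6)) * n' = (1 / u + ε3 / L) * n' + ε6 * n' := by ring
        rw [e]
        linarith
      -- the complement
      have hcompl : W.card ≤ (W.filter (fun y => FullN k P B t x y)).card + B.card +
          ∑ i ∈ univ.filter (fun i => i < t), (W.filter (fun y => loss P (x i) y ≠ 0)).card := by
        have h1 : W ⊆ (W.filter (fun y => FullN k P B t x y)) ∪ (B ∪
            (univ.filter (fun i => i < t)).biUnion
              (fun i => W.filter (fun y => loss P (x i) y ≠ 0))) := by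
          intro y hy
          rw [Finset.mem_union, Finset.mem_union, Finset.mem_filter, Finset.mem_biUnion]
          by_cases h : y ∈ B
          · exact Or.inr (Or.inl h)
          · by_cases h2 : ∀ i, i < t → loss P (x i) y = 0
            · exact Or.inl ⟨hy, h, h2⟩
            · push Not at h2
              obtain ⟨i, hi, h3⟩ := h2
              exact Or.inr (Or.inr ⟨i, Finset.mem_filter.mpr ⟨Finset.mem_univ _, hi⟩,
                Finset.mem_filter.mpr ⟨hy, h3⟩⟩)
        refine (Finset.card_le_card h1).trans ((Finset.card_union_le _ _).trans ?_)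
        rw [add_assoc]
        exact Nat.add_le_add_left ((Finset.card_union_le _ _).trans
          (Nat.add_le_add_left Finset.card_biUnion_le _)) _
      have hcompl' : n' ≤ ((W.filter (fun y => FullN k P B t x y)).card : ℝ) + (B.card : ℝ) +
          ∑ i ∈ univ.filter (fun i => i < t),
            ((W.filter (fun y => loss P (x i) y ≠ 0)).card : ℝ) := by
        rw [hn']; exact_mod_cast hcompl
      have hs : ∑ i ∈ univ.filter (fun i => i < t),
            ((W.filter (fun y => loss P (x i) y ≠ 0)).card : ℝ) ≤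
            (u - 1) * ((1 / u + (ε3 / L + ε6)) * n') := by
        calc _ ≤ ∑ i ∈ univ.filter (fun i => i < t), (1 / u + (ε3 / L + ε6)) * n' :=
              Finset.sum_le_sum fun i hi => hone i (Finset.mem_filter.mp hi).2
          _ = (t.val : ℝ) * ((1 / u + (ε3 / L + ε6)) * n') := by
              rw [Finset.sum_const, nsmul_eq_mul]
              have : univ.filter (fun i => i < t) = Finset.Iio t := by ext; simp
              rw [this, Fin.card_Iio]
          _ ≤ _ := by
              apply mul_le_mul_of_nonneg_right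
              · have : (t.val : ℝ) + 1 ≤ u := by
                  rw [hu]; exact_mod_cast (by omega : t.val + 1 ≤ k - 1)
                linarith
              · positivity
      have e1 : (u - 1) * ((1 / u + (ε3 / L + ε6)) * n') =
          n' - 1 / u * n' + (u - 1) * (ε3 / L + ε6) * n' := by
        have : u * (1 / u) = 1 := by field_simp
        linear_combination n' * this
      rw [e1] at hs
      have h5 : (u - 1) * (ε3 / L + ε6) * n' ≤ u * (ε3 / L + ε6) * n' := by
        apply mul_le_mul_of_nonneg_right _ hn'0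
        apply mul_le_mul_of_nonneg_right (by linarith) (by positivity)
      have h6 : (ε9 + u * (ε3 / L + ε6)) * n' ≤ 1 / (2 * u) * n' :=
        mul_le_mul_of_nonneg_right hc hn'0
      have e2 : (ε9 + u * (ε3 / L + ε6)) * n' = ε9 * n' + u * (ε3 / L + ε6) * n' := by ring
      have e3 : 1 / u * n' = 1 / (2 * u) * n' + 1 / (2 * u) * n' := by
        have : 1 / u = 1 / (2 * u) + 1 / (2 * u) := by field_simp; norm_num
        rw [this, add_mul]
      rw [e2] at h6
      rw [← hn']
      linarith)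
  simp only [Nat.sub_zero, Finset.filter_true, true_and, Nat.zero_le, true_imp_iff] at htree
  rw [card_tup] at htree
  push_cast at htree
  rw [← hn'] at htree
  exact htree

end Pool.Agent.TH477.RB
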